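import Pool.Agent.H60.TP.Defs

set_option autoImplicit false

/-!
# Top scale: the theorem for a set of permutations with good quotients
-/

open Finset Equiv Pool.H60.Transp Pool.H98.BE
open scoped InnerProductSpace

namespace Pool.H60.TP

private theorem qsum_KO {n : ℕ} (q : Perm (Fin n)) (f : QV n) :
    qsum n (KO q f) = (n.factorial : ℝ) * qsum n f := by
  rw [KO_apply, map_sum]
  simp only [qsum_rho]
  rw [Finset.sum_const, Finset.card_univ, Fintype.card_perm, Fintype.card_fin, nsmul_eq_mul]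

private theorem qsum_HO {n : ℕ} (q : Perm (Fin n)) (f : QV n) : qsum n (HO q f) =
    ((n.factorial : ℝ) * ((n : ℝ) * ((n : ℝ) - 1)) +
      2 * ((n : ℝ) - 1) * ((n : ℝ) - 2) * (n.factorial : ℝ)) * qsum n f := by
  rw [HO_apply, map_add, map_smul, map_smul, qsum_T2, qsum_KO]
  simp only [smul_eq_mul]
  ring

/-- the inequality for all functions -/
theorem good_form {n : ℕ} (hn : 3 ≤ n) {q : Perm (Fin n)} (hq : Good q)
    (f : Perm (Fin n) → ℝ) :
    (n.factorial : ℝ) * ∑ x : Fin n, ∑ y ∈ univ.erase x, ∑ τ, f τ * f (τ * Equiv.swap x y)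
      + 2 * ((n : ℝ) - 1) * ((n : ℝ) - 2)
        * ∑ g : Perm (Fin n), ∑ τ, f τ * f (τ * (g⁻¹ * q * g))
      ≤ 2 * ((n : ℝ) * ((n : ℝ) - 1)) * (∑ τ, f τ) ^ 2
        + (n.factorial : ℝ) * (((n : ℝ) - 1) * ((n : ℝ) - 4)) * ∑ τ, f τ ^ 2 := by
  set F : QV n := WithLp.toLp 2 f with hF
  have hFa : ∀ t, F t = f t := fun t => rfl
  -- the left side
  have hT : ⟪T2 (qrho n) (univ : Finset (Fin n)) F, F⟫_ℝ =
      ∑ x : Fin n, ∑ y ∈ univ.erase x, ∑ τ, f τ * f (τ * Equiv.swap x y) := by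
    rw [quad_T2_apply, sum_inner]
    refine Finset.sum_congr rfl fun x _ => ?_
    rw [sum_inner]
    refine Finset.sum_congr rfl fun y _ => ?_
    rw [qinner]
    refine Finset.sum_congr rfl fun τ _ => ?_
    rw [qrho_apply, hFa, hFa, mul_comm]
  have hC : ⟪KO q F, F⟫_ℝ = ∑ g : Perm (Fin n), ∑ τ, f τ * f (τ * (g⁻¹ * q * g)) := by
    rw [KO_apply, sum_inner]
    refine Finset.sum_congr rfl fun σ _ => ?_
    rw [qinner]
    refine Finset.sum_congr rfl fun τ _ => ?_
    rw [qrho_apply, hFa, hFa, mul_comm]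
  have hL : ⟪HO q F, F⟫_ℝ = (n.factorial : ℝ)
        * ∑ x : Fin n, ∑ y ∈ univ.erase x, ∑ τ, f τ * f (τ * Equiv.swap x y)
      + 2 * ((n : ℝ) - 1) * ((n : ℝ) - 2)
        * ∑ g : Perm (Fin n), ∑ τ, f τ * f (τ * (g⁻¹ * q * g)) := by
    rw [HO_apply, inner_add_left, inner_smul_left, inner_smul_left, hT, hC]
    simp only [conj_trivial]
  rw [← hL]
  -- the decomposition
  set e : QV n := WithLp.toLp 2 (fun _ => (1 : ℝ)) with he
  have hea : ∀ t, e t = 1 := fun t => rfl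
  set N : ℝ := (Fintype.card (Perm (Fin n)) : ℝ) with hN
  have hNpos : 0 < N := by
    rw [hN]
    exact_mod_cast Fintype.card_pos
  have hNf : N = (n.factorial : ℝ) := by
    rw [hN, Fintype.card_perm, Fintype.card_fin]
  have hee : ⟪e, e⟫_ℝ = N := by
    rw [qinner]
    simp only [hea, mul_one]
    rw [Finset.sum_const, Finset.card_univ, nsmul_eq_mul, mul_one]
  have hfe : ∀ g : QV n, ⟪g, e⟫_ℝ = qsum n g := by
    intro g
    rw [qinner, qsum_apply]
    simp only [hea, mul_one]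
  set m : ℝ := qsum n F / N with hm
  set F0 : QV n := F - m • e with hF0
  have hsum0 : qsum n F0 = 0 := by
    rw [hF0, map_sub, map_smul, ← hfe e, hee, smul_eq_mul, hm, div_mul_cancel₀ _ hNpos.ne',
      sub_self]
  have hmain := hq F0 hsum0
  have hFdec : F = m • e + F0 := by
    rw [hF0]
    abel
  set lam : ℝ := (n.factorial : ℝ) * ((n : ℝ) * ((n : ℝ) - 1)) +
      2 * ((n : ℝ) - 1) * ((n : ℝ) - 2) * (n.factorial : ℝ) with hlam
  -- the inner products
  have e1 : ⟪HO q e, e⟫_ℝ = lam * N := by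
    rw [hfe, qsum_HO, ← hfe e, hee]
  have e2 : ⟪HO q F0, e⟫_ℝ = 0 := by
    rw [hfe, qsum_HO, hsum0, mul_zero]
  have e3 : ⟪HO q e, F0⟫_ℝ = 0 := by
    rw [HO_symm q e F0, real_inner_comm, e2]
  have e4 : ⟪F0, e⟫_ℝ = 0 := by rw [hfe, hsum0]
  have h1 : ⟪HO q F, F⟫_ℝ = m ^ 2 * (lam * N) + ⟪HO q F0, F0⟫_ℝ := by
    rw [hFdec, map_add, map_smul, inner_add_left, inner_add_right, inner_add_right,
      inner_smul_left, inner_smul_left, inner_smul_right, inner_smul_right, e1, e2, e3]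
    simp only [conj_trivial]
    ring
  have h2 : ∑ τ, f τ ^ 2 = m ^ 2 * N + ⟪F0, F0⟫_ℝ := by
    have h3 : ∑ τ, f τ ^ 2 = ⟪F, F⟫_ℝ := by
      rw [qinner]
      refine Finset.sum_congr rfl fun τ _ => ?_
      rw [hFa, sq]
    rw [h3, hFdec, inner_add_left, inner_add_right, inner_add_right,
      inner_smul_left, inner_smul_left, inner_smul_right, inner_smul_right, hee, e4,
      real_inner_comm, e4]
    simp only [conj_trivial]
    ring
  have h3 : ∑ τ, f τ = m * N := by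
    have : ∑ τ, f τ = qsum n F := rfl
    rw [this, hm, div_mul_cancel₀ _ hNpos.ne']
  rw [h1, h2, h3]
  have h4 : lam * N = 2 * ((n : ℝ) * ((n : ℝ) - 1)) * N ^ 2 +
      (n.factorial : ℝ) * (((n : ℝ) - 1) * ((n : ℝ) - 4)) * N := by
    rw [hlam, hNf]
    ring
  rw [h4]
  nlinarith [hmain]

/-- counting: the sum over the pairs of the design -/
theorem design_count {n : ℕ} (R : Fin n → Perm (Fin n)) (f : Perm (Fin n) → ℤ) (c : ℤ) :
    (n : ℤ) * n.factorial * ((2 * c + 1) * ∑ τ, f τ - ∑ τ, f τ ^ 2)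
        - c * (c + 1) * (n.factorial : ℤ) ^ 2
      ≤ ∑ a : Fin n, ∑ b ∈ univ.erase a, ∑ g : Perm (Fin n), ∑ τ,
          f τ * f (τ * (g⁻¹ * ((R a)⁻¹ * R b) * g)) := by
  set F : Perm (Fin n) → ℤ := fun q => ∑ τ, f τ * f (τ * q) with hF
  set N : Perm (Fin n) → Perm (Fin n) → ℤ := fun g s => ∑ a : Fin n, f (s * (g⁻¹ * R a * g))
    with hN
  have hsum : ∀ (g : Perm (Fin n) → ℤ) (σ : Perm (Fin n)), ∑ s, g (s * σ) = ∑ s, g s :=
    fun g σ => Equiv.sum_comp (Equiv.mulRight σ) g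
  have h1 : ∀ g, ∑ s, N g s = n * ∑ s, f s := by
    intro g
    simp only [hN]
    rw [sum_comm]
    have e1 : ∀ a ∈ (univ : Finset (Fin n)), ∑ s, f (s * (g⁻¹ * R a * g)) = ∑ s, f s :=
      fun a _ => hsum f _
    rw [sum_congr rfl e1, sum_const, card_univ, Fintype.card_fin, nsmul_eq_mul]
  -- the correlations
  have hcor : ∀ x y : Perm (Fin n), ∑ s, f (s * x) * f (s * y) = F (x⁻¹ * y) := by
    intro x y
    rw [← hsum (fun s => f (s * x) * f (s * y)) x⁻¹]
    simp only [hF]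
    refine sum_congr rfl fun s _ => ?_
    rw [inv_mul_cancel_right, mul_assoc s x⁻¹ y]
  have h2 : ∑ g, ∑ s, N g s ^ 2 = n * (n.factorial * ∑ τ, f τ ^ 2) +
      ∑ a : Fin n, ∑ b ∈ univ.erase a, ∑ g : Perm (Fin n), F (g⁻¹ * ((R a)⁻¹ * R b) * g) := by
    have e1 : ∀ g, ∑ s, N g s ^ 2 =
        ∑ a : Fin n, ∑ b : Fin n, F (g⁻¹ * ((R a)⁻¹ * R b) * g) := by
      intro g
      have e2 : ∀ s, N g s ^ 2 =
          ∑ a : Fin n, ∑ b : Fin n, f (s * (g⁻¹ * R a * g)) * f (s * (g⁻¹ * R b * g)) := by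
        intro s
        rw [sq]
        simp only [hN]
        rw [sum_mul_sum]
      simp only [e2]
      rw [sum_comm]
      refine sum_congr rfl fun a _ => ?_
      rw [sum_comm]
      refine sum_congr rfl fun b _ => ?_
      rw [hcor]
      congr 1
      group
    simp only [e1]
    rw [sum_comm]
    have e3 : ∀ a ∈ (univ : Finset (Fin n)),
        ∑ g : Perm (Fin n), ∑ b : Fin n, F (g⁻¹ * ((R a)⁻¹ * R b) * g) =
        n.factorial * ∑ τ, f τ ^ 2 +
          ∑ b ∈ univ.erase a, ∑ g : Perm (Fin n), F (g⁻¹ * ((R a)⁻¹ * R b) * g) := by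
      intro a _
      rw [sum_comm, ← Finset.add_sum_erase univ _ (mem_univ a)]
      congr 1
      have e4 : ∀ g : Perm (Fin n), F (g⁻¹ * ((R a)⁻¹ * R a) * g) = ∑ τ, f τ ^ 2 := by
        intro g
        rw [inv_mul_cancel, mul_one, inv_mul_cancel]
        simp only [hF, mul_one, sq]
      simp only [e4]
      rw [sum_const, card_univ, Fintype.card_perm, Fintype.card_fin, nsmul_eq_mul]
    rw [sum_congr rfl e3, sum_add_distrib, sum_const, card_univ, Fintype.card_fin, nsmul_eq_mul]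
  have h3 : 0 ≤ ∑ g, ∑ s, (N g s - c) * (N g s - c - 1) := by
    refine sum_nonneg fun g _ => sum_nonneg fun s _ => ?_
    rcases le_or_gt (N g s - c) 0 with h | h
    · exact mul_nonneg_of_nonpos_of_nonpos h (by linarith)
    · exact mul_nonneg h.le (by omega)
  have h4 : ∑ g : Perm (Fin n), ∑ s : Perm (Fin n), (N g s - c) * (N g s - c - 1) =
      ∑ g, ∑ s, N g s ^ 2 - (2 * c + 1) * (n.factorial * (n * ∑ s, f s)) +
        c * (c + 1) * ((n.factorial : ℤ) * n.factorial) := by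
    have e1 : ∀ g s, (N g s - c) * (N g s - c - 1) =
        N g s ^ 2 - (2 * c + 1) * N g s + c * (c + 1) := fun g s => by ring
    simp only [e1]
    simp only [sum_add_distrib, sum_sub_distrib, ← mul_sum, h1, sum_const, card_univ,
      Fintype.card_perm, Fintype.card_fin, nsmul_eq_mul]
    ring
  rw [h4, h2] at h3
  simp only [hF] at h3
  linarith

/-- The inequality, exact for all sizes divisible by `(n-2)!`. -/
theorem main_bound_good {n : ℕ} (hn3 : 3 ≤ n) (R : Fin n → Perm (Fin n))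
    (hR : ∀ a b, a ≠ b → Good ((R a)⁻¹ * R b)) (A : Finset (Perm (Fin n))) (c : ℕ) :
    ((n - 2).factorial : ℝ) * D A
      + ((n : ℝ) - 2) * ((n - 2).factorial : ℝ)
        * (2 * c * A.card - c * (c + 1) * ((n - 1).factorial : ℝ))
      ≤ (A.card : ℝ) ^ 2
        + ((n - 2).factorial : ℝ) * (((n : ℝ) - 1) * ((n : ℝ) - 4) / 2) * A.card := by
  have hn' : (3 : ℝ) ≤ n := by exact_mod_cast hn3
  have hc := design_count R (fun τ : Perm (Fin n) => if τ ∈ A then (1 : ℤ) else 0) c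
  have hqf : ∀ a : Fin n, ∀ b ∈ univ.erase a,
      (n.factorial : ℝ) * (2 * D A) + 2 * ((n : ℝ) - 1) * ((n : ℝ) - 2) *
        ∑ g : Perm (Fin n), ∑ τ, (if τ ∈ A then (1 : ℝ) else 0) *
          (if τ * (g⁻¹ * ((R a)⁻¹ * R b) * g) ∈ A then (1 : ℝ) else 0)
      ≤ 2 * ((n : ℝ) * ((n : ℝ) - 1)) * (A.card : ℝ) ^ 2
        + (n.factorial : ℝ) * (((n : ℝ) - 1) * ((n : ℝ) - 4)) * A.card := by
    intro a b hb
    have hab : a ≠ b := fun h => (Finset.mem_erase.1 hb).1 h.symm
    have hq := good_form hn3 (hR a b hab) (fun τ : Perm (Fin n) => if τ ∈ A then (1 : ℝ) else 0)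
    beta_reduce at hq
    rw [sum_D] at hq
    have h1 : ∑ τ : Perm (Fin n), (if τ ∈ A then (1 : ℝ) else 0) = A.card := by
      rw [← Finset.sum_filter]; simp
    have h2 : ∑ τ : Perm (Fin n), (if τ ∈ A then (1 : ℝ) else 0) ^ 2 = A.card := by
      rw [← h1]
      apply Finset.sum_congr rfl
      intro τ _
      split_ifs <;> norm_num
    rw [h1, h2] at hq
    exact hq
  have h3 : ∑ τ : Perm (Fin n), (if τ ∈ A then (1 : ℤ) else 0) = A.card := by
    rw [← Finset.sum_filter]; simp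
  have h4 : ∑ τ : Perm (Fin n), (if τ ∈ A then (1 : ℤ) else 0) ^ 2 = A.card := by
    rw [← h3]
    apply Finset.sum_congr rfl
    intro τ _
    split_ifs <;> norm_num
  beta_reduce at hc
  rw [h3, h4] at hc
  obtain ⟨X, hX⟩ : ∃ X : ℝ, X = ∑ a : Fin n, ∑ b ∈ univ.erase a, ∑ g : Perm (Fin n), ∑ τ,
      (if τ ∈ A then (1 : ℝ) else 0) *
        (if τ * (g⁻¹ * ((R a)⁻¹ * R b) * g) ∈ A then (1 : ℝ) else 0) := ⟨_, rfl⟩
  have hc' : (n : ℝ) * n.factorial * ((2 * c + 1) * A.card - A.card)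
        - c * (c + 1) * (n.factorial : ℝ) ^ 2 ≤ X := by
    have h5 : ((∑ a : Fin n, ∑ b ∈ univ.erase a, ∑ g : Perm (Fin n), ∑ τ,
        (if τ ∈ A then (1 : ℤ) else 0) *
          (if τ * (g⁻¹ * ((R a)⁻¹ * R b) * g) ∈ A then (1 : ℤ) else 0) : ℤ) : ℝ) = X := by
      rw [hX]
      push_cast
      rfl
    rw [← h5]
    exact_mod_cast hc
  -- the sum over the pairs
  have hs := Finset.sum_le_sum fun (a : Fin n) (_ : a ∈ (univ : Finset (Fin n))) =>
    Finset.sum_le_sum (hqf a)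
  simp only [Finset.sum_add_distrib, ← Finset.mul_sum, Finset.sum_const, Finset.card_univ,
    Fintype.card_fin, Finset.card_erase_of_mem (Finset.mem_univ _), nsmul_eq_mul,
    Nat.cast_sub (show 1 ≤ n by omega), Nat.cast_one] at hs
  rw [← hX] at hs
  have hf1 : (n.factorial : ℝ) = n * ((n : ℝ) - 1) * ((n - 2).factorial : ℝ) := by
    obtain ⟨k, rfl⟩ : ∃ k, n = k + 2 := ⟨n - 2, by omega⟩
    rw [Nat.add_sub_cancel, Nat.factorial_succ, Nat.factorial_succ]
    push_cast
    ring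
  have hf2 : ((n - 1).factorial : ℝ) = ((n : ℝ) - 1) * ((n - 2).factorial : ℝ) :=
    fact_sub_one hn3
  have hkey := mul_le_mul_of_nonneg_left hc'
    (mul_nonneg (mul_nonneg (by norm_num : (0 : ℝ) ≤ 2) (by linarith : (0 : ℝ) ≤ (n : ℝ) - 1))
      (by linarith : (0 : ℝ) ≤ (n : ℝ) - 2))
  have hP : (0 : ℝ) < 2 * ((n : ℝ) * ((n : ℝ) - 1)) ^ 2 := by
    have : (0 : ℝ) < (n : ℝ) * ((n : ℝ) - 1) := mul_pos (by linarith) (by linarith)
    positivity
  refine le_of_mul_le_mul_left ?_ hP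
  rw [hf1] at hs hkey
  rw [hf2]
  linarith

private theorem arith_good {N : ℕ} {A : Finset (Perm (Fin (N + 2)))}
    (hm0 : ∀ c : ℕ, ((N + 2 - 2).factorial : ℝ) * D A
      + (((N + 2 : ℕ) : ℝ) - 2) * ((N + 2 - 2).factorial : ℝ)
        * (2 * c * A.card - c * (c + 1) * ((N + 2 - 1).factorial : ℝ))
      ≤ (A.card : ℝ) ^ 2
        + ((N + 2 - 2).factorial : ℝ) * ((((N + 2 : ℕ) : ℝ) - 1) * (((N + 2 : ℕ) : ℝ) - 4) / 2)
          * A.card)
    (hle : A.card ≤ (N + 2).factorial)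
    (hA : (N + 2 - 2).factorial ∣ A.card) : bd (lexInit (N + 2) A.card) ≤ bd A := by
  have e1 : N + 2 - 2 = N := by omega
  have e2 : N + 2 - 1 = N + 1 := by omega
  rw [e1] at hA
  obtain ⟨q, hq⟩ := hA
  have hFpos : 0 < N.factorial := Nat.factorial_pos N
  have hq2 : q ≤ (N + 2) * (N + 1) := by
    have : N.factorial * q ≤ N.factorial * ((N + 2) * (N + 1)) := by
      rw [← hq]
      refine hle.trans (le_of_eq ?_)
      rw [Nat.factorial_succ (N + 1), Nat.factorial_succ N]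
      ring
    exact Nat.le_of_mul_le_mul_left this hFpos
  set c := q / (N + 1) with hc
  set c' := q % (N + 1) with hc'
  have hqc : (N + 1) * c + c' = q := Nat.div_add_mod q (N + 1)
  have hc'lt : c' < N + 1 := Nat.mod_lt _ (by omega)
  have hcle : c ≤ N + 2 := by
    rw [hc]
    exact Nat.div_le_of_le_mul (by rw [Nat.mul_comm]; exact hq2)
  rcases Nat.lt_or_ge c (N + 2) with hcN | hcN
  · obtain ⟨X, hX1, hX2, hX3⟩ := exists_lex_two N c c' (by omega) (by omega)
    have hcard : X.card = A.card := by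
      rw [hX1, hq, ← hqc, Nat.factorial_succ]
      ring
    have hm := hm0 c
    rw [e1, e2] at hm
    have hD : D A + A.card ≤ D X + X.card := by
      refine le_trans ?_ hX3
      have hmR : (A.card : ℝ) = (N.factorial : ℝ) * (((N : ℝ) + 1) * c + c') := by
        rw [hq, ← hqc]; push_cast; ring
      have hf : (((N + 1).factorial : ℕ) : ℝ) = ((N : ℝ) + 1) * (N.factorial : ℝ) := by
        rw [Nat.factorial_succ]; push_cast; ring
      have hF : (0 : ℝ) < (N.factorial : ℝ) := by exact_mod_cast hFpos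
      have goal : ((D A + A.card : ℕ) : ℝ) ≤ ((c * (N + 1).factorial * ((N + 1).choose 2 + c)
          + 2 * (c * (c' * N.factorial)) + c' * N.factorial * (N.choose 2 + c') : ℕ) : ℝ) := by
        push_cast
        rw [Nat.cast_choose_two, Nat.cast_choose_two, hf]
        push_cast at hm ⊢
        rw [hf, hmR] at hm
        rw [hmR]
        apply le_of_mul_le_mul_left _ hF
        nlinarith [hm]
      exact_mod_cast goal
    have h1 := bd_add_D A
    have h2 := bd_add_D X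
    rw [hcard] at h2
    rw [lexInit_eq X hcard hX2]
    omega
  · have hceq : c = N + 2 := le_antisymm hcle hcN
    have hqeq : q = (N + 2) * (N + 1) := by
      apply le_antisymm hq2
      rw [← hqc, hceq, Nat.mul_comm]
      omega
    refine bd_lex_le (k := N + 2) (c := 1) (by omega) (by omega) A ?_
    rw [hq, hqeq, one_mul, Nat.factorial_succ (N + 1), Nat.factorial_succ N]
    ring

theorem bd_lex_le_good {n : ℕ} (hn3 : 3 ≤ n) (R : Fin n → Perm (Fin n))
    (hR : ∀ a b, a ≠ b → Good ((R a)⁻¹ * R b)) (A : Finset (Perm (Fin n)))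
    (hA : (n - 2).factorial ∣ A.card) : bd (lexInit n A.card) ≤ bd A := by
  have hle : A.card ≤ n.factorial := by
    have := Finset.card_le_univ A
    rwa [Fintype.card_perm, Fintype.card_fin] at this
  have hm := main_bound_good hn3 R hR A
  obtain ⟨N, rfl⟩ : ∃ N, n = N + 2 := ⟨n - 2, by omega⟩
  exact arith_good hm hle hA

end Pool.H60.TP
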