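import Pool.Agent.H60.TP.KLev

set_option autoImplicit false

/-!
# Top scale: the inequality on the functions of few values
-/

open Finset Equiv Pool.H98.BE
open scoped InnerProductSpace

namespace Pool.H60.TP

/-- the inequality for the full cycles, as a statement about the operators -/
theorem cyc_form {n : ℕ} (hn : 3 ≤ n) (f : QV n) (h0 : qsum n f = 0) :
    ((n - 2).factorial : ℝ) * ⟪T2 (qrho n) (univ : Finset (Fin n)) f, f⟫_ℝ
      + 2 * ((n : ℝ) - 2) * ⟪C (qrho n) (univ : Finset (Fin n)) f, f⟫_ℝ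
      ≤ ((n - 2).factorial : ℝ) * (((n : ℝ) - 1) * ((n : ℝ) - 4)) * ⟪f, f⟫_ℝ := by
  have h := q_main hn f h0
  rw [qH_apply, inner_add_left, inner_smul_left, inner_smul_left] at h
  simp only [conj_trivial] at h
  exact h

/-- if the operator of `q` is the one of the full cycles at `f` -/
theorem ho_of_eq {n : ℕ} (hn : 3 ≤ n) {q : Perm (Fin n)} {f : QV n} (h0 : qsum n f = 0)
    (h : KO q f = (n : ℝ) • C (qrho n) (univ : Finset (Fin n)) f) :
    ⟪HO q f, f⟫_ℝ ≤ (n.factorial : ℝ) * (((n : ℝ) - 1) * ((n : ℝ) - 4)) * ⟪f, f⟫_ℝ := by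
  have hc := cyc_form hn f h0
  have hn' : (3 : ℝ) ≤ n := by exact_mod_cast hn
  have hfac : (n.factorial : ℝ) = (n : ℝ) * ((n : ℝ) - 1) * ((n - 2).factorial : ℝ) := by
    obtain ⟨k, rfl⟩ := Nat.exists_eq_add_of_le hn
    have h1 : 3 + k = (k + 1) + 1 + 1 := by omega
    have h2 : 3 + k - 2 = k + 1 := by omega
    rw [h2]
    conv_lhs => rw [h1, Nat.factorial_succ, Nat.factorial_succ]
    push_cast
    ring
  have hpos : 0 ≤ (n : ℝ) * ((n : ℝ) - 1) := mul_nonneg (by linarith) (by linarith)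
  have hm := mul_le_mul_of_nonneg_left hc hpos
  rw [HO_apply, h, inner_add_left, inner_smul_left, smul_smul, inner_smul_left]
  simp only [conj_trivial]
  rw [hfac]
  refine le_trans (le_of_eq ?_) (hm.trans (le_of_eq ?_))
  · ring
  · ring

theorem ho_lev {n j : ℕ} (hn : 3 ≤ n) (hj : j < n) {q : Perm (Fin n)} (hq : NoShort q j)
    {f : QV n} (hf : f ∈ Lev n j) (h0 : qsum n f = 0) :
    ⟪HO q f, f⟫_ℝ ≤ (n.factorial : ℝ) * (((n : ℝ) - 1) * ((n : ℝ) - 4)) * ⟪f, f⟫_ℝ :=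
  ho_of_eq hn h0 (KO_lev hn hj hq hf)

end Pool.H60.TP
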