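import Pool.Agent.H60.TP.Defs

set_option autoImplicit false

/-!
# Top scale: the spaces of functions of few values
-/

open Finset Equiv Pool.H98.BE
open scoped InnerProductSpace

namespace Pool.H60.TP

private theorem LevInv_right {n : ℕ} {I : Finset (Fin n)} {f : QV n} (h : Fixes (qrho n) I f)
    (σ : Perm (Fin n)) : Fixes (qrho n) (I.map σ.toEmbedding) (qrho n σ f) := by
  intro x y hx hy
  have hx' : σ⁻¹ x ∉ I := by
    intro h1
    apply hx
    rw [Finset.mem_map]
    exact ⟨σ⁻¹ x, h1, by simp⟩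
  have hy' : σ⁻¹ y ∉ I := by
    intro h1
    apply hy
    rw [Finset.mem_map]
    exact ⟨σ⁻¹ y, h1, by simp⟩
  have h2 := h _ _ hx' hy'
  rw [← Module.End.mul_apply, ← map_mul, Equiv.swap_mul_eq_mul_swap, map_mul,
    Module.End.mul_apply, h2]

private theorem LevInv_left {n : ℕ} {I : Finset (Fin n)} {f : QV n} (h : Fixes (qrho n) I f)
    (σ : Perm (Fin n)) : Fixes (qrho n) I (qlam n σ f) := by
  intro x y hx hy
  rw [← qlam_qrho, h x y hx hy]

theorem lev_right (n j : ℕ) : Invar (qrho n) (Lev n j) := by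
  intro σ w hw
  induction hw using Submodule.span_induction with
  | mem f hf =>
    obtain ⟨I, hI, hf⟩ := hf
    exact Submodule.subset_span ⟨I.map σ.toEmbedding, by rw [Finset.card_map, hI],
      LevInv_right hf σ⟩
  | zero => rw [map_zero]; exact Submodule.zero_mem _
  | add f g _ _ hf hg => rw [map_add]; exact Submodule.add_mem _ hf hg
  | smul c f _ hf => rw [map_smul]; exact Submodule.smul_mem _ _ hf

theorem lev_left (n j : ℕ) : Invar (qlam n) (Lev n j) := by
  intro σ w hw
  induction hw using Submodule.span_induction with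
  | mem f hf =>
    obtain ⟨I, hI, hf⟩ := hf
    exact Submodule.subset_span ⟨I, hI, LevInv_left hf σ⟩
  | zero => rw [map_zero]; exact Submodule.zero_mem _
  | add f g _ _ hf hg => rw [map_add]; exact Submodule.add_mem _ hf hg
  | smul c f _ hf => rw [map_smul]; exact Submodule.smul_mem _ _ hf

theorem slev_right (n j : ℕ) : Invar (qrho n) (SLev n j) := by
  rintro σ _ ⟨w, hw, rfl⟩
  have h1 : qrho n σ (sgnm n w) = ((Perm.sign σ : ℤ) : ℝ) • sgnm n (qrho n σ w) := by
    rw [sgnm_qrho, smul_smul, sign_sq, one_smul]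
  rw [h1]
  exact Submodule.smul_mem _ _ (Submodule.mem_map_of_mem (lev_right n j σ w hw))

theorem slev_left (n j : ℕ) : Invar (qlam n) (SLev n j) := by
  rintro σ _ ⟨w, hw, rfl⟩
  have h1 : qlam n σ (sgnm n w) = ((Perm.sign σ : ℤ) : ℝ) • sgnm n (qlam n σ w) := by
    rw [sgnm_qlam, smul_smul, sign_sq, one_smul]
  rw [h1]
  exact Submodule.smul_mem _ _ (Submodule.mem_map_of_mem (lev_left n j σ w hw))

theorem lev_mono {n i j : ℕ} (hij : i ≤ j) (hj : j ≤ n) : Lev n i ≤ Lev n j := by
  refine Submodule.span_le.2 ?_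
  rintro f ⟨I, hI, hf⟩
  obtain ⟨J, hIJ, hJ⟩ := Finset.exists_superset_card_eq (s := I) (n := j) (by omega)
    (by rw [Fintype.card_fin]; exact hj)
  exact Submodule.subset_span ⟨J, hJ, fun x y hx hy =>
    hf x y (fun h => hx (hIJ h)) (fun h => hy (hIJ h))⟩

theorem const_mem_lev {n : ℕ} (j : ℕ) (hj : j ≤ n) (a : ℝ) :
    (WithLp.toLp 2 (fun _ => a) : QV n) ∈ Lev n j := by
  obtain ⟨J, -, hJ⟩ := Finset.exists_superset_card_eq (s := (∅ : Finset (Fin n))) (n := j)
    (by simp) (by rw [Fintype.card_fin]; exact hj)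
  refine Submodule.subset_span ⟨J, hJ, fun x y _ _ => ?_⟩
  ext t
  rw [qrho_apply]

private theorem LevInv_orth {n j : ℕ} (h : 2 * j + 2 ≤ n) {f g : QV n} {I I' : Finset (Fin n)}
    (hI : I.card = j) (hI' : I'.card = j) (hf : Fixes (qrho n) I f)
    (hg : Fixes (qrho n) I' g) : ⟪f, sgnm n g⟫_ℝ = 0 := by
  classical
  have hc : 2 ≤ ((I ∪ I')ᶜ).card := by
    rw [Finset.card_compl, Fintype.card_fin]
    have := Finset.card_union_le I I'
    omega
  obtain ⟨x, hx, y, hy, hxy⟩ := Finset.one_lt_card.1 (show 1 < ((I ∪ I')ᶜ).card by omega)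
  rw [Finset.mem_compl, Finset.mem_union, not_or] at hx hy
  have h1 := hf x y hx.1 hy.1
  have h2 := hg x y hx.2 hy.2
  have h3 := sgnm_qrho (Equiv.swap x y) g
  rw [h2, Perm.sign_swap hxy] at h3
  have h4 : qrho n (Equiv.swap x y) (sgnm n g) = - sgnm n g := by
    have h6 : sgnm n g = - qrho n (Equiv.swap x y) (sgnm n g) := by
      rw [Units.val_neg, Units.val_one, Int.cast_neg, Int.cast_one, neg_smul, one_smul] at h3
      exact h3
    have h7 := congrArg Neg.neg h6
    rw [neg_neg] at h7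
    exact h7.symm
  have h5 := qrho_inner (Equiv.swap x y) f (sgnm n g)
  rw [h1, h4, inner_neg_right] at h5
  linarith

theorem lev_orth {n j : ℕ} (h : 2 * j + 2 ≤ n) {f g : QV n} (hf : f ∈ Lev n j)
    (hg : g ∈ Lev n j) : ⟪f, sgnm n g⟫_ℝ = 0 := by
  induction hf using Submodule.span_induction with
  | mem f hf =>
    obtain ⟨I, hI, hf⟩ := hf
    induction hg using Submodule.span_induction with
    | mem g hg =>
      obtain ⟨I', hI', hg⟩ := hg
      exact LevInv_orth h hI hI' hf hg
    | zero => rw [map_zero, inner_zero_right]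
    | add g g' _ _ hg hg' => rw [map_add, inner_add_right, hg, hg', add_zero]
    | smul c g _ hg => rw [map_smul, inner_smul_right, hg, mul_zero]
  | zero => rw [inner_zero_left]
  | add f f' _ _ hf hf' => rw [inner_add_left, hf, hf', add_zero]
  | smul c f _ hf => rw [inner_smul_left, hf, mul_zero]

end Pool.H60.TP
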