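import Mathlib

set_option autoImplicit false

/-!
# Top scale: the multipliers

`β = λ ∘ χ`, where `χ : ZMod m → K`, `χ l = ζ ^ l`, `ζ` a primitive `m`-th root of unity in the algebraic closure `K` of `ZMod p`,
and `λ : K → ZMod p` is a linear functional which does not vanish at the at most `m < p` elements `χ l`.
-/

open Finset

namespace Pool.H60.TP

/-- a functional which is not zero at the elements of a small set -/
private theorem exists_functional {p : ℕ} [Fact p.Prime] {K : Type} [Field K] [Algebra (ZMod p) K] (S : Finset K) :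
    (∀ v ∈ S, v ≠ 0) → S.card < p → ∃ f : K →ₗ[ZMod p] ZMod p, ∀ v ∈ S, f v ≠ 0 := by
  classical
  induction S using Finset.induction_on with
  | empty => exact fun _ _ => ⟨0, fun v hv => absurd hv (Finset.notMem_empty v)⟩
  | insert v S hvS ih =>
    intro hS hc
    rw [Finset.card_insert_of_notMem hvS] at hc
    obtain ⟨f, hf⟩ := ih (fun w hw => hS w (Finset.mem_insert_of_mem hw)) (by omega)
    obtain ⟨g, hg⟩ : ∃ g : K →ₗ[ZMod p] ZMod p, g v ≠ 0 := by
      by_contra h
      push Not at h
      exact hS v (Finset.mem_insert_self v S) ((Module.forall_dual_apply_eq_zero_iff (ZMod p) v).1 h)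
    let bad : Finset (ZMod p) := (insert v S).image fun w => -(f w) / g w
    have hbad : bad.card < (Finset.univ : Finset (ZMod p)).card := by
      refine lt_of_le_of_lt Finset.card_image_le ?_
      rw [Finset.card_insert_of_notMem hvS, Finset.card_univ, ZMod.card]
      exact hc
    obtain ⟨c, -, hc⟩ := Finset.exists_mem_notMem_of_card_lt_card hbad
    refine ⟨f + c • g, fun w hw h0 => ?_⟩
    rw [LinearMap.add_apply, LinearMap.smul_apply, smul_eq_mul] at h0
    by_cases hgw : g w = 0
    · rw [hgw, mul_zero, add_zero] at h0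
      rcases Finset.mem_insert.1 hw with rfl | hw'
      · exact hg hgw
      · exact hf w hw' h0
    · apply hc
      refine Finset.mem_image.2 ⟨w, hw, ?_⟩
      rw [div_eq_iff hgw]
      linear_combination -h0

theorem exists_beta {m p : ℕ} (hm : 1 ≤ m) (hp : p.Prime) (hmp : m < p) :
    ∃ β : ZMod m → ZMod p, (∀ l, β l ≠ 0) ∧
      ∀ d : ZMod m, d ≠ 0 → ∀ l, ∑ s ∈ range (addOrderOf d), β (l + s • d) = 0 := by
  classical
  haveI : Fact p.Prime := ⟨hp⟩
  haveI : NeZero m := ⟨by omega⟩
  let K : Type := AlgebraicClosure (ZMod p)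
  haveI hchar : CharP K p := charP_of_injective_algebraMap (algebraMap (ZMod p) K).injective p
  haveI : NeZero (m : K) := ⟨fun h => by
    have h1 := (CharP.cast_eq_zero_iff K p m).1 h
    exact absurd (Nat.le_of_dvd (by omega) h1) (by omega)⟩
  obtain ⟨ζ, hζ⟩ := HasEnoughRootsOfUnity.exists_primitiveRoot K m
  let χ : AddChar (ZMod m) K := AddChar.zmodChar m hζ.pow_eq_one
  have hχ : ∀ d, d ≠ 0 → χ d ≠ 1 := by
    intro d hd h1
    have h2 : ζ ^ d.val = 1 := h1
    rw [hζ.pow_eq_one_iff_dvd] at h2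
    exact hd ((ZMod.val_eq_zero d).1 (Nat.eq_zero_of_dvd_of_lt h2 (ZMod.val_lt d)))
  have hne : ∀ l, χ l ≠ 0 := by
    intro l h0
    have h1 := χ.map_add_eq_mul l (-l)
    rw [add_neg_cancel, AddChar.map_zero_eq_one, h0, zero_mul] at h1
    exact one_ne_zero h1
  obtain ⟨f, hf⟩ := exists_functional (p := p) (Finset.univ.image χ) (by
    intro v hv
    obtain ⟨l, -, rfl⟩ := Finset.mem_image.1 hv
    exact hne l) (by
    refine lt_of_le_of_lt Finset.card_image_le ?_
    rw [Finset.card_univ, ZMod.card]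
    exact hmp)
  refine ⟨fun l => f (χ l), fun l => hf _ (Finset.mem_image_of_mem _ (Finset.mem_univ l)), fun d hd l => ?_⟩
  rw [← map_sum]
  have h1 : ∀ s ∈ range (addOrderOf d), χ (l + s • d) = χ l * χ d ^ s := by
    intro s _
    rw [AddChar.map_add_eq_mul, AddChar.map_nsmul_eq_pow]
  rw [Finset.sum_congr rfl h1, ← Finset.mul_sum]
  have h2 : (∑ s ∈ range (addOrderOf d), χ d ^ s) * (χ d - 1) = 0 := by
    rw [geom_sum_mul, ← AddChar.map_nsmul_eq_pow, addOrderOf_nsmul_eq_zero, AddChar.map_zero_eq_one, sub_self]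
  rcases mul_eq_zero.1 h2 with h3 | h3
  · rw [h3, mul_zero, map_zero]
  · exact absurd (sub_eq_zero.1 h3) (hχ d hd)

end Pool.H60.TP
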