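import Pool.Agent.H60.TP.Defs

set_option autoImplicit false

/-!
# Top scale: few permutations commute with a permutation with few cycles
-/

open Finset Equiv Pool.H98.BE

namespace Pool.H60.TP

/-- the classes of the relation of lying in the same cycle -/
private abbrev CQ {n : ℕ} (q : Perm (Fin n)) : Type := Quotient (Perm.SameCycle.setoid q)

private noncomputable instance {n : ℕ} (q : Perm (Fin n)) : Fintype (CQ q) :=
  @Fintype.ofFinite _ (Quotient.finite _)

private theorem cq_out {n : ℕ} (q : Perm (Fin n)) (z : Fin n) :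
    ∃ i : ℤ, (q ^ i) ((Quotient.mk (Perm.SameCycle.setoid q) z).out) = z := by
  have h : (Perm.SameCycle.setoid q).r (Quotient.mk (Perm.SameCycle.setoid q) z).out z :=
    Quotient.mk_out (s := Perm.SameCycle.setoid q) z
  exact h

private theorem cq_inj {n p : ℕ} {q : Perm (Fin n)} (hq : NoShort q (p - 1)) :
    Function.Injective (fun a : CQ q × Fin p => (q ^ a.2.1) a.1.out) := by
  rintro ⟨c, i⟩ ⟨d, j⟩ h
  have h1 : (q ^ i.1) c.out = (q ^ j.1) d.out := h
  have hcd : c = d := by
    have h2 : q.SameCycle c.out d.out := by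
      refine ⟨(i.1 : ℤ) - (j.1 : ℤ), ?_⟩
      have h3 : (q ^ (i.1 : ℤ)) c.out = (q ^ (j.1 : ℤ)) d.out := by
        rw [zpow_natCast, zpow_natCast]
        exact h1
      rw [sub_eq_neg_add, zpow_add, Perm.mul_apply, h3, ← Perm.mul_apply, ← zpow_add,
        neg_add_cancel, zpow_zero, Perm.one_apply]
    have h4 := Quotient.sound (s := Perm.SameCycle.setoid q) h2
    rwa [Quotient.out_eq, Quotient.out_eq] at h4
  subst hcd
  have key : ∀ a b : ℕ, a < b → b < p → (q ^ a) c.out = (q ^ b) c.out → False := by
    intro a b hab hb he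
    refine hq (b - a) (by omega) (by omega) c.out ?_
    have h5 : q ^ b = q ^ a * q ^ (b - a) := by
      rw [← pow_add]
      congr 1
      omega
    rw [h5, Perm.mul_apply] at he
    exact ((q ^ a).injective he).symm
  have hij : i = j := by
    rcases lt_trichotomy i.1 j.1 with hl | hl | hl
    · exact (key _ _ hl j.2 h1).elim
    · exact Fin.ext hl
    · exact (key _ _ hl i.2 h1.symm).elim
  rw [hij]

private theorem cq_card {m p : ℕ} (hp : 1 ≤ p) {q : Perm (Fin (m * p))}
    (hq : NoShort q (p - 1)) : Fintype.card (CQ q) ≤ m := by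
  have h := Fintype.card_le_of_injective _ (cq_inj hq)
  rw [Fintype.card_prod, Fintype.card_fin, Fintype.card_fin] at h
  exact Nat.le_of_mul_le_mul_right h (by omega)

theorem cent_le {m p : ℕ} (hp : 1 ≤ p) {q : Perm (Fin (m * p))} (hq : NoShort q (p - 1)) :
    cent q ≤ (m * p) ^ m := by
  classical
  have h1 : cent q ≤ (m * p) ^ Fintype.card (CQ q) := by
    have h2 : cent q ≤ Fintype.card (CQ q → Fin (m * p)) := by
      unfold cent
      rw [← Finset.card_univ]
      refine Finset.card_le_card_of_injOn (fun g c => g c.out) (fun _ _ => Finset.mem_univ _) ?_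
      intro g hg g' hg' he
      have hg1 : Commute g q := (Finset.mem_filter.1 hg).2
      have hg2 : Commute g' q := (Finset.mem_filter.1 hg').2
      refine Equiv.ext fun z => ?_
      obtain ⟨i, hi⟩ := cq_out q z
      have h3 : g ((Quotient.mk (Perm.SameCycle.setoid q) z).out)
          = g' ((Quotient.mk (Perm.SameCycle.setoid q) z).out) :=
        congrFun he (Quotient.mk (Perm.SameCycle.setoid q) z)
      have h4 := (hg1.zpow_right i).eq
      have h5 := (hg2.zpow_right i).eq
      rw [← hi, ← Perm.mul_apply, ← Perm.mul_apply, h4, h5, Perm.mul_apply, Perm.mul_apply, h3]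
    rw [Fintype.card_fun, Fintype.card_fin] at h2
    exact h2
  have h6 := cq_card hp hq
  rcases Nat.eq_zero_or_pos m with hm | hm
  · have h7 : Fintype.card (CQ q) = 0 := by omega
    rw [h7, pow_zero] at h1
    have h8 : (m * p) ^ m = 1 := by rw [hm, pow_zero]
    rw [h8]
    exact h1
  · exact h1.trans (Nat.pow_le_pow_right (Nat.mul_pos hm (by omega)) h6)

end Pool.H60.TP
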