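import Pool.Agent.H60.TP.Defs

set_option autoImplicit false

/-!
# Top scale: the number of conjugates with given values on a small set

If `a`, `b` lie in different cycles of `q`, the number does not change when `q` is replaced by
`q * swap a b` (which joins the two cycles): for `g` let `m` be the least number such that neither
`q ^ m a` nor `q ^ m b` is in `g(I)`, and exchange `q ^ i a` and `q ^ i b` for `1 ≤ i ≤ m`.  So
`q` can be replaced by an `n`-cycle.
-/

open Finset Equiv Pool.H98.BE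

namespace Pool.H60.TP

private def ci_T {n : ℕ} (q : Perm (Fin n)) (a b : Fin n) : ℕ → Perm (Fin n)
  | 0 => 1
  | m + 1 => Equiv.swap ((q ^ (m + 1)) a) ((q ^ (m + 1)) b) * ci_T q a b m

private theorem ci_alg {n : ℕ} (q : Perm (Fin n)) (a b : Fin n) (m : ℕ) :
    ci_T q a b m * (q * Equiv.swap a b) =
      q * Equiv.swap ((q ^ m) a) ((q ^ m) b) * ci_T q a b m := by
  induction m with
  | zero => simp [ci_T]
  | succ m ih =>
    have h1 : q * Equiv.swap ((q ^ m) a) ((q ^ m) b) =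
        Equiv.swap ((q ^ (m + 1)) a) ((q ^ (m + 1)) b) * q := by
      rw [Equiv.mul_swap_eq_swap_mul, pow_succ']
      rfl
    change Equiv.swap ((q ^ (m + 1)) a) ((q ^ (m + 1)) b) * ci_T q a b m * (q * Equiv.swap a b) =
      q * Equiv.swap ((q ^ (m + 1)) a) ((q ^ (m + 1)) b) *
        (Equiv.swap ((q ^ (m + 1)) a) ((q ^ (m + 1)) b) * ci_T q a b m)
    have h2 : q * Equiv.swap ((q ^ (m + 1)) a) ((q ^ (m + 1)) b) *
        (Equiv.swap ((q ^ (m + 1)) a) ((q ^ (m + 1)) b) * ci_T q a b m) = q * ci_T q a b m := by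
      rw [mul_assoc q, ← mul_assoc (Equiv.swap _ _) (Equiv.swap _ _), Equiv.swap_mul_self, one_mul]
    rw [h2, mul_assoc (Equiv.swap _ _), ih, h1, mul_assoc (Equiv.swap _ _) q,
      ← mul_assoc (Equiv.swap _ _) (Equiv.swap _ _), Equiv.swap_mul_self, one_mul]

private def ci_P {n : ℕ} (q : Perm (Fin n)) (a b : Fin n) (m : ℕ) (z : Fin n) : Prop :=
  z = (q ^ m) a ∨ z = (q ^ m) b

private theorem ci_dist {n j : ℕ} {q : Perm (Fin n)} (hq : NoShort q j) {a b : Fin n}
    (hab : ¬ q.SameCycle a b) {m m' : ℕ} (hm : m ≤ j) (hm' : m' ≤ j) {z : Fin n}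
    (h : ci_P q a b m z) (h' : ci_P q a b m' z) : m = m' := by
  have key : ∀ c : Fin n, ∀ m m' : ℕ, m < m' → m' ≤ j → (q ^ m) c ≠ (q ^ m') c := by
    intro c m m' h1 h2 h3
    have h4 := hq (m' - m) (by omega) (by omega) ((q ^ m) c)
    apply h4
    rw [← Perm.mul_apply, ← pow_add, Nat.sub_add_cancel h1.le, ← h3]
  have key2 : ∀ m m' : ℕ, (q ^ m) a ≠ (q ^ m') b := by
    intro m m' h3
    apply hab
    have h4 : q.SameCycle ((q ^ m) a) ((q ^ m') b) := by
      rw [h3]
    rwa [Perm.sameCycle_pow_left, Perm.sameCycle_pow_right] at h4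
  have key3 : ∀ c : Fin n, ∀ m m' : ℕ, m ≤ j → m' ≤ j → (q ^ m) c = (q ^ m') c → m = m' := by
    intro c m m' h1 h2 h3
    rcases lt_trichotomy m m' with h | h | h
    · exact absurd h3 (key c m m' h h2)
    · exact h
    · exact absurd h3.symm (key c m' m h h1)
  rcases h with h | h <;> rcases h' with h' | h'
  · exact key3 a m m' hm hm' (h.symm.trans h')
  · exact absurd (h.symm.trans h') (key2 m m')
  · exact absurd (h'.symm.trans h) (key2 m' m)
  · exact key3 b m m' hm hm' (h.symm.trans h')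

private theorem ci_swap {n j : ℕ} {q : Perm (Fin n)} (hq : NoShort q j) {a b : Fin n}
    (hab : ¬ q.SameCycle a b) {i s : ℕ} (hi : i ≤ j) (hs : s ≤ j) (z : Fin n) :
    ci_P q a b i (Equiv.swap ((q ^ s) a) ((q ^ s) b) z) ↔ ci_P q a b i z := by
  by_cases hz : ci_P q a b s z
  · have hz' : ci_P q a b s (Equiv.swap ((q ^ s) a) ((q ^ s) b) z) := by
      rcases hz with h | h
      · right
        rw [h, Equiv.swap_apply_left]
      · left
        rw [h, Equiv.swap_apply_right]
    constructor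
    · intro h
      have h1 := ci_dist hq hab hi hs h hz'
      rw [h1]
      exact hz
    · intro h
      have h1 := ci_dist hq hab hi hs h hz
      rw [h1]
      exact hz'
  · rw [Equiv.swap_apply_of_ne_of_ne (fun h => hz (Or.inl h)) (fun h => hz (Or.inr h))]

private theorem ci_TP {n j : ℕ} {q : Perm (Fin n)} (hq : NoShort q j) {a b : Fin n}
    (hab : ¬ q.SameCycle a b) {i m : ℕ} (hi : i ≤ j) (hm : m ≤ j) (z : Fin n) :
    ci_P q a b i (ci_T q a b m z) ↔ ci_P q a b i z := by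
  induction m with
  | zero => rfl
  | succ m ih =>
    rw [← ih (by omega)]
    exact ci_swap hq hab hi hm _

private theorem ci_pig {n j : ℕ} {q : Perm (Fin n)} (hq : NoShort q j) {a b : Fin n}
    (hab : ¬ q.SameCycle a b) (J : Finset (Fin n)) (hJ : J.card ≤ j) :
    ∃ m, m ≤ j ∧ ∀ z ∈ J, ¬ ci_P q a b m z := by
  by_contra hcon
  have h0 : ∀ m : ℕ, ∃ z, m ≤ j → z ∈ J ∧ ci_P q a b m z := by
    intro m
    by_cases hm : m ≤ j
    · by_contra hz
      apply hcon
      refine ⟨m, hm, fun z hz1 hz2 => hz ⟨z, fun _ => ⟨hz1, hz2⟩⟩⟩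
    · exact ⟨a, fun h => absurd h hm⟩
  choose f hf using h0
  have h1 : (Finset.range (j + 1)).card ≤ J.card := by
    apply Finset.card_le_card_of_injOn f
    · intro m hm
      have hm1 : m ≤ j := Nat.lt_succ_iff.1 (Finset.mem_range.1 hm)
      exact (hf m hm1).1
    · intro m hm m' hm' h
      have hm1 : m ≤ j := Nat.lt_succ_iff.1 (Finset.mem_range.1 hm)
      have hm2 : m' ≤ j := Nat.lt_succ_iff.1 (Finset.mem_range.1 hm')
      have a1 := (hf m hm1).2
      have a2 := (hf m' hm2).2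
      rw [← h] at a2
      exact ci_dist hq hab hm1 hm2 a1 a2
  rw [Finset.card_range] at h1
  omega

private theorem ci_comm {n j : ℕ} {q : Perm (Fin n)} (hq : NoShort q j) {a b : Fin n}
    (hab : ¬ q.SameCycle a b) {m : ℕ} (hm : m ≤ j) {y : Fin n} (hy : ¬ ci_P q a b m y) :
    q (ci_T q a b m y) = ci_T q a b m ((q * Equiv.swap a b) y) := by
  have h1 := congrArg (fun r : Perm (Fin n) => r y) (ci_alg q a b m)
  have h2 : ¬ ci_P q a b m (ci_T q a b m y) := fun h => hy ((ci_TP hq hab hm hm y).1 h)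
  change ci_T q a b m ((q * Equiv.swap a b) y) =
    q (Equiv.swap ((q ^ m) a) ((q ^ m) b) (ci_T q a b m y)) at h1
  rw [h1, Equiv.swap_apply_of_ne_of_ne (fun h => h2 (Or.inl h)) (fun h => h2 (Or.inr h))]

private theorem ci_mem {n : ℕ} (q g φ : Perm (Fin n)) (i : Fin n) :
    (g⁻¹ * q * g) i = φ i ↔ q (g i) = g (φ i) := by
  rw [Perm.mul_apply, Perm.mul_apply, Perm.inv_eq_iff_eq]

open Classical in
private noncomputable def ci_mu {n : ℕ} (j : ℕ) (q : Perm (Fin n)) (a b : Fin n)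
    (I : Finset (Fin n)) (g : Perm (Fin n)) : ℕ :=
  sInf {m | m ≤ j ∧ ∀ x ∈ I, ¬ ci_P q a b m (g x)}

private theorem ci_mu_spec {n j : ℕ} {q : Perm (Fin n)} (hq : NoShort q j) {a b : Fin n}
    (hab : ¬ q.SameCycle a b) (I : Finset (Fin n)) (hI : I.card ≤ j) (g : Perm (Fin n)) :
    ci_mu j q a b I g ≤ j ∧ ∀ x ∈ I, ¬ ci_P q a b (ci_mu j q a b I g) (g x) := by
  have h1 : (I.image g).card ≤ j := Finset.card_image_le.trans hI
  obtain ⟨m, hm, hm'⟩ := ci_pig hq hab (I.image g) h1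
  have h2 : {m | m ≤ j ∧ ∀ x ∈ I, ¬ ci_P q a b m (g x)}.Nonempty :=
    ⟨m, hm, fun x hx => hm' _ (Finset.mem_image_of_mem g hx)⟩
  exact Nat.sInf_mem h2

private theorem ci_mu_T {n j : ℕ} {q : Perm (Fin n)} (hq : NoShort q j) {a b : Fin n}
    (hab : ¬ q.SameCycle a b) (I : Finset (Fin n)) (g : Perm (Fin n)) {m : ℕ} (hm : m ≤ j) :
    ci_mu j q a b I (ci_T q a b m * g) = ci_mu j q a b I g := by
  unfold ci_mu
  congr 1
  ext i
  constructor
  · rintro ⟨h1, h2⟩
    refine ⟨h1, fun x hx h => h2 x hx ?_⟩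
    exact (ci_TP hq hab h1 hm (g x)).2 h
  · rintro ⟨h1, h2⟩
    refine ⟨h1, fun x hx h => h2 x hx ?_⟩
    exact (ci_TP hq hab h1 hm (g x)).1 h

private theorem ci_mu_T' {n j : ℕ} {q : Perm (Fin n)} (hq : NoShort q j) {a b : Fin n}
    (hab : ¬ q.SameCycle a b) (I : Finset (Fin n)) (g : Perm (Fin n)) {m : ℕ} (hm : m ≤ j) :
    ci_mu j q a b I ((ci_T q a b m)⁻¹ * g) = ci_mu j q a b I g := by
  rw [← ci_mu_T hq hab I ((ci_T q a b m)⁻¹ * g) hm, mul_inv_cancel_left]

private theorem ci_step {n j : ℕ} {q : Perm (Fin n)} (hq : NoShort q j) {a b : Fin n}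
    (hab : ¬ q.SameCycle a b) (I : Finset (Fin n)) (hI : I.card ≤ j) (φ : Perm (Fin n)) :
    (univ.filter (fun g : Perm (Fin n) =>
        ∀ i ∈ I, (g⁻¹ * (q * Equiv.swap a b) * g) i = φ i)).card
      = (univ.filter (fun g : Perm (Fin n) => ∀ i ∈ I, (g⁻¹ * q * g) i = φ i)).card := by
  refine Finset.card_bij' (fun g _ => ci_T q a b (ci_mu j q a b I g) * g)
    (fun g _ => (ci_T q a b (ci_mu j q a b I g))⁻¹ * g) ?_ ?_ ?_ ?_
  · intro g hg
    rw [Finset.mem_filter] at hg ⊢
    refine ⟨Finset.mem_univ _, fun i hi => ?_⟩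
    obtain ⟨h1, h2⟩ := ci_mu_spec hq hab I hI g
    have h3 := (ci_mem _ _ _ _).1 (hg.2 i hi)
    rw [ci_mem]
    change q (ci_T q a b (ci_mu j q a b I g) (g i)) =
      ci_T q a b (ci_mu j q a b I g) (g (φ i))
    rw [ci_comm hq hab h1 (h2 i hi), h3]
  · intro g hg
    rw [Finset.mem_filter] at hg ⊢
    refine ⟨Finset.mem_univ _, fun i hi => ?_⟩
    obtain ⟨h1, h2⟩ := ci_mu_spec hq hab I hI g
    have h3 := (ci_mem _ _ _ _).1 (hg.2 i hi)
    rw [ci_mem]
    set m := ci_mu j q a b I g with hm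
    have h4 : ¬ ci_P q a b m (((ci_T q a b m)⁻¹ * g) i) := by
      intro h
      apply h2 i hi
      have h5 := (ci_TP hq hab h1 h1 (((ci_T q a b m)⁻¹ * g) i)).2 h
      rwa [← Perm.mul_apply, mul_inv_cancel_left] at h5
    have h5 := ci_comm hq hab h1 h4
    rw [← Perm.mul_apply (ci_T q a b m), mul_inv_cancel_left, h3] at h5
    apply (ci_T q a b m).injective
    rw [← h5, ← Perm.mul_apply (ci_T q a b m), mul_inv_cancel_left]
  · intro g hg
    obtain ⟨h1, h2⟩ := ci_mu_spec hq hab I hI g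
    rw [ci_mu_T hq hab I g h1, inv_mul_cancel_left]
  · intro g hg
    obtain ⟨h1, h2⟩ := ci_mu_spec hq hab I hI g
    rw [ci_mu_T' hq hab I g h1, mul_inv_cancel_left]

private theorem ci_short {n j : ℕ} {q : Perm (Fin n)} (hq : NoShort q j) {a b : Fin n}
    (hab : ¬ q.SameCycle a b) : NoShort (q * Equiv.swap a b) j := by
  intro i hi1 hij x hx
  set q' := q * Equiv.swap a b with hq'
  have h1 : ((Finset.range i).image (fun k => (q' ^ k) x)).card ≤ j := by
    refine Finset.card_image_le.trans ?_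
    rw [Finset.card_range]
    exact hij
  obtain ⟨m, hm, hm'⟩ := ci_pig hq hab _ h1
  have h2 : ∀ k, k ≤ i → (q ^ k) (ci_T q a b m x) = ci_T q a b m ((q' ^ k) x) := by
    intro k
    induction k with
    | zero =>
      intro _
      rfl
    | succ k ih =>
      intro hk
      have h3 : ¬ ci_P q a b m ((q' ^ k) x) := by
        apply hm'
        exact Finset.mem_image_of_mem (fun k => (q' ^ k) x) (Finset.mem_range.2 (by omega))
      rw [pow_succ', Perm.mul_apply, ih (by omega), ci_comm hq hab hm h3, pow_succ' q']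
      rfl
  have h3 := h2 i le_rfl
  rw [hx] at h3
  exact hq i hi1 hij _ h3

private theorem ci_join {n : ℕ} {q : Perm (Fin n)} {a b : Fin n}
    (hab : ¬ q.SameCycle a b) : (q * Equiv.swap a b).SameCycle a b := by
  have hex : ∃ s, 1 ≤ s ∧ (q ^ s) a = a :=
    ⟨orderOf q, orderOf_pos q, by rw [pow_orderOf_eq_one, Perm.one_apply]⟩
  classical
  obtain ⟨hs1, hs2⟩ := Nat.find_spec hex
  have hmin : ∀ i, 1 ≤ i → i < Nat.find hex → (q ^ i) a ≠ a := fun i h1 h2 h3 =>
    Nat.find_min hex h2 ⟨h1, h3⟩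
  have h1 : ∀ i, i + 1 ≤ Nat.find hex →
      ((q * Equiv.swap a b) ^ (i + 1)) b = (q ^ (i + 1)) a := by
    intro i
    induction i with
    | zero =>
      intro _
      rw [zero_add, pow_one, pow_one, Perm.mul_apply, Equiv.swap_apply_right]
    | succ i ih =>
      intro hi
      rw [pow_succ', Perm.mul_apply, ih (by omega), Perm.mul_apply, pow_succ' q (i + 1),
        Perm.mul_apply]
      rw [Equiv.swap_apply_of_ne_of_ne (hmin (i + 1) (by omega) (by omega))]
      intro h
      exact hab ⟨((i + 1 : ℕ) : ℤ), by rw [zpow_natCast]; exact h⟩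
  have h2 := h1 (Nat.find hex - 1) (by omega)
  rw [Nat.sub_add_cancel hs1, hs2] at h2
  exact Perm.SameCycle.symm ⟨((Nat.find hex : ℕ) : ℤ), by rw [zpow_natCast]; exact h2⟩

private theorem ci_sub {n : ℕ} {q : Perm (Fin n)} {a b : Fin n}
    (hab : ¬ q.SameCycle a b) {x y : Fin n} (hxy : q.SameCycle x y) :
    (q * Equiv.swap a b).SameCycle x y := by
  have h0 := ci_join hab
  have h1 : ∀ z, (q * Equiv.swap a b).SameCycle z (q z) := by
    intro z
    have h2 : (q * Equiv.swap a b) (Equiv.swap a b z) = q z := by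
      rw [Perm.mul_apply, Equiv.swap_apply_self]
    rw [← h2, Perm.sameCycle_apply_right]
    rcases eq_or_ne z a with rfl | h3
    · rw [Equiv.swap_apply_left]
      exact h0
    · rcases eq_or_ne z b with rfl | h4
      · rw [Equiv.swap_apply_right]
        exact h0.symm
      · rw [Equiv.swap_apply_of_ne_of_ne h3 h4]
  obtain ⟨k, hk⟩ := hxy.exists_nat_pow_eq
  rw [← hk]
  clear hk
  induction k with
  | zero => rfl
  | succ k ih =>
    rw [pow_succ', Perm.mul_apply]
    exact ih.trans (h1 _)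

open Classical in
private theorem ci_full {n j : ℕ} (I : Finset (Fin n)) (hI : I.card ≤ j) (φ : Perm (Fin n)) :
    ∀ (N : ℕ) (q : Perm (Fin n)), NoShort q j →
      (univ.filter (fun p : Fin n × Fin n => ¬ q.SameCycle p.1 p.2)).card = N →
      ∃ r : Perm (Fin n), NoShort r j ∧ (∀ x y, r.SameCycle x y) ∧
        (univ.filter (fun g : Perm (Fin n) => ∀ i ∈ I, (g⁻¹ * r * g) i = φ i)).card
      = (univ.filter (fun g : Perm (Fin n) => ∀ i ∈ I, (g⁻¹ * q * g) i = φ i)).card := by
  intro N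
  induction N using Nat.strong_induction_on with
  | _ N ih =>
    intro q hq hN
    by_cases hall : ∀ x y, q.SameCycle x y
    · exact ⟨q, hq, hall, rfl⟩
    · push Not at hall
      obtain ⟨a, b, hab⟩ := hall
      have hlt : (univ.filter (fun p : Fin n × Fin n =>
          ¬ (q * Equiv.swap a b).SameCycle p.1 p.2)).card < N := by
        rw [← hN]
        apply Finset.card_lt_card
        rw [Finset.ssubset_iff_of_subset]
        · refine ⟨(a, b), ?_, ?_⟩
          · rw [Finset.mem_filter]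
            exact ⟨Finset.mem_univ _, hab⟩
          · rw [Finset.mem_filter]
            rintro ⟨_, h⟩
            exact h (ci_join hab)
        · intro p hp
          rw [Finset.mem_filter] at hp ⊢
          exact ⟨Finset.mem_univ _, fun h => hp.2 (ci_sub hab h)⟩
      obtain ⟨r, h1, h2, h3⟩ := ih _ hlt _ (ci_short hq hab) rfl
      exact ⟨r, h1, h2, h3.trans (ci_step hq hab I hI φ)⟩

private theorem ci_conj {n : ℕ} {r r' : Perm (Fin n)} (h : IsConj r r') (I : Finset (Fin n))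
    (φ : Perm (Fin n)) :
    (univ.filter (fun g : Perm (Fin n) => ∀ i ∈ I, (g⁻¹ * r * g) i = φ i)).card
      = (univ.filter (fun g : Perm (Fin n) => ∀ i ∈ I, (g⁻¹ * r' * g) i = φ i)).card := by
  obtain ⟨c, hc⟩ := isConj_iff.1 h
  refine Finset.card_bij' (fun g _ => c * g) (fun g _ => c⁻¹ * g) ?_ ?_ ?_ ?_
  · intro g hg
    rw [Finset.mem_filter] at hg ⊢
    refine ⟨Finset.mem_univ _, fun i hi => ?_⟩
    have h1 : (c * g)⁻¹ * (c * r * c⁻¹) * (c * g) = g⁻¹ * r * g := by group
    rw [← hg.2 i hi, ← hc, h1]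
  · intro g hg
    rw [Finset.mem_filter] at hg ⊢
    refine ⟨Finset.mem_univ _, fun i hi => ?_⟩
    have h1 : (c⁻¹ * g)⁻¹ * r * (c⁻¹ * g) = g⁻¹ * (c * r * c⁻¹) * g := by group
    rw [← hg.2 i hi, ← hc, h1]
  · intro g _
    exact inv_mul_cancel_left _ _
  · intro g _
    exact mul_inv_cancel_left _ _

/-- The number of `g` such that `g⁻¹ q g` agrees with `φ` on `I` does not depend on `q`, as long as
`q` has no cycle of length `≤ j` and `|I| ≤ j`. -/
theorem count_eq {n j : ℕ} (hjn : j < n) {q q' : Perm (Fin n)} (hq : NoShort q j)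
    (hq' : NoShort q' j) (I : Finset (Fin n)) (hI : I.card ≤ j) (φ : Perm (Fin n)) :
    (univ.filter (fun g : Perm (Fin n) => ∀ i ∈ I, (g⁻¹ * q * g) i = φ i)).card
      = (univ.filter (fun g : Perm (Fin n) => ∀ i ∈ I, (g⁻¹ * q' * g) i = φ i)).card := by
  rcases Nat.eq_zero_or_pos j with hj | hj
  · have hI0 : I = ∅ := Finset.card_eq_zero.1 (by omega)
    subst hI0
    simp
  · obtain ⟨r, h1, h2, h3⟩ := ci_full I hI φ _ q hq rfl
    obtain ⟨r', h1', h2', h3'⟩ := ci_full I hI φ _ q' hq' rfl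
    rw [← h3, ← h3']
    apply ci_conj
    have hcyc : ∀ s : Perm (Fin n), NoShort s j → (∀ x y, s.SameCycle x y) →
        s.IsCycle ∧ s.support = univ := by
      intro s hs1 hs2
      have hne : ∀ x, s x ≠ x := by
        intro x
        have := hs1 1 le_rfl hj x
        rwa [pow_one] at this
      refine ⟨⟨⟨0, by omega⟩, hne _, fun y _ => hs2 _ _⟩, ?_⟩
      ext x
      simp [hne x]
    obtain ⟨c1, c2⟩ := hcyc r h1 h2
    obtain ⟨c1', c2'⟩ := hcyc r' h1' h2'
    exact c1.isConj c1' (by rw [c2, c2'])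

end Pool.H60.TP
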