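import Pool.Agent.H98.BE.Main

set_option autoImplicit false

/-!
# Top scale: definitions

`QV n` is the space of functions on the symmetric group, `qrho n` the right, `qlam n` the left
regular representation, `KO q` the sum over all conjugates of `q` (with multiplicity), `HO q` the
operator `n! T2 + 2 (n - 1) (n - 2) KO q`. `Lev n j` is the span of the functions of `j` values.
-/

open Finset Equiv Pool.H98.BE
open scoped InnerProductSpace

namespace Pool.H60.TP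

section rep

variable {n : ℕ} {V : Type*} [NormedAddCommGroup V] [InnerProductSpace ℝ V]

/-- the first point of the `i`-th pair -/
def pa {n : ℕ} (i : Fin (n / 2)) : Fin n := ⟨2 * i.1, by omega⟩

/-- the second point of the `i`-th pair -/
def pb {n : ℕ} (i : Fin (n / 2)) : Fin n := ⟨2 * i.1 + 1, by omega⟩

/-- the `i`-th transposition -/
def pt {n : ℕ} (i : Fin (n / 2)) : Perm (Fin n) := Equiv.swap (pa i) (pb i)

/-- `v` has the pattern `B`: the commuting transpositions `pt i` act on it by `-1` for `i ∈ B`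
and by `1` for the other `i`. -/
def Pat (ρ : Perm (Fin n) →* (V →ₗ[ℝ] V)) (B : Finset (Fin (n / 2))) (v : V) : Prop :=
  ∀ i, ρ (pt i) v = if i ∈ B then -v else v

/-- `F` is invariant -/
def Invar (ρ : Perm (Fin n) →* (V →ₗ[ℝ] V)) (F : Submodule ℝ V) : Prop :=
  ∀ σ, ∀ w ∈ F, ρ σ w ∈ F

/-- `v` is fixed by all transpositions outside `I` -/
def Fixes (ρ : Perm (Fin n) →* (V →ₗ[ℝ] V)) (I : Finset (Fin n)) (v : V) : Prop :=
  ∀ x y, x ∉ I → y ∉ I → ρ (Equiv.swap x y) v = v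

/-- `v` is mapped to `-v` by all transpositions outside `I` -/
def SFixes (ρ : Perm (Fin n) →* (V →ₗ[ℝ] V)) (I : Finset (Fin n)) (v : V) : Prop :=
  ∀ x y, x ∉ I → y ∉ I → x ≠ y → ρ (Equiv.swap x y) v = -v

end rep

/-- the left regular representation -/
noncomputable def qlam (n : ℕ) : Perm (Fin n) →* (QV n →ₗ[ℝ] QV n) where
  toFun σ :=
    { toFun := fun f => WithLp.toLp 2 (fun t => f (σ⁻¹ * t))
      map_add' := fun f g => by
        ext t
        rfl
      map_smul' := fun c f => by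
        ext t
        rfl }
  map_one' := by
    ext f t
    change f ((1 : Perm (Fin n))⁻¹ * t) = f t
    rw [inv_one, one_mul]
  map_mul' σ τ := by
    ext f t
    change f ((σ * τ)⁻¹ * t) = f (τ⁻¹ * (σ⁻¹ * t))
    rw [mul_inv_rev, mul_assoc]

theorem qlam_apply {n : ℕ} (σ : Perm (Fin n)) (f : QV n) (t : Perm (Fin n)) :
    qlam n σ f t = f (σ⁻¹ * t) := rfl

theorem qlam_inner {n : ℕ} (σ : Perm (Fin n)) (f g : QV n) :
    ⟪qlam n σ f, qlam n σ g⟫_ℝ = ⟪f, g⟫_ℝ := by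
  rw [qinner, qinner]
  exact Equiv.sum_comp (Equiv.mulLeft σ⁻¹) fun t => f t * g t

theorem qlam_qrho {n : ℕ} (σ τ : Perm (Fin n)) (f : QV n) :
    qlam n σ (qrho n τ f) = qrho n τ (qlam n σ f) := by
  ext t
  rw [qlam_apply, qrho_apply, qrho_apply, qlam_apply, mul_assoc]

/-- multiplication by the sign -/
noncomputable def sgnm (n : ℕ) : QV n →ₗ[ℝ] QV n where
  toFun f := WithLp.toLp 2 (fun t => ((Perm.sign t : ℤ) : ℝ) * f t)
  map_add' f g := by
    ext t
    change _ * (f t + g t) = _ * f t + _ * g t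
    ring
  map_smul' c f := by
    ext t
    change _ * (c * f t) = c * (_ * f t)
    ring

theorem sgnm_apply {n : ℕ} (f : QV n) (t : Perm (Fin n)) :
    sgnm n f t = ((Perm.sign t : ℤ) : ℝ) * f t := rfl

theorem sign_sq {n : ℕ} (t : Perm (Fin n)) :
    ((Perm.sign t : ℤ) : ℝ) * ((Perm.sign t : ℤ) : ℝ) = 1 := by
  rcases Int.units_eq_one_or (Perm.sign t) with h | h <;> rw [h] <;> norm_num

theorem sgnm_sgnm {n : ℕ} (f : QV n) : sgnm n (sgnm n f) = f := by
  ext t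
  rw [sgnm_apply, sgnm_apply, ← mul_assoc, sign_sq, one_mul]

theorem sgnm_inner {n : ℕ} (f g : QV n) : ⟪sgnm n f, sgnm n g⟫_ℝ = ⟪f, g⟫_ℝ := by
  rw [qinner, qinner]
  refine Finset.sum_congr rfl fun t _ => ?_
  rw [sgnm_apply, sgnm_apply]
  linear_combination (f t * g t) * sign_sq t

theorem sgnm_symm {n : ℕ} (f g : QV n) : ⟪sgnm n f, g⟫_ℝ = ⟪f, sgnm n g⟫_ℝ := by
  rw [← sgnm_inner f (sgnm n g), sgnm_sgnm]

theorem sgnm_qrho {n : ℕ} (σ : Perm (Fin n)) (f : QV n) :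
    sgnm n (qrho n σ f) = ((Perm.sign σ : ℤ) : ℝ) • qrho n σ (sgnm n f) := by
  ext t
  change ((Perm.sign t : ℤ) : ℝ) * f (t * σ)
    = ((Perm.sign σ : ℤ) : ℝ) * (((Perm.sign (t * σ) : ℤ) : ℝ) * f (t * σ))
  rw [Perm.sign_mul]
  push_cast
  linear_combination (-((Perm.sign t : ℤ) : ℝ) * f (t * σ)) * sign_sq σ

theorem sgnm_qlam {n : ℕ} (σ : Perm (Fin n)) (f : QV n) :
    sgnm n (qlam n σ f) = ((Perm.sign σ : ℤ) : ℝ) • qlam n σ (sgnm n f) := by
  ext t
  change ((Perm.sign t : ℤ) : ℝ) * f (σ⁻¹ * t)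
    = ((Perm.sign σ : ℤ) : ℝ) * (((Perm.sign (σ⁻¹ * t) : ℤ) : ℝ) * f (σ⁻¹ * t))
  rw [Perm.sign_mul, Perm.sign_inv]
  push_cast
  linear_combination (-((Perm.sign t : ℤ) : ℝ) * f (σ⁻¹ * t)) * sign_sq σ

/-- the sum over the conjugates of `q`, each counted as often as it is a conjugate -/
noncomputable def KO {n : ℕ} (q : Perm (Fin n)) : QV n →ₗ[ℝ] QV n :=
  ∑ g : Perm (Fin n), qrho n (g⁻¹ * q * g)

theorem KO_apply {n : ℕ} (q : Perm (Fin n)) (f : QV n) :
    KO q f = ∑ g : Perm (Fin n), qrho n (g⁻¹ * q * g) f := by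
  rw [KO, LinearMap.sum_apply]

theorem KO_symm {n : ℕ} (q : Perm (Fin n)) : (KO q).IsSymmetric := by
  intro f h
  obtain ⟨c, hc⟩ : ∃ c : Perm (Fin n), c⁻¹ * q * c = q⁻¹ := by
    obtain ⟨c, hc⟩ := isConj_iff.1 (Equiv.Perm.isConj_iff_cycleType_eq.2
      (Equiv.Perm.cycleType_inv q).symm)
    exact ⟨c⁻¹, by rw [inv_inv]; exact hc⟩
  have key : ∀ σ : Perm (Fin n), ⟪qrho n σ f, h⟫_ℝ = ⟪f, qrho n σ⁻¹ h⟫_ℝ := by
    intro σ
    rw [← qrho_inner σ f (qrho n σ⁻¹ h)]
    congr 1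
    ext t
    rw [qrho_apply, qrho_apply, mul_assoc, mul_inv_cancel, mul_one]
  rw [KO_apply, KO_apply, sum_inner, inner_sum]
  rw [← Equiv.sum_comp (Equiv.mulLeft c) (fun g : Perm (Fin n) => ⟪f, qrho n (g⁻¹ * q * g) h⟫_ℝ)]
  refine Finset.sum_congr rfl fun g _ => ?_
  rw [key, Equiv.coe_mulLeft]
  have h1 : (g⁻¹ * q * g)⁻¹ = (c * g)⁻¹ * q * (c * g) := by
    have h2 : (g⁻¹ * q * g)⁻¹ = g⁻¹ * q⁻¹ * g := by group
    rw [h2, ← hc]
    group
  rw [h1]

theorem KO_qrho {n : ℕ} (q σ : Perm (Fin n)) (f : QV n) :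
    KO q (qrho n σ f) = qrho n σ (KO q f) := by
  rw [KO_apply, KO_apply, map_sum]
  rw [← Equiv.sum_comp (Equiv.mulRight σ)
    (fun g : Perm (Fin n) => qrho n σ (qrho n (g⁻¹ * q * g) f))]
  refine Finset.sum_congr rfl fun g _ => ?_
  ext t
  rw [qrho_apply, qrho_apply, qrho_apply, qrho_apply, Equiv.coe_mulRight]
  refine congrArg f ?_
  group

theorem KO_qlam {n : ℕ} (q σ : Perm (Fin n)) (f : QV n) :
    KO q (qlam n σ f) = qlam n σ (KO q f) := by
  rw [KO_apply, KO_apply, map_sum]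
  exact Finset.sum_congr rfl fun g _ => (qlam_qrho σ _ f).symm

/-- the operator of the quadratic form -/
noncomputable def HO {n : ℕ} (q : Perm (Fin n)) : QV n →ₗ[ℝ] QV n :=
  (n.factorial : ℝ) • T2 (qrho n) (univ : Finset (Fin n))
    + (2 * ((n : ℝ) - 1) * ((n : ℝ) - 2)) • KO q

theorem HO_apply {n : ℕ} (q : Perm (Fin n)) (f : QV n) :
    HO q f = (n.factorial : ℝ) • T2 (qrho n) (univ : Finset (Fin n)) f
      + (2 * ((n : ℝ) - 1) * ((n : ℝ) - 2)) • KO q f := rfl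

theorem T2_qlam {n : ℕ} (σ : Perm (Fin n)) (f : QV n) :
    T2 (qrho n) (univ : Finset (Fin n)) (qlam n σ f)
      = qlam n σ (T2 (qrho n) (univ : Finset (Fin n)) f) := by
  rw [quad_T2_apply, quad_T2_apply, map_sum]
  refine Finset.sum_congr rfl fun x _ => ?_
  rw [map_sum]
  exact Finset.sum_congr rfl fun y _ => (qlam_qrho σ _ f).symm

theorem HO_qrho {n : ℕ} (q σ : Perm (Fin n)) (f : QV n) :
    HO q (qrho n σ f) = qrho n σ (HO q f) := by
  rw [HO_apply, HO_apply, quad_T2_comm, KO_qrho, map_add, map_smul, map_smul]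

theorem HO_qlam {n : ℕ} (q σ : Perm (Fin n)) (f : QV n) :
    HO q (qlam n σ f) = qlam n σ (HO q f) := by
  rw [HO_apply, HO_apply, T2_qlam, KO_qlam, map_add, map_smul, map_smul]

theorem HO_symm {n : ℕ} (q : Perm (Fin n)) : (HO q).IsSymmetric := by
  intro f g
  have h1 := T2_symm (ρ := qrho n) qrho_inner (univ : Finset (Fin n)) f g
  have h2 := KO_symm q f g
  rw [HO_apply, HO_apply, inner_add_left, inner_add_right, inner_smul_left, inner_smul_left,
    inner_smul_right, inner_smul_right, h1, h2]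
  simp only [conj_trivial]

/-- `q` is good: the inequality for the functions of sum zero -/
def Good {n : ℕ} (q : Perm (Fin n)) : Prop :=
  ∀ f : QV n, qsum n f = 0 →
    ⟪HO q f, f⟫_ℝ ≤ (n.factorial : ℝ) * (((n : ℝ) - 1) * ((n : ℝ) - 4)) * ⟪f, f⟫_ℝ

/-- `q` has no cycle of length at most `j` (no fixed point in particular, if `1 ≤ j`) -/
def NoShort {n : ℕ} (q : Perm (Fin n)) (j : ℕ) : Prop :=
  ∀ i, 1 ≤ i → i ≤ j → ∀ x, (q ^ i) x ≠ x

/-- the span of the functions of `j` values -/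
def Lev (n j : ℕ) : Submodule ℝ (QV n) :=
  Submodule.span ℝ {f | ∃ I : Finset (Fin n), I.card = j ∧ Fixes (qrho n) I f}

/-- the functions `sign * h` with `h` in `Lev n j` -/
noncomputable def SLev (n j : ℕ) : Submodule ℝ (QV n) := (Lev n j).map (sgnm n)

/-- the number of permutations which commute with `q` -/
def cent {n : ℕ} (q : Perm (Fin n)) : ℕ :=
  ((univ : Finset (Perm (Fin n))).filter (fun g => g * q = q * g)).card

end Pool.H60.TP
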