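import Pool.Agent.H60.TP.Defs

set_option autoImplicit false

/-!
# Top scale: functions of few inverse values are sums of functions of few values
-/

open Finset Equiv Pool.H98.BE

namespace Pool.H60.TP

private theorem left_fix {n : ℕ} {I : Finset (Fin n)} {f : QV n} (hf : Fixes (qlam n) I f)
    (t : Perm (Fin n)) : ∀ (k : ℕ) (s : Perm (Fin n)), s.support.card = k → (∀ v ∈ I, s v = v) →
      f (s * t) = f t := by
  intro k
  induction k using Nat.strong_induction_on with
  | _ k ih =>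
    intro s hk hs
    by_cases h1 : ∀ x, s x = x
    · have h2 : s = 1 := Equiv.ext h1
      rw [h2, one_mul]
    · push Not at h1
      obtain ⟨x, hx⟩ := h1
      have hxI : x ∉ I := fun h => hx (hs x h)
      have hsxI : s x ∉ I := fun h => hx (s.injective (hs _ h))
      have h2 := Equiv.Perm.card_support_swap_mul hx
      have h3 := ih _ (by rw [← hk]; exact h2) (Equiv.swap x (s x) * s) rfl (fun v hv => by
        rw [Equiv.Perm.mul_apply, hs v hv]
        exact Equiv.swap_apply_of_ne_of_ne (fun h => hxI (h ▸ hv)) (fun h => hsxI (h ▸ hv)))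
      have h4 : qlam n (Equiv.swap x (s x)) f (s * t) = f (s * t) := by rw [hf x (s x) hxI hsxI]
      rw [qlam_apply, Equiv.swap_inv, ← mul_assoc] at h4
      rw [← h4]
      exact h3

private theorem left_fix' {n : ℕ} {I : Finset (Fin n)} {f : QV n} (hf : Fixes (qlam n) I f)
    (s t : Perm (Fin n)) (h : ∀ v ∈ I, t⁻¹ v = s⁻¹ v) : f s = f t := by
  have h1 := left_fix hf t _ (s * t⁻¹) rfl (fun v hv => by
    rw [Equiv.Perm.mul_apply, h v hv]
    exact s.apply_symm_apply v)
  rwa [inv_mul_cancel_right] at h1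

open Classical in
/-- the indicator of the `t` with `t⁻¹ = u⁻¹` on `I` -/
private noncomputable def ind {n : ℕ} (I : Finset (Fin n)) (u : Perm (Fin n)) : QV n :=
  WithLp.toLp 2 fun t => if ∀ v ∈ I, t⁻¹ v = u⁻¹ v then 1 else 0

open Classical in
private theorem ind_apply {n : ℕ} (I : Finset (Fin n)) (u t : Perm (Fin n)) :
    ind I u t = if ∀ v ∈ I, t⁻¹ v = u⁻¹ v then 1 else 0 := rfl

private theorem ind_mem {n j : ℕ} {I : Finset (Fin n)} (hI : I.card = j) (u : Perm (Fin n)) :
    ind I u ∈ Lev n j := by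
  classical
  refine Submodule.subset_span ⟨I.image fun v => u⁻¹ v, ?_, fun x y hx hy => ?_⟩
  · rw [Finset.card_image_of_injective _ (u⁻¹).injective, hI]
  · ext t
    rw [qrho_apply, ind_apply, ind_apply]
    have hne : ∀ v ∈ I, u⁻¹ v ≠ x ∧ u⁻¹ v ≠ y := fun v hv =>
      ⟨fun h => hx (h ▸ Finset.mem_image_of_mem _ hv), fun h => hy (h ▸ Finset.mem_image_of_mem _ hv)⟩
    have h1 : (∀ v ∈ I, (t * Equiv.swap x y)⁻¹ v = u⁻¹ v) ↔ ∀ v ∈ I, t⁻¹ v = u⁻¹ v := by
      refine forall₂_congr fun v hv => ?_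
      rw [mul_inv_rev, Equiv.swap_inv, Equiv.Perm.mul_apply]
      obtain ⟨h2, h3⟩ := hne v hv
      constructor
      · intro h
        have h4 := congrArg (Equiv.swap x y) h
        rw [Equiv.swap_apply_self, Equiv.swap_apply_of_ne_of_ne h2 h3] at h4
        exact h4
      · intro h
        rw [h, Equiv.swap_apply_of_ne_of_ne h2 h3]
    simp only [h1]

theorem left_mem_lev {n j : ℕ} {I : Finset (Fin n)} (hI : I.card = j) {f : QV n}
    (hf : Fixes (qlam n) I f) : f ∈ Lev n j := by
  classical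
  have h1 : ∑ u : Perm (Fin n), f u • ind I u ∈ Lev n j :=
    Submodule.sum_mem _ fun u _ => Submodule.smul_mem _ _ (ind_mem hI u)
  have hc : ∀ t : Perm (Fin n), (univ.filter fun u : Perm (Fin n) => ∀ v ∈ I, t⁻¹ v = u⁻¹ v).card
      = (univ.filter fun u : Perm (Fin n) => ∀ v ∈ I, u⁻¹ v = v).card := by
    intro t
    refine Finset.card_bij' (fun u _ => u * t⁻¹) (fun u _ => u * t) ?_ ?_ ?_ ?_
    · intro u hu
      rw [mem_filter] at hu ⊢
      refine ⟨mem_univ _, fun v hv => ?_⟩
      rw [mul_inv_rev, inv_inv, Equiv.Perm.mul_apply, ← hu.2 v hv]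
      exact t.apply_symm_apply v
    · intro u hu
      rw [mem_filter] at hu ⊢
      refine ⟨mem_univ _, fun v hv => ?_⟩
      rw [mul_inv_rev, Equiv.Perm.mul_apply, hu.2 v hv]
    · intro u _
      exact inv_mul_cancel_right _ _
    · intro u _
      exact mul_inv_cancel_right _ _
  have hpos : 0 < (univ.filter fun u : Perm (Fin n) => ∀ v ∈ I, u⁻¹ v = v).card :=
    Finset.card_pos.2 ⟨1, mem_filter.2 ⟨mem_univ _, fun v _ => by rw [inv_one, Equiv.Perm.one_apply]⟩⟩
  have h2 : ∑ u : Perm (Fin n), f u • ind I u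
      = ((univ.filter fun u : Perm (Fin n) => ∀ v ∈ I, u⁻¹ v = v).card : ℝ) • f := by
    ext t
    rw [WithLp.ofLp_sum, Finset.sum_apply]
    change ∑ u : Perm (Fin n), f u * ind I u t = _ * f t
    rw [← hc t, Finset.card_filter, Nat.cast_sum, Finset.sum_mul]
    refine Finset.sum_congr rfl fun u _ => ?_
    rw [ind_apply]
    by_cases h : ∀ v ∈ I, t⁻¹ v = u⁻¹ v
    · rw [if_pos h, if_pos h, left_fix' hf u t h, mul_one, Nat.cast_one, one_mul]
    · rw [if_neg h, if_neg h, mul_zero, Nat.cast_zero, zero_mul]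
  rw [h2] at h1
  have h3 := Submodule.smul_mem _ (((univ.filter fun u : Perm (Fin n) => ∀ v ∈ I, u⁻¹ v = v).card : ℝ)⁻¹) h1
  rwa [smul_smul, inv_mul_cancel₀ (by exact_mod_cast hpos.ne'), one_smul] at h3

end Pool.H60.TP
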