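import Pool.Agent.H60.TP.LemD
import Pool.Agent.H60.TP.LevLeft

set_option autoImplicit false

/-!
# Top scale: the dimension of a two-sided invariant subspace
-/

open Finset Equiv Pool.H98.BE
open scoped InnerProductSpace

namespace Pool.H60.TP

private theorem choose_half {k J i : ℕ} (h1 : J ≤ i) (h2 : i ≤ k / 2) : k.choose J ≤ k.choose i := by
  induction i, h1 using Nat.le_induction with
  | base => exact le_rfl
  | succ m hm ih =>
    exact (ih (by omega)).trans (Nat.choose_le_succ_of_lt_half_left (by omega))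

theorem choose_mid {k J i : ℕ} (h1 : J ≤ i) (h2 : i + J ≤ k) : k.choose J ≤ k.choose i := by
  rcases Nat.lt_or_ge (k / 2) i with h | h
  rotate_left
  · exact choose_half h1 h
  · rw [← Nat.choose_symm (show i ≤ k by omega)]
    exact choose_half (by omega) (by omega)

private theorem dim_zero {n : ℕ} {K : Submodule ℝ (QV n)} {v : QV n} (h1 : v ∈ K) (h2 : v ∈ Kᗮ) : v = 0 :=
  inner_self_eq_zero.1 ((Submodule.mem_orthogonal K v).1 h2 v h1)

/-- a vector of sign type is `sgnm` of a fixed vector -/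
private theorem dim_sfix {n : ℕ} {ρ : Perm (Fin n) →* (QV n →ₗ[ℝ] QV n)}
    (hs : ∀ (σ : Perm (Fin n)) (f : QV n), sgnm n (ρ σ f) = ((Perm.sign σ : ℤ) : ℝ) • ρ σ (sgnm n f))
    {I : Finset (Fin n)} {v : QV n} (h : SFixes ρ I v) : Fixes ρ I (sgnm n v) := by
  intro x y hx hy
  by_cases hxy : x = y
  · subst hxy
    rw [Equiv.swap_self]
    change ρ 1 (sgnm n v) = sgnm n v
    rw [map_one]
    rfl
  · have h1 := hs (Equiv.swap x y) v
    rw [h x y hx hy hxy, Perm.sign_swap hxy, map_neg] at h1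
    simp only [Units.val_neg, Units.val_one, Int.cast_neg, Int.cast_one, neg_smul, one_smul, neg_inj] at h1
    exact h1.symm

private theorem dim_lev {n j : ℕ} {I : Finset (Fin n)} (hI : I.card = j) {f : QV n} (hf : Fixes (qrho n) I f) :
    f ∈ Lev n j := Submodule.subset_span ⟨I, hI, hf⟩

private theorem dim_slev {n j : ℕ} {v : QV n} (h : sgnm n v ∈ Lev n j) : v ∈ SLev n j :=
  ⟨sgnm n v, h, sgnm_sgnm v⟩

private theorem pat_neg {n : ℕ} {ρ ρ' : Perm (Fin n) →* (QV n →ₗ[ℝ] QV n)}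
    (hc : ∀ (σ τ : Perm (Fin n)) (f : QV n), ρ σ (ρ' τ f) = ρ' τ (ρ σ f)) {B : Finset (Fin (n / 2))} {v : QV n}
    (h : Pat ρ B v) (τ : Perm (Fin n)) : Pat ρ B (ρ' τ v) := by
  intro i
  rw [hc, h i]
  by_cases hi : i ∈ B
  · rw [if_pos hi, if_pos hi, map_neg]
  · rw [if_neg hi, if_neg hi]

private theorem dim_ne {n : ℕ} {ρ : Perm (Fin n) →* (QV n →ₗ[ℝ] QV n)}
    (hρ : ∀ (σ : Perm (Fin n)) (u v : QV n), ⟪ρ σ u, ρ σ v⟫_ℝ = ⟪u, v⟫_ℝ) {v : QV n} (h : v ≠ 0) (σ : Perm (Fin n)) :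
    ρ σ v ≠ 0 := by
  intro h0
  have h1 := hρ σ v v
  rw [h0, inner_zero_left] at h1
  exact h (inner_self_eq_zero.1 h1.symm)

/-- the vectors of `W` with the pattern `A` -/
private noncomputable def WA {n : ℕ} (W : Submodule ℝ (QV n)) (A : Finset (Fin (n / 2))) : Submodule ℝ (QV n) where
  carrier := {w | w ∈ W ∧ Pat (qrho n) A w}
  add_mem' := by
    rintro u v ⟨hu, hu'⟩ ⟨hv, hv'⟩
    refine ⟨W.add_mem hu hv, fun i => ?_⟩
    rw [map_add, hu' i, hv' i]
    by_cases hi : i ∈ A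
    · rw [if_pos hi, if_pos hi, if_pos hi, neg_add]
    · rw [if_neg hi, if_neg hi, if_neg hi]
  zero_mem' := by
    refine ⟨W.zero_mem, fun i => ?_⟩
    rw [map_zero, neg_zero, ite_self]
  smul_mem' := by
    rintro c u ⟨hu, hu'⟩
    refine ⟨W.smul_mem c hu, fun i => ?_⟩
    rw [map_smul, hu' i]
    by_cases hi : i ∈ A
    · rw [if_pos hi, if_pos hi, smul_neg]
    · rw [if_neg hi, if_neg hi]

theorem dim_bound {n J : ℕ} (hJ : 1 ≤ J) (hk : 2 * J + 1 ≤ n / 2) {W : Submodule ℝ (QV n)}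
    (hne : W ≠ ⊥) (hr : Invar (qrho n) W) (hl : Invar (qlam n) W)
    (h1 : W ≤ (Lev n (2 * J - 2))ᗮ) (h2 : W ≤ (SLev n (2 * J - 2))ᗮ) :
    ((n / 2).choose J) ^ 2 ≤ Module.finrank ℝ W := by
  classical
  obtain ⟨A, hA1, hA2, v, hv, hv0, hvA⟩ := lemD (ρ := qrho n) qrho_inner hr hne hJ hk
    (fun I hI v hv hf => dim_zero (dim_lev hI hf) (h1 hv))
    (fun I hI v hv hf => dim_zero (dim_slev (dim_lev hI (dim_sfix sgnm_qrho hf))) (h2 hv))
  have hWA : Invar (qlam n) (WA W A) := fun σ w hw => ⟨hl σ w hw.1, pat_neg (fun s t f => (qlam_qrho t s f).symm) hw.2 σ⟩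
  have hWne : WA W A ≠ ⊥ := by
    intro h
    have h3 : v ∈ WA W A := ⟨hv, hvA⟩
    rw [h] at h3
    exact hv0 ((Submodule.mem_bot ℝ).1 h3)
  obtain ⟨B, hB1, hB2, w, hw, hw0, hwB⟩ := lemD (ρ := qlam n) qlam_inner hWA hWne hJ hk
    (fun I hI v hv hf => dim_zero (left_mem_lev hI hf) (h1 hv.1))
    (fun I hI v hv hf => dim_zero (dim_slev (left_mem_lev hI (dim_sfix sgnm_qlam hf))) (h2 hv.1))
  have hcA : ∀ A' : {x // x ∈ powersetCard A.card (univ : Finset (Fin (n / 2)))}, A.card = A'.1.card :=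
    fun A' => (mem_powersetCard.1 A'.2).2.symm
  have hcB : ∀ B' : {x // x ∈ powersetCard B.card (univ : Finset (Fin (n / 2)))}, B.card = B'.1.card :=
    fun B' => (mem_powersetCard.1 B'.2).2.symm
  choose pr hpr using fun A' : {x // x ∈ powersetCard A.card (univ : Finset (Fin (n / 2)))} => pat_move (qrho n) (hcA A')
  choose pl hpl using fun B' : {x // x ∈ powersetCard B.card (univ : Finset (Fin (n / 2)))} => pat_move (qlam n) (hcB B')
  let u : {x // x ∈ powersetCard A.card (univ : Finset (Fin (n / 2)))} ×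
      {x // x ∈ powersetCard B.card (univ : Finset (Fin (n / 2)))} → QV n :=
    fun p => qrho n (pr p.1) (qlam n (pl p.2) w)
  have huW : ∀ p, u p ∈ W := fun p => hr _ _ (hl _ _ hw.1)
  have hu0 : ∀ p, u p ≠ 0 := fun p => dim_ne qrho_inner (dim_ne qlam_inner hw0 _) _
  have huA : ∀ p, Pat (qrho n) p.1.1 (u p) := fun p =>
    hpr p.1 _ (pat_neg (fun s t f => (qlam_qrho t s f).symm) hw.2 _)
  have huB : ∀ p, Pat (qlam n) p.2.1 (u p) := fun p =>
    pat_neg (fun s t f => qlam_qrho s t f) (hpl p.2 _ hwB) _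
  have horth : ∀ p q, p ≠ q → ⟪u p, u q⟫_ℝ = 0 := by
    intro p q hpq
    by_cases h3 : p.1.1 = q.1.1
    · have h4 : p.2.1 ≠ q.2.1 := fun h5 => hpq (Prod.ext (Subtype.ext h3) (Subtype.ext h5))
      exact pat_orth (ρ := qlam n) qlam_inner h4 (huB p) (huB q)
    · exact pat_orth (ρ := qrho n) qrho_inner h3 (huA p) (huA q)
  have hli : LinearIndependent ℝ (fun p => (⟨u p, huW p⟩ : W)) := by
    refine linearIndependent_of_ne_zero_of_inner_eq_zero (𝕜 := ℝ) (fun p h3 => hu0 p ?_) (fun p q hpq => ?_)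
    · exact congrArg Subtype.val h3
    · change ⟪(⟨u p, huW p⟩ : W), (⟨u q, huW q⟩ : W)⟫_ℝ = 0
      rw [Submodule.coe_inner]
      exact horth p q hpq
  have hcard := hli.fintype_card_le_finrank
  rw [Fintype.card_prod, Fintype.card_coe, Fintype.card_coe, card_powersetCard, card_powersetCard, card_univ,
    Fintype.card_fin] at hcard
  refine le_trans ?_ hcard
  rw [pow_two]
  exact Nat.mul_le_mul (choose_mid hA1 hA2) (choose_mid hB1 hB2)

end Pool.H60.TP
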