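import Mathlib

set_option autoImplicit false

/-!
# Top scale: numbers
-/

open Finset

namespace Pool.H60.TP

private theorem Num_pow_le {k J : ℕ} (hJk : J ≤ k) : k ^ J ≤ J ^ J * k.choose J := by
  have h1 : k ^ J * J.factorial ≤ J ^ J * k.descFactorial J := by
    rw [← Nat.descFactorial_self J, Nat.descFactorial_eq_prod_range,
      Nat.descFactorial_eq_prod_range, ← card_range J, ← prod_const, ← prod_const,
      card_range, ← prod_mul_distrib, ← prod_mul_distrib]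
    refine prod_le_prod' fun i hi => ?_
    have hi' := mem_range.1 hi
    obtain ⟨a, rfl⟩ : ∃ a, J = i + a := ⟨J - i, by omega⟩
    obtain ⟨b, rfl⟩ : ∃ b, k = i + a + b := ⟨k - (i + a), by omega⟩
    have e1 : i + a - i = a := by omega
    have e2 : i + a + b - i = a + b := by omega
    rw [e1, e2]
    nlinarith [Nat.zero_le (i * b)]
  rw [Nat.descFactorial_eq_factorial_mul_choose] at h1
  have h2 : k ^ J * J.factorial ≤ J ^ J * k.choose J * J.factorial := by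
    calc k ^ J * J.factorial ≤ J ^ J * (J.factorial * k.choose J) := h1
      _ = _ := by ring
  exact Nat.le_of_mul_le_mul_right h2 (Nat.factorial_pos J)

theorem num_choose {n m : ℕ} (h : 4 * (m + 4) ^ 2 + 2 ≤ n) :
    n ^ m * ((n - 1) ^ 2 * (n - 2) ^ 2) ≤ 4 * ((n / 2).choose (m + 4)) ^ 2 := by
  have h0 : n ^ m * ((n - 1) ^ 2 * (n - 2) ^ 2) ≤ n ^ (m + 4) := by
    rw [pow_add]
    refine Nat.mul_le_mul_left _ ?_
    have h1 : (n - 1) ^ 2 ≤ n ^ 2 := Nat.pow_le_pow_left (by omega) 2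
    have h2 : (n - 2) ^ 2 ≤ n ^ 2 := Nat.pow_le_pow_left (by omega) 2
    calc (n - 1) ^ 2 * (n - 2) ^ 2 ≤ n ^ 2 * n ^ 2 := Nat.mul_le_mul h1 h2
      _ = n ^ 4 := by ring
  refine h0.trans ?_
  obtain ⟨J, hJ⟩ : ∃ J, J = m + 4 := ⟨_, rfl⟩
  obtain ⟨k, hk⟩ : ∃ k, k = n / 2 := ⟨_, rfl⟩
  rw [← hJ, ← hk]
  rw [← hJ] at h
  have hJ4 : 4 ≤ J := by omega
  have hkn : n ≤ 2 * k + 1 := by omega
  have hJk : J ≤ k := by nlinarith
  have hJpos : 0 < J ^ (2 * J) := pow_pos (by omega) _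
  have h1 : n * J ^ 2 ≤ k ^ 2 := by
    have h2 : 2 * J ^ 2 ≤ k := by omega
    have h3 : n ≤ 2 * k + 1 := hkn
    -- n J² ≤ (2k+1) J², but k ≥ 2J² + 1 or so
    rcases Nat.even_or_odd' n with ⟨c, hc | hc⟩
    · have hkc : k = c := by omega
      subst hkc
      rw [hc]
      nlinarith
    · have hkc : k = c := by omega
      subst hkc
      have h4 : 2 * J ^ 2 + 1 ≤ k := by omega
      rw [hc]
      nlinarith
  have h2 : n ^ J * J ^ (2 * J) ≤ k ^ (2 * J) := by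
    have := Nat.pow_le_pow_left h1 J
    rw [mul_pow, ← pow_mul, ← pow_mul] at this
    exact this
  have h3 : k ^ (2 * J) ≤ J ^ (2 * J) * (k.choose J) ^ 2 := by
    have := Nat.pow_le_pow_left (Num_pow_le hJk) 2
    rw [mul_pow, ← pow_mul, ← pow_mul, mul_comm J 2] at this
    exact this
  have h4 : n ^ J * J ^ (2 * J) ≤ (k.choose J) ^ 2 * J ^ (2 * J) := by
    rw [mul_comm ((k.choose J) ^ 2)]
    exact h2.trans h3
  have h5 := Nat.le_of_mul_le_mul_right h4 hJpos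
  omega

theorem num_half {n m : ℕ} (h : 4 * (m + 4) ^ 2 + 2 ≤ n) :
    2 * (m + 4) + 1 ≤ n / 2 ∧ 2 * (2 * (m + 4) - 2) ≤ n / 2 := by
  constructor
  · rw [Nat.le_div_iff_mul_le (by norm_num)]
    nlinarith
  · rw [Nat.le_div_iff_mul_le (by norm_num)]
    have : 2 * (2 * (m + 4) - 2) * 2 ≤ 8 * (m + 4) := by omega
    nlinarith

theorem num_prime {m p : ℕ} (hm : 1 ≤ m) (h : 4 * (m + 4) ^ 2 + 2 ≤ m * p) :
    m < p ∧ 2 * (m + 4) - 2 ≤ p - 1 := by
  have h1 : 2 * m + 7 ≤ p := by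
    by_contra hlt
    push Not at hlt
    have h2 : m * p ≤ m * (2 * m + 6) := Nat.mul_le_mul_left _ (by omega)
    nlinarith
  omega

end Pool.H60.TP
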