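import Pool.Agent.H60.TP.Beta
import Pool.Agent.H60.TP.Defs

set_option autoImplicit false

/-!
# Top scale: the Latin square of order `m p`
-/

open Finset Equiv Pool.H98.BE

namespace Pool.H60.TP

/-- the rows on `ZMod m × ZMod p` -/
private def rw_R {m p : ℕ} (β : ZMod m → ZMod p) (a : ZMod m × ZMod p) : Perm (ZMod m × ZMod p) where
  toFun x := (x.1 + a.1, x.2 + β x.1 * a.2 + ((a.1.val : ℕ) : ZMod p))
  invFun x := (x.1 - a.1, x.2 - ((a.1.val : ℕ) : ZMod p) - β (x.1 - a.1) * a.2)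
  left_inv x := by
    ext
    · simp
    · simp only [add_sub_cancel_right]
  right_inv x := by
    ext
    · simp
    · simp only [sub_add_cancel]

private theorem rw_q {m p : ℕ} (β : ZMod m → ZMod p) (a b x : ZMod m × ZMod p) :
    ((rw_R β a)⁻¹ * rw_R β b) x = (x.1 + b.1 - a.1,
      x.2 + β x.1 * b.2 + ((b.1.val : ℕ) : ZMod p) - ((a.1.val : ℕ) : ZMod p)
        - β (x.1 + b.1 - a.1) * a.2) := rfl

private theorem rw_pow {m p : ℕ} (β : ZMod m → ZMod p) (a b x : ZMod m × ZMod p) (t : ℕ) :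
    (((rw_R β a)⁻¹ * rw_R β b) ^ t) x = (x.1 + t • (b.1 - a.1),
      x.2 + (∑ s ∈ range t, β (x.1 + s • (b.1 - a.1))) * b.2
        - (∑ s ∈ range t, β (x.1 + (b.1 - a.1) + s • (b.1 - a.1))) * a.2
        + (t : ZMod p) * (((b.1.val : ℕ) : ZMod p) - ((a.1.val : ℕ) : ZMod p))) := by
  induction t with
  | zero => simp
  | succ t ih =>
    rw [pow_succ', Perm.mul_apply, ih, rw_q]
    ext
    · simp only [succ_nsmul]
      ring
    · simp only [sum_range_succ, Nat.cast_add, Nat.cast_one]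
      have h1 : x.1 + t • (b.1 - a.1) + b.1 - a.1 = x.1 + (b.1 - a.1) + t • (b.1 - a.1) := by ring
      rw [h1]
      ring

private theorem rw_sum {m p : ℕ} {β : ZMod m → ZMod p} {d : ZMod m}
    (hd : ∀ l, ∑ s ∈ range (addOrderOf d), β (l + s • d) = 0) (l : ZMod m) {t : ℕ}
    (ht : t • d = 0) : ∑ s ∈ range t, β (l + s • d) = 0 := by
  obtain ⟨u, rfl⟩ := addOrderOf_dvd_of_nsmul_eq_zero ht
  clear ht
  induction u with
  | zero => simp
  | succ u ih =>
    rw [Nat.mul_succ, sum_range_add, ih, zero_add, ← hd (l + (addOrderOf d * u) • d)]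
    refine sum_congr rfl fun s _ => ?_
    rw [add_nsmul, add_assoc]

private theorem rw_key {m p : ℕ} (hm : 1 ≤ m) (hp : p.Prime) (hmp : m < p) {β : ZMod m → ZMod p}
    (h0 : ∀ l, β l ≠ 0)
    (hβ : ∀ d : ZMod m, d ≠ 0 → ∀ l, ∑ s ∈ range (addOrderOf d), β (l + s • d) = 0)
    {a b : ZMod m × ZMod p} (hab : a ≠ b) (x : ZMod m × ZMod p) :
    ∃ e : ZMod p, e ≠ 0 ∧ ∀ t : ℕ, t • (b.1 - a.1) = 0 →
      (((rw_R β a)⁻¹ * rw_R β b) ^ t) x = (x.1, x.2 + t * e) := by
  have : Fact p.Prime := ⟨hp⟩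
  have : NeZero m := ⟨by omega⟩
  by_cases hd : b.1 - a.1 = 0
  · have h1 : b.1 = a.1 := sub_eq_zero.1 hd
    have h2 : b.2 - a.2 ≠ 0 := by
      intro h
      exact hab (Prod.ext h1.symm (sub_eq_zero.1 h).symm)
    refine ⟨β x.1 * (b.2 - a.2), mul_ne_zero (h0 _) h2, fun t ht => ?_⟩
    rw [rw_pow, hd, h1]
    simp only [smul_zero, add_zero, sum_const, card_range, nsmul_eq_mul, sub_self, mul_zero]
    ext
    · rfl
    · simp only
      ring
  · refine ⟨((b.1.val : ℕ) : ZMod p) - ((a.1.val : ℕ) : ZMod p), ?_, fun t ht => ?_⟩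
    · intro h
      apply hd
      have h1 : ((b.1.val : ℕ) : ZMod p) = ((a.1.val : ℕ) : ZMod p) := sub_eq_zero.1 h
      have h2 := ZMod.val_lt b.1
      have h3 := ZMod.val_lt a.1
      rw [ZMod.natCast_eq_natCast_iff', Nat.mod_eq_of_lt (by omega), Nat.mod_eq_of_lt (by omega)]
        at h1
      rw [ZMod.val_injective m h1, sub_self]
    · rw [rw_pow, rw_sum (hβ _ hd) x.1 ht, rw_sum (hβ _ hd) (x.1 + (b.1 - a.1)) ht, ht]
      ext
      · simp
      · simp

/-- Quotients of two different rows: no power `q ^ t`, `0 < t < p`, has a fixed point, and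
`q ^ (m p) = 1`. -/
theorem exists_rows {m p : ℕ} (hm : 1 ≤ m) (hp : p.Prime) (hmp : m < p) :
    ∃ R : Fin (m * p) → Perm (Fin (m * p)), ∀ a b, a ≠ b →
      NoShort ((R a)⁻¹ * R b) (p - 1) ∧ ((R a)⁻¹ * R b) ^ (m * p) = 1 := by
  have : Fact p.Prime := ⟨hp⟩
  have : NeZero m := ⟨by omega⟩
  obtain ⟨β, h0, hβ⟩ := exists_beta hm hp hmp
  have hcard : Fintype.card (ZMod m × ZMod p) = m * p := by
    rw [Fintype.card_prod, ZMod.card, ZMod.card]
  let e : ZMod m × ZMod p ≃ Fin (m * p) := Fintype.equivFinOfCardEq hcard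
  let φ : Perm (ZMod m × ZMod p) ≃* Perm (Fin (m * p)) := e.permCongrHom
  have hφ : ∀ (σ : Perm (ZMod m × ZMod p)) (x : Fin (m * p)), φ σ x = e (σ (e.symm x)) :=
    fun σ x => rfl
  refine ⟨fun a => φ (rw_R β (e.symm a)), fun a b hab => ?_⟩
  have hab' : e.symm a ≠ e.symm b := fun h => hab (e.symm.injective h)
  have hq : (φ (rw_R β (e.symm a)))⁻¹ * φ (rw_R β (e.symm b)) =
      φ ((rw_R β (e.symm a))⁻¹ * rw_R β (e.symm b)) := by
    rw [map_mul, map_inv]
  rw [hq]
  constructor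
  · intro t ht1 ht2 x hx
    rw [← map_pow, hφ] at hx
    have hx' : (((rw_R β (e.symm a))⁻¹ * rw_R β (e.symm b)) ^ t) (e.symm x) = e.symm x := by
      exact (Equiv.eq_symm_apply e).2 hx
    obtain ⟨c, hc, hct⟩ := rw_key hm hp hmp h0 hβ hab' (e.symm x)
    have h1 : t • ((e.symm b).1 - (e.symm a).1) = 0 := by
      have h2 := congrArg Prod.fst hx'
      rw [rw_pow] at h2
      exact left_eq_add.1 h2.symm
    have h2 := hct t h1
    rw [hx'] at h2
    have h3 : (t : ZMod p) * c = 0 := left_eq_add.1 (congrArg Prod.snd h2)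
    have h4 : (t : ZMod p) = 0 := (mul_eq_zero.1 h3).resolve_right hc
    rw [ZMod.natCast_eq_zero_iff] at h4
    have h5 := Nat.le_of_dvd (by omega) h4
    have h6 := hp.two_le
    omega
  · rw [← map_pow]
    have h1 : ((rw_R β (e.symm a))⁻¹ * rw_R β (e.symm b)) ^ (m * p) = 1 := by
      refine Equiv.ext fun x => ?_
      obtain ⟨c, hc, hct⟩ := rw_key hm hp hmp h0 hβ hab' x
      rw [hct (m * p)]
      · ext
        · rfl
        · simp
      · have h2 : ∀ d : ZMod m, (m * p) • d = 0 := by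
          intro d
          rw [nsmul_eq_mul]
          simp
        exact h2 _
    rw [h1, map_one]

end Pool.H60.TP
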