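import Pool.Agent.H60.TP.GoodOf
import Pool.Agent.H60.TP.Rows
import Pool.Agent.H60.TP.Cent
import Pool.Agent.H60.TP.Num
import Pool.Agent.H60.TP.Main2

set_option autoImplicit false

/-!
# Top scale: the theorem for `n = m p`
-/

open Finset Equiv Pool.H60.Transp Pool.H98.BE

namespace Pool.H60.TP

/-- the sign condition of `good_of` -/
theorem sign_cond {n : ℕ} (hn : 1 ≤ n) {q : Perm (Fin n)} (h : q ^ n = 1) :
    Perm.sign q = 1 ∨ Perm.sign q = (-1) ^ (n - 1) := by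
  rcases Nat.even_or_odd n with he | ho
  · rcases Int.units_eq_one_or (Perm.sign q) with hs | hs
    · exact Or.inl hs
    · right
      rw [hs, (Nat.Even.sub_odd hn he odd_one).neg_one_pow]
  · left
    have h3 := congrArg Perm.sign h
    rw [map_pow, map_one] at h3
    rcases Int.units_eq_one_or (Perm.sign q) with hs | hs
    · exact hs
    · rw [hs, ho.neg_one_pow] at h3
      exact absurd h3 (by decide)

theorem exists_good_rows_J {m p J : ℕ} (hm : 1 ≤ m) (hp : p.Prime) (hmp : m < p) (hJ : 2 ≤ J)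
    (hj : 2 * (2 * J - 2) ≤ m * p / 2) (hk : 2 * J + 1 ≤ m * p / 2) (hsh : 2 * J - 2 ≤ p - 1)
    (h : (m * p) ^ m * ((m * p - 1) ^ 2 * (m * p - 2) ^ 2) ≤ 4 * ((m * p / 2).choose J) ^ 2) :
    ∃ R : Fin (m * p) → Perm (Fin (m * p)), ∀ a b, a ≠ b → Good ((R a)⁻¹ * R b) := by
  obtain ⟨R, hR⟩ := exists_rows hm hp hmp
  refine ⟨R, fun a b hab => ?_⟩
  obtain ⟨h1, h2⟩ := hR a b hab
  exact good_of hJ hk hj (fun i hi1 hi2 => h1 i hi1 (hi2.trans hsh))
    (sign_cond (by nlinarith [hp.one_le]) h2)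
    ((Nat.mul_le_mul_right _ (cent_le hp.one_le h1)).trans h)

theorem exists_good_rows {m p : ℕ} (hm : 1 ≤ m) (hp : p.Prime)
    (h : 4 * (m + 4) ^ 2 + 2 ≤ m * p) :
    ∃ R : Fin (m * p) → Perm (Fin (m * p)), ∀ a b, a ≠ b → Good ((R a)⁻¹ * R b) := by
  obtain ⟨hmp, hsh⟩ := num_prime hm h
  obtain ⟨hk, hj⟩ := num_half h
  exact exists_good_rows_J hm hp hmp (J := m + 4) (by omega) hj hk hsh (num_choose h)

theorem bd_lex_le_mul {m p : ℕ} (hm : 1 ≤ m) (hp : p.Prime)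
    (h : 4 * (m + 4) ^ 2 + 2 ≤ m * p) (A : Finset (Perm (Fin (m * p))))
    (hA : (m * p - 2).factorial ∣ A.card) : bd (lexInit (m * p) A.card) ≤ bd A := by
  obtain ⟨R, hR⟩ := exists_good_rows hm hp h
  exact bd_lex_le_good (by nlinarith) R hR A hA

end Pool.H60.TP
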