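import Pool.Agent.H60.TP.Gap2

set_option autoImplicit false

/-!
# Top scale: the transpositions on the functions orthogonal to the functions of two values
-/

open Finset Equiv Pool.H98.BE
open scoped InnerProductSpace

namespace Pool.H60.TP

variable {n : ℕ} {V : Type*} [NormedAddCommGroup V] [InnerProductSpace ℝ V]
  [FiniteDimensional ℝ V] {ρ : Perm (Fin n) →* (V →ₗ[ℝ] V)}

private theorem Gap_sum (S : Finset (Fin n)) (w : V) :
    ∑ p ∈ S, T2 ρ (S.erase p) w = ((S.card : ℝ) - 2) • T2 ρ S w := by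
  have h1 : ∀ p ∈ S, T2 ρ (S.erase p) w = T2 ρ S w - (2 : ℝ) • J ρ S p w := by
    intro p hp
    rw [T2_erase hp w]
    abel
  have h2 : ∑ p ∈ S, J ρ S p w = T2 ρ S w := by
    rw [T2, LinearMap.sum_apply]
  rw [Finset.sum_congr rfl h1, Finset.sum_sub_distrib, ← Finset.smul_sum, Finset.sum_const,
    ← Nat.cast_smul_eq_nsmul ℝ, h2, sub_smul]

omit [FiniteDimensional ℝ V] in
private theorem Gap_le {S : Finset (Fin n)} {p : Fin n} (hp : p ∈ S) :
    A1 ρ (S.erase p) ≤ A2 ρ S := by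
  refine Submodule.span_mono ?_
  rintro v ⟨q, hq, hv⟩
  rw [Finset.mem_erase] at hq
  exact ⟨p, hp, q, hq.2, hq.1.symm, hv⟩

omit [FiniteDimensional ℝ V] in
private theorem Gap_base {S : Finset (Fin n)} (hS : S.card = 2) : A1 ρ S = ⊤ := by
  rw [eq_top_iff]
  intro v _
  obtain ⟨p, hp⟩ : S.Nonempty := Finset.card_pos.1 (by omega)
  refine Submodule.subset_span ⟨p, hp, ?_⟩
  intro x hx y hy
  have hc : (S.erase p).card = 1 := by rw [Finset.card_erase_of_mem hp, hS]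
  obtain ⟨a, ha⟩ := Finset.card_eq_one.1 hc
  rw [ha, Finset.mem_singleton] at hx hy
  rw [hx, hy, Equiv.swap_self]
  change ρ 1 v = v
  rw [map_one]
  rfl

/-- `P_N` (first part) and `Q_N` (second part) -/
theorem gap_aux (hρ : ∀ (σ : Perm (Fin n)) (u v : V), ⟪ρ σ u, ρ σ v⟫_ℝ = ⟪u, v⟫_ℝ) :
    ∀ (N : ℕ) (S : Finset (Fin n)), S.card = N → 2 ≤ N →
      (∀ w : V, w ∈ (A1 ρ S)ᗮ →
        ⟪T2 ρ S w, w⟫_ℝ ≤ ((N : ℝ) - 1) * ((N : ℝ) - 4) * ⟪w, w⟫_ℝ) ∧
      (3 ≤ N → ∀ w : V, w ∈ (A2 ρ S)ᗮ →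
        ⟪T2 ρ S w, w⟫_ℝ ≤ (N : ℝ) * ((N : ℝ) - 5) * ⟪w, w⟫_ℝ) := by
  intro N
  induction N with
  | zero =>
    intro S _ h
    omega
  | succ N ih =>
    intro S hS hN
    have hcast : ((N + 1 : ℕ) : ℝ) = (N : ℝ) + 1 := by push_cast; ring
    by_cases h2 : N = 1
    · refine ⟨?_, fun h => by omega⟩
      intro w hw
      rw [Gap_base (by omega), Submodule.top_orthogonal_eq_bot, Submodule.mem_bot] at hw
      rw [hw, map_zero, inner_zero_left, mul_zero]
    · have hQ : ∀ w : V, w ∈ (A2 ρ S)ᗮ →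
          ⟪T2 ρ S w, w⟫_ℝ ≤ ((N + 1 : ℕ) : ℝ) * (((N + 1 : ℕ) : ℝ) - 5) * ⟪w, w⟫_ℝ := by
        intro w hw
        have h3 : ∀ p ∈ S, ⟪T2 ρ (S.erase p) w, w⟫_ℝ
            ≤ ((N : ℝ) - 1) * ((N : ℝ) - 4) * ⟪w, w⟫_ℝ := by
          intro p hp
          refine (ih (S.erase p) (by rw [Finset.card_erase_of_mem hp, hS]; omega)
            (by omega)).1 w ?_
          exact Submodule.orthogonal_le (Gap_le hp) hw
        have h4 := Finset.sum_le_sum h3
        rw [← sum_inner, Gap_sum, real_inner_smul_left, Finset.sum_const, nsmul_eq_mul, hS,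
          hcast] at h4
        rw [hcast]
        have h5 : (0 : ℝ) < (N : ℝ) - 1 := by
          have : (2 : ℝ) ≤ (N : ℝ) := by exact_mod_cast (by omega : 2 ≤ N)
          linarith
        refine le_of_mul_le_mul_left (a := (N : ℝ) - 1) ?_ h5
        linarith
      refine ⟨?_, fun _ => hQ⟩
      intro w hw
      obtain ⟨a, ha, b, hb, hab⟩ := (A2 ρ S).exists_add_mem_mem_orthogonal w
      have hb1 : b ∈ (A1 ρ S)ᗮ := Submodule.orthogonal_le (A1_le_A2 (by omega)) hb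
      have ha1 : a ∈ (A1 ρ S)ᗮ := by
        have h6 : a = w - b := by rw [hab]; abel
        rw [h6]
        exact Submodule.sub_mem _ hw hb1
      have e1 := level_two hρ (by omega) ha ha1
      have e2 := hQ b hb
      have e3 : ⟪T2 ρ S a, b⟫_ℝ = 0 :=
        Submodule.inner_right_of_mem_orthogonal (T2_mem_A2 ha) hb
      have e4 : ⟪T2 ρ S b, a⟫_ℝ = 0 := by
        rw [T2_symm hρ S b a, real_inner_comm]
        exact e3
      have e5 : ⟪a, b⟫_ℝ = 0 := Submodule.inner_right_of_mem_orthogonal ha hb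
      have e6 : ⟪b, a⟫_ℝ = 0 := by
        rw [real_inner_comm]
        exact e5
      have e7 : ⟪T2 ρ S w, w⟫_ℝ = ⟪T2 ρ S a, a⟫_ℝ + ⟪T2 ρ S b, b⟫_ℝ := by
        rw [hab, map_add, inner_add_left, inner_add_right, inner_add_right, e3, e4]
        ring
      have e8 : ⟪w, w⟫_ℝ = ⟪a, a⟫_ℝ + ⟪b, b⟫_ℝ := by
        rw [hab, inner_add_left, inner_add_right, inner_add_right, e5, e6]
        ring
      have e9 : 0 ≤ ⟪b, b⟫_ℝ := real_inner_self_nonneg
      rw [hS] at e1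
      rw [e7, e8, hcast]
      rw [hcast] at e1 e2
      linarith

theorem gap {n : ℕ} (hn : 3 ≤ n) {f : QV n} (hf : f ∈ (Lev n 2)ᗮ) :
    ⟪T2 (qrho n) (univ : Finset (Fin n)) f, f⟫_ℝ ≤ (n : ℝ) * ((n : ℝ) - 5) * ⟪f, f⟫_ℝ := by
  have h1 : A2 (qrho n) (univ : Finset (Fin n)) ≤ Lev n 2 := by
    refine Submodule.span_mono ?_
    rintro v ⟨p, _, q, _, hpq, hv⟩
    refine ⟨{p, q}, Finset.card_pair hpq, ?_⟩
    have h2 : ∀ x : Fin n, x ∉ ({p, q} : Finset (Fin n)) →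
        x ∈ ((univ : Finset (Fin n)).erase p).erase q := by
      intro x hx
      rw [Finset.mem_insert, Finset.mem_singleton, not_or] at hx
      exact Finset.mem_erase.2 ⟨hx.2, Finset.mem_erase.2 ⟨hx.1, Finset.mem_univ x⟩⟩
    intro x y hx hy
    exact hv x (h2 x hx) y (h2 y hy)
  exact (gap_aux (V := QV n) (ρ := qrho n) qrho_inner n univ
    (by rw [Finset.card_univ, Fintype.card_fin]) (by omega)).2 hn f
    (Submodule.orthogonal_le h1 hf)

end Pool.H60.TP
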