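import Pool.Agent.H60.TP.Defs

set_option autoImplicit false

/-!
# Top scale: the transpositions on the functions of two values
-/

open Finset Equiv Pool.H98.BE
open scoped InnerProductSpace

namespace Pool.H60.TP

variable {n : ℕ} {V : Type*} [NormedAddCommGroup V] [InnerProductSpace ℝ V]
  [FiniteDimensional ℝ V]

/-- `v` is fixed by the transpositions inside `A` -/
def FixIn (ρ : Perm (Fin n) →* (V →ₗ[ℝ] V)) (A : Finset (Fin n)) (v : V) : Prop :=
  ∀ x ∈ A, ∀ y ∈ A, ρ (Equiv.swap x y) v = v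

/-- the span of the vectors fixed by the permutations of `S` minus one point -/
def A1 (ρ : Perm (Fin n) →* (V →ₗ[ℝ] V)) (S : Finset (Fin n)) : Submodule ℝ V :=
  Submodule.span ℝ {v | ∃ p ∈ S, FixIn ρ (S.erase p) v}

/-- the span of the vectors fixed by the permutations of `S` minus two points -/
def A2 (ρ : Perm (Fin n) →* (V →ₗ[ℝ] V)) (S : Finset (Fin n)) : Submodule ℝ V :=
  Submodule.span ℝ {v | ∃ p ∈ S, ∃ q ∈ S, p ≠ q ∧ FixIn ρ ((S.erase p).erase q) v}

variable {ρ : Perm (Fin n) →* (V →ₗ[ℝ] V)}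

private theorem g2_mul (σ τ : Perm (Fin n)) (w : V) : ρ σ (ρ τ w) = ρ (σ * τ) w := by
  rw [map_mul]
  rfl

private theorem g2_one (w : V) : ρ (1 : Perm (Fin n)) w = w := by
  rw [map_one]
  rfl

private theorem g2_T2 (S : Finset (Fin n)) (w : V) :
    T2 ρ S w = ∑ x ∈ S, ∑ y ∈ S.erase x, ρ (Equiv.swap x y) w := by
  rw [T2, LinearMap.sum_apply]
  refine Finset.sum_congr rfl fun x _ => ?_
  rw [J, LinearMap.sum_apply]

private theorem g2_move {A B : Finset (Fin n)} {v : V} (h : FixIn ρ A v) (s : Perm (Fin n))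
    (hB : ∀ a ∈ B, s⁻¹ a ∈ A) : FixIn ρ B (ρ s v) := by
  intro x hx y hy
  have h1 : Equiv.swap x y * s = s * Equiv.swap (s⁻¹ x) (s⁻¹ y) := by
    rw [← Equiv.swap_mul_eq_mul_swap]
  rw [g2_mul, h1, ← g2_mul, h _ (hB x hx) _ (hB y hy)]

private theorem g2_mono {A B : Finset (Fin n)} {v : V} (h : FixIn ρ A v) (hBA : B ⊆ A) : FixIn ρ B v :=
  fun x hx y hy => h x (hBA hx) y (hBA hy)

private theorem g2_swap_mem {S : Finset (Fin n)} {x y : Fin n} (hx : x ∈ S) (hy : y ∈ S) {a : Fin n} (ha : a ∈ S) :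
    Equiv.swap x y a ∈ S := by
  rcases Equiv.swap_apply_eq_iff.1 (rfl : Equiv.swap x y a = Equiv.swap x y a) with h
  by_cases h1 : a = x
  · rw [h1, Equiv.swap_apply_left]; exact hy
  · by_cases h2 : a = y
    · rw [h2, Equiv.swap_apply_right]; exact hx
    · rw [Equiv.swap_apply_of_ne_of_ne h1 h2]; exact ha

theorem T2_mem_A1 {S : Finset (Fin n)} {v : V} (hv : v ∈ A1 ρ S) : T2 ρ S v ∈ A1 ρ S := by
  unfold A1 at hv
  induction hv using Submodule.span_induction with
  | mem v hv =>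
    obtain ⟨p, hp, h⟩ := hv
    rw [g2_T2]
    refine Submodule.sum_mem _ fun x hx => Submodule.sum_mem _ fun y hy => ?_
    have hy' : y ∈ S := Finset.mem_of_mem_erase hy
    refine Submodule.subset_span ⟨Equiv.swap x y p, g2_swap_mem hx hy' hp, g2_move h _ fun a ha => ?_⟩
    rw [Finset.mem_erase] at ha ⊢
    rw [Equiv.swap_inv]
    refine ⟨fun h1 => ha.1 ?_, g2_swap_mem hx hy' ha.2⟩
    rw [← h1, Equiv.swap_apply_self]
  | zero => rw [map_zero]; exact Submodule.zero_mem _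
  | add a b _ _ ha hb => rw [map_add]; exact Submodule.add_mem _ ha hb
  | smul c a _ ha => rw [map_smul]; exact Submodule.smul_mem _ _ ha

theorem T2_mem_A2 {S : Finset (Fin n)} {v : V} (hv : v ∈ A2 ρ S) : T2 ρ S v ∈ A2 ρ S := by
  unfold A2 at hv
  induction hv using Submodule.span_induction with
  | mem v hv =>
    obtain ⟨p, hp, q, hq, hpq, h⟩ := hv
    rw [g2_T2]
    refine Submodule.sum_mem _ fun x hx => Submodule.sum_mem _ fun y hy => ?_
    have hy' : y ∈ S := Finset.mem_of_mem_erase hy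
    refine Submodule.subset_span ⟨Equiv.swap x y p, g2_swap_mem hx hy' hp, Equiv.swap x y q,
      g2_swap_mem hx hy' hq, fun h1 => hpq ((Equiv.swap x y).injective h1), g2_move h _ fun a ha => ?_⟩
    rw [Finset.mem_erase, Finset.mem_erase] at ha ⊢
    rw [Equiv.swap_inv]
    refine ⟨fun h1 => ha.1 ?_, fun h1 => ha.2.1 ?_, g2_swap_mem hx hy' ha.2.2⟩
    · rw [← h1, Equiv.swap_apply_self]
    · rw [← h1, Equiv.swap_apply_self]
  | zero => rw [map_zero]; exact Submodule.zero_mem _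
  | add a b _ _ ha hb => rw [map_add]; exact Submodule.add_mem _ ha hb
  | smul c a _ ha => rw [map_smul]; exact Submodule.smul_mem _ _ ha

theorem A1_le_A2 {S : Finset (Fin n)} (hS : 2 ≤ S.card) : A1 ρ S ≤ A2 ρ S := by
  unfold A1
  rw [Submodule.span_le]
  rintro v ⟨p, hp, h⟩
  obtain ⟨q, hq, hqp⟩ := Finset.exists_mem_ne (by omega : 1 < S.card) p
  exact Submodule.subset_span ⟨p, hp, q, hq, hqp.symm, g2_mono h (Finset.erase_subset _ _)⟩

/-- the sum over the swaps with `p` is fixed by the swaps of `insert p R` -/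
private theorem g2_E {R : Finset (Fin n)} {p : Fin n} (hp : p ∉ R) {u : V} (h : FixIn ρ R u) :
    FixIn ρ (insert p R) (∑ b ∈ insert p R, ρ (Equiv.swap p b) u) := by
  intro x hx y hy
  rw [map_sum]
  have key : ∀ b ∈ insert p R, ρ (Equiv.swap x y) (ρ (Equiv.swap p b) u) = ρ (Equiv.swap p (Equiv.swap x y b)) u := by
    have hpy : ∀ y ∈ R, ∀ b ∈ insert p R,
        ρ (Equiv.swap p y) (ρ (Equiv.swap p b) u) = ρ (Equiv.swap p (Equiv.swap p y b)) u := by
      intro y hy b hb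
      rw [Finset.mem_insert] at hb
      by_cases hbp : b = p
      · rw [hbp, Equiv.swap_self, Equiv.swap_apply_left]
        exact congrArg _ (g2_one u)
      by_cases hby : b = y
      · rw [hby, Equiv.swap_apply_right, Equiv.swap_self, g2_mul, Equiv.swap_mul_self]
        rfl
      · rw [Equiv.swap_apply_of_ne_of_ne hbp hby]
        have hbR : b ∈ R := hb.resolve_left hbp
        have h1 : Equiv.swap p y * Equiv.swap p b = Equiv.swap p b * Equiv.swap b y := by
          have h2 := Equiv.swap_mul_eq_mul_swap (Equiv.swap p b) p y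
          have hyp : y ≠ p := fun h => hp (h ▸ hy)
          rw [Equiv.swap_inv, Equiv.swap_apply_left, Equiv.swap_apply_of_ne_of_ne hyp (Ne.symm hby)] at h2
          exact h2
        rw [g2_mul, h1, ← g2_mul, h b hbR y hy]
    intro b hb
    rw [Finset.mem_insert] at hx hy
    rcases hx with rfl | hx
    · rcases hy with rfl | hy
      · rw [Equiv.swap_self]
        exact g2_one _
      · exact hpy y hy b hb
    · rcases hy with rfl | hy
      · rw [Equiv.swap_comm x y]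
        exact hpy x hx b hb
      · have hxp : p ≠ x := fun h => hp (h ▸ hx)
        have hyp : p ≠ y := fun h => hp (h ▸ hy)
        have h1 : Equiv.swap x y * Equiv.swap p b = Equiv.swap p (Equiv.swap x y b) * Equiv.swap x y := by
          have h2 := Equiv.mul_swap_eq_swap_mul (Equiv.swap x y) p b
          rw [Equiv.swap_apply_of_ne_of_ne hxp hyp] at h2
          exact h2
        rw [g2_mul, h1, ← g2_mul, h x hx y hy]
  rw [Finset.sum_congr rfl key]
  refine Finset.sum_nbij' (fun b => Equiv.swap x y b) (fun b => Equiv.swap x y b) (fun b hb => g2_swap_mem hx hy hb)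
    (fun b hb => g2_swap_mem hx hy hb) (fun b _ => Equiv.swap_apply_self x y b)
    (fun b _ => Equiv.swap_apply_self x y b) (fun b _ => rfl)

private theorem g2_const {R : Finset (Fin n)} {u : V} (h : FixIn ρ R u) :
    T2 ρ R u = ((R.card : ℝ) * ((R.card : ℝ) - 1)) • u := by
  rw [g2_T2]
  have h1 : ∀ x ∈ R, ∑ y ∈ R.erase x, ρ (Equiv.swap x y) u = ((R.card : ℝ) - 1) • u := by
    intro x hx
    rw [Finset.sum_congr rfl fun y hy => h x hx y (Finset.mem_of_mem_erase hy), Finset.sum_const,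
      Finset.card_erase_of_mem hx, ← Nat.cast_smul_eq_nsmul ℝ, Nat.cast_pred (Finset.card_pos.2 ⟨x, hx⟩)]
  rw [Finset.sum_congr rfl h1, Finset.sum_const, ← Nat.cast_smul_eq_nsmul ℝ, smul_smul]

private theorem g2_key {S : Finset (Fin n)} {p q : Fin n} (hp : p ∈ S) (hq : q ∈ S) (hpq : p ≠ q) {u : V}
    (h : FixIn ρ ((S.erase p).erase q) u) :
    T2 ρ S u - (((S.card : ℝ) - 2) * ((S.card : ℝ) - 3) - 4) • u - (2 : ℝ) • ρ (Equiv.swap p q) u ∈ A1 ρ S := by
  obtain ⟨R, hR⟩ : ∃ R, R = (S.erase p).erase q := ⟨_, rfl⟩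
  rw [← hR] at h
  have hqS : q ∈ S.erase p := Finset.mem_erase.2 ⟨hpq.symm, hq⟩
  have hcard : (R.card : ℝ) = (S.card : ℝ) - 2 := by
    rw [hR, Finset.card_erase_of_mem hqS, Finset.card_erase_of_mem hp]
    have h2 : 2 ≤ S.card := by
      have := Finset.card_le_card (show {p, q} ⊆ S by
        intro z hz
        rw [Finset.mem_insert, Finset.mem_singleton] at hz
        rcases hz with rfl | rfl
        · exact hp
        · exact hq)
      rwa [Finset.card_pair hpq] at this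
    rw [show S.card - 1 - 1 = S.card - 2 by omega, Nat.cast_sub h2]
    norm_num
  have hpR : p ∉ R := by rw [hR]; simp
  have hqR : q ∉ R := by rw [hR]; simp
  have hiq : insert q R = S.erase p := by rw [hR, Finset.insert_erase hqS]
  have hip : insert p R = S.erase q := by
    rw [hR, Finset.erase_right_comm, Finset.insert_erase (Finset.mem_erase.2 ⟨hpq, hp⟩)]
  have e1 : T2 ρ S u = T2 ρ R u + (2 : ℝ) • J ρ (S.erase p) q u + (2 : ℝ) • J ρ S p u := by
    rw [T2_erase hp, T2_erase hqS, hR]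
  have e2 : J ρ (S.erase p) q u = ∑ b ∈ insert q R, ρ (Equiv.swap q b) u - u := by
    rw [Finset.sum_insert hqR, Equiv.swap_self, J, LinearMap.sum_apply, ← hR]
    have : ρ (Equiv.refl (Fin n)) u = u := g2_one u
    rw [this]
    abel
  have e3 : J ρ S p u = ρ (Equiv.swap p q) u + (∑ b ∈ insert p R, ρ (Equiv.swap p b) u - u) := by
    rw [Finset.sum_insert hpR, Equiv.swap_self, J, LinearMap.sum_apply, ← hiq, Finset.sum_insert hqR]
    have : ρ (Equiv.refl (Fin n)) u = u := g2_one u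
    rw [this]
    abel
  have m1 : ∑ b ∈ insert q R, ρ (Equiv.swap q b) u ∈ A1 ρ S :=
    Submodule.subset_span ⟨p, hp, by have := g2_E hqR h; rwa [hiq] at this ⊢⟩
  have m2 : ∑ b ∈ insert p R, ρ (Equiv.swap p b) u ∈ A1 ρ S :=
    Submodule.subset_span ⟨q, hq, by have := g2_E hpR h; rwa [hip] at this ⊢⟩
  have e4 : T2 ρ S u - (((S.card : ℝ) - 2) * ((S.card : ℝ) - 3) - 4) • u - (2 : ℝ) • ρ (Equiv.swap p q) u =
      (2 : ℝ) • (∑ b ∈ insert q R, ρ (Equiv.swap q b) u) + (2 : ℝ) • ∑ b ∈ insert p R, ρ (Equiv.swap p b) u := by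
    rw [e1, e2, e3, g2_const h, hcard]
    module
  rw [e4]
  exact Submodule.add_mem _ (Submodule.smul_mem _ _ m1) (Submodule.smul_mem _ _ m2)

/-- `T2 = 2 T`, `T v = (c ± 1) v` modulo `A1`, `2 c = (N - 2) (N - 3) - 4` -/
theorem level_two (hρ : ∀ (σ : Perm (Fin n)) (u v : V), ⟪ρ σ u, ρ σ v⟫_ℝ = ⟪u, v⟫_ℝ)
    {S : Finset (Fin n)} (hS : 3 ≤ S.card) {w : V} (h2 : w ∈ A2 ρ S) (h1 : w ∈ (A1 ρ S)ᗮ) :
    ⟪T2 ρ S w, w⟫_ℝ ≤ ((S.card : ℝ) - 1) * ((S.card : ℝ) - 4) * ⟪w, w⟫_ℝ := by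
  obtain ⟨c, hc⟩ : ∃ c : ℝ, c = ((S.card : ℝ) - 2) * ((S.card : ℝ) - 3) - 4 := ⟨_, rfl⟩
  obtain ⟨X, hX⟩ : ∃ X : V →ₗ[ℝ] V, ∀ v, X v = T2 ρ S v - c • v :=
    ⟨T2 ρ S - c • LinearMap.id, fun v => by simp⟩
  have hXA : ∀ v ∈ A1 ρ S, X v ∈ A1 ρ S := fun v hv => by
    rw [hX]
    exact Submodule.sub_mem _ (T2_mem_A1 hv) (Submodule.smul_mem _ _ hv)
  have hXs : ∀ u v, ⟪X u, v⟫_ℝ = ⟪u, X v⟫_ℝ := by
    intro u v
    rw [hX, hX, inner_sub_left, inner_sub_right, inner_smul_left, inner_smul_right, T2_symm hρ S u v]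
    simp
  have hXp : ∀ v ∈ (A1 ρ S)ᗮ, X v ∈ (A1 ρ S)ᗮ := by
    intro v hv
    rw [Submodule.mem_orthogonal] at hv ⊢
    intro a ha
    rw [← hXs]
    exact hv _ (hXA a ha)
  have hXX : ∀ v ∈ A2 ρ S, X (X v) - (4 : ℝ) • v ∈ A1 ρ S := by
    intro v hv
    unfold A2 at hv
    induction hv using Submodule.span_induction with
    | mem v hv =>
      obtain ⟨p, hp, q, hq, hpq, h⟩ := hv
      have k1 := g2_key hp hq hpq h
      have h' : FixIn ρ ((S.erase p).erase q) (ρ (Equiv.swap p q) v) := g2_move h _ fun a ha => by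
        have ha' := ha
        rw [Finset.mem_erase, Finset.mem_erase] at ha'
        rw [Equiv.swap_inv, Equiv.swap_apply_of_ne_of_ne ha'.2.1 ha'.1]
        exact ha
      have k2 := g2_key hp hq hpq h'
      rw [g2_mul, Equiv.swap_mul_self, g2_one] at k2
      rw [← hc, ← hX] at k1 k2
      have k3 := hXA _ k1
      have e : X (X v) - (4 : ℝ) • v = X (X v - (2 : ℝ) • ρ (Equiv.swap p q) v) +
          (2 : ℝ) • (X (ρ (Equiv.swap p q) v) - (2 : ℝ) • v) := by
        rw [map_sub, map_smul]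
        module
      rw [e]
      exact Submodule.add_mem _ k3 (Submodule.smul_mem _ _ k2)
    | zero => simp
    | add a b _ _ ha hb =>
      have e : X (X (a + b)) - (4 : ℝ) • (a + b) = (X (X a) - (4 : ℝ) • a) + (X (X b) - (4 : ℝ) • b) := by
        rw [map_add, map_add]
        module
      rw [e]
      exact Submodule.add_mem _ ha hb
    | smul t a _ ha =>
      have e : X (X (t • a)) - (4 : ℝ) • t • a = t • (X (X a) - (4 : ℝ) • a) := by
        rw [map_smul, map_smul]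
        module
      rw [e]
      exact Submodule.smul_mem _ _ ha
  have h3 : X (X w) - (4 : ℝ) • w = 0 := by
    have m1 := hXX w h2
    have m2 : X (X w) - (4 : ℝ) • w ∈ (A1 ρ S)ᗮ :=
      Submodule.sub_mem _ (hXp _ (hXp _ h1)) (Submodule.smul_mem _ _ h1)
    rw [Submodule.mem_orthogonal] at m2
    exact inner_self_eq_zero.1 (m2 _ m1)
  have h4 : ⟪X w, X w⟫_ℝ = 4 * ⟪w, w⟫_ℝ := by
    rw [hXs, sub_eq_zero.1 h3, inner_smul_right]
  have h5 : 0 ≤ ⟪X w - (2 : ℝ) • w, X w - (2 : ℝ) • w⟫_ℝ := real_inner_self_nonneg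
  rw [inner_sub_left, inner_sub_right, inner_sub_right, h4, inner_smul_left, inner_smul_right, inner_smul_left,
    inner_smul_right, real_inner_comm (X w) w] at h5
  simp only [conj_trivial] at h5
  have h6 : ⟪X w, w⟫_ℝ = ⟪T2 ρ S w, w⟫_ℝ - c * ⟪w, w⟫_ℝ := by
    rw [hX, inner_sub_left, inner_smul_left]
    simp
  have h7 : ((S.card : ℝ) - 1) * ((S.card : ℝ) - 4) = c + 2 := by
    rw [hc]
    ring
  rw [h7]
  nlinarith [h5, h6]

end Pool.H60.TP
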