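import Pool.Agent.H60.TP.PatDec
import Pool.Agent.H60.TP.LevInv

set_option autoImplicit false

/-!
# Top scale: the transpositions are nonnegative on the functions of few values
-/

open Finset Equiv Pool.H98.BE
open scoped InnerProductSpace

namespace Pool.H60.TP

/-- some pair of a large pattern is disjoint from a small set -/
private theorem exists_pair {n : ℕ} {B : Finset (Fin (n / 2))} {I : Finset (Fin n)}
    (h : I.card < B.card) : ∃ i ∈ B, pa i ∉ I ∧ pb i ∉ I := by
  by_contra hcon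
  push Not at hcon
  have hle : B.card ≤ I.card := by
    refine Finset.card_le_card_of_injOn (fun i => if pa i ∈ I then pa i else pb i) ?_ ?_
    · intro i hi
      change (if pa i ∈ I then pa i else pb i) ∈ I
      split_ifs with h1
      · exact h1
      · exact hcon i hi h1
    · intro i _ k _ hik
      have h1 : ∀ i : Fin (n / 2), ((if pa i ∈ I then pa i else pb i : Fin n) : ℕ) / 2 = i := by
        intro i
        split_ifs
        · change (2 * i.1) / 2 = i.1
          omega
        · change (2 * i.1 + 1) / 2 = i.1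
          omega
      have h2 := congrArg (fun x : Fin n => (x : ℕ) / 2) hik
      have h3 : (i : ℕ) = k := (h1 i).symm.trans (h2.trans (h1 k))
      exact Fin.ext h3
  omega

/-- a function of few values is orthogonal to the large patterns -/
private theorem pat_lev {n j : ℕ} {B : Finset (Fin (n / 2))} (hB : j < B.card) {u : QV n}
    (hu : Pat (qrho n) B u) {f : QV n} (hf : f ∈ Lev n j) : ⟪u, f⟫_ℝ = 0 := by
  unfold Lev at hf
  induction hf using Submodule.span_induction with
  | mem f hf =>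
    obtain ⟨I, hI, hfix⟩ := hf
    obtain ⟨i, hiB, h1, h2⟩ := exists_pair (I := I) (B := B) (by omega)
    refine pat_orth' qrho_inner (σ := pt i) ?_ ?_
    · have h3 := hu i
      rw [if_pos hiB] at h3
      exact h3
    · exact hfix _ _ h1 h2
  | zero => exact inner_zero_right _
  | add f g _ _ hf hg => rw [inner_add_right, hf, hg, add_zero]
  | smul c f _ hf => rw [inner_smul_right, hf, mul_zero]

/-- one matching -/
theorem match_nonneg {n j : ℕ} (h : 2 * j ≤ n / 2) {f : QV n} (hf : f ∈ Lev n j) :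
    0 ≤ ∑ i : Fin (n / 2), ⟪qrho n (pt i) f, f⟫_ℝ := by
  have htop : Invar (qrho n) (⊤ : Submodule ℝ (QV n)) := fun σ w _ => Submodule.mem_top
  obtain ⟨w, hw, hfw⟩ := pat_dec htop (v := f) Submodule.mem_top
  have horth : ∀ B B', B ≠ B' → ⟪w B, w B'⟫_ℝ = 0 := fun B B' h =>
    pat_orth qrho_inner h (hw B).2 (hw B').2
  have hwf : ∀ B, ⟪w B, f⟫_ℝ = ⟪w B, w B⟫_ℝ := by
    intro B
    have h1 : ⟪w B, f⟫_ℝ = ⟪w B, ∑ B', w B'⟫_ℝ := by rw [← hfw]
    rw [h1, inner_sum, Finset.sum_eq_single B]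
    · intro B' _ h
      exact horth B B' h.symm
    · intro h
      exact absurd (mem_univ _) h
  have hz : ∀ B, j < B.card → ⟪w B, w B⟫_ℝ = 0 := fun B hB => by
    rw [← hwf]
    exact pat_lev hB (hw B).2 hf
  have hi : ∀ i, ⟪qrho n (pt i) f, f⟫_ℝ =
      ∑ B : Finset (Fin (n / 2)), (if i ∈ B then (-1 : ℝ) else 1) * ⟪w B, w B⟫_ℝ := by
    intro i
    have h1 : qrho n (pt i) f = ∑ B, qrho n (pt i) (w B) := by rw [← map_sum, ← hfw]
    rw [h1, sum_inner]
    refine sum_congr rfl fun B _ => ?_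
    rw [(hw B).2 i]
    split_ifs
    · rw [inner_neg_left, hwf]
      ring
    · rw [hwf]
      ring
  rw [sum_congr rfl fun i _ => hi i, sum_comm]
  refine sum_nonneg fun B _ => ?_
  rw [← sum_mul]
  rcases lt_or_ge j B.card with hB | hB
  · rw [hz B hB, mul_zero]
  · refine mul_nonneg ?_ real_inner_self_nonneg
    have h2 : ∑ i : Fin (n / 2), (if i ∈ B then (-1 : ℝ) else 1) =
        ((n / 2 : ℕ) : ℝ) - 2 * (B.card : ℝ) := by
      have h3 : ∀ i : Fin (n / 2), (if i ∈ B then (-1 : ℝ) else 1) =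
          1 - 2 * (if i ∈ B then (1 : ℝ) else 0) := by
        intro i
        split_ifs <;> norm_num
      rw [sum_congr rfl fun i _ => h3 i, sum_sub_distrib, ← mul_sum]
      simp
    rw [h2]
    have h5 : 2 * B.card ≤ n / 2 := by omega
    have h4 : ((2 * B.card : ℕ) : ℝ) ≤ ((n / 2 : ℕ) : ℝ) := Nat.cast_le.2 h5
    rw [Nat.cast_mul, Nat.cast_ofNat] at h4
    linarith

/-- the symmetric group is transitive on the pairs -/
private theorem two_trans {n : ℕ} {a b x y : Fin n} (hab : a ≠ b) (hxy : x ≠ y) :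
    ∃ τ : Perm (Fin n), τ a = x ∧ τ b = y := by
  have h1 : Equiv.swap a x b ≠ x := by
    intro h
    have h2 : Equiv.swap a x a = x := Equiv.swap_apply_left a x
    exact hab ((Equiv.swap a x).injective (h2.trans h.symm))
  refine ⟨Equiv.swap (Equiv.swap a x b) y * Equiv.swap a x, ?_, ?_⟩
  · rw [Perm.mul_apply, Equiv.swap_apply_left, Equiv.swap_apply_of_ne_of_ne h1.symm hxy]
  · rw [Perm.mul_apply, Equiv.swap_apply_left]

theorem T2_nonneg {n j : ℕ} (h : 2 * j ≤ n / 2) {f : QV n} (hf : f ∈ Lev n j) :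
    0 ≤ ⟪T2 (qrho n) (univ : Finset (Fin n)) f, f⟫_ℝ := by
  obtain ⟨g, hg⟩ : ∃ g : Fin n → Fin n → ℝ, ∀ x y, g x y = ⟪qrho n (Equiv.swap x y) f, f⟫_ℝ :=
    ⟨_, fun _ _ => rfl⟩
  have hT : ⟪T2 (qrho n) (univ : Finset (Fin n)) f, f⟫_ℝ = ∑ x, ∑ y ∈ univ.erase x, g x y := by
    rw [quad_T2_apply, sum_inner]
    refine sum_congr rfl fun x _ => ?_
    rw [sum_inner]
    exact sum_congr rfl fun y _ => (hg x y).symm
  obtain ⟨S, hS⟩ : ∃ S : Fin n → Fin n → ℝ, ∀ a b, S a b = ∑ π : Perm (Fin n), g (π a) (π b) :=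
    ⟨_, fun _ _ => rfl⟩
  have hST : ∀ a b (τ : Perm (Fin n)), S (τ a) (τ b) = S a b := by
    intro a b τ
    rw [hS, hS]
    exact Equiv.sum_comp (Equiv.mulRight τ) (fun π : Perm (Fin n) => g (π a) (π b))
  have hSc : ∀ a b x y : Fin n, a ≠ b → x ≠ y → S x y = S a b := by
    intro a b x y hab hxy
    obtain ⟨τ, h1, h2⟩ := two_trans hab hxy
    rw [← h1, ← h2, hST]
  -- one permutation
  have hpi : ∀ π : Perm (Fin n), 0 ≤ ∑ i : Fin (n / 2), g (π (pa i)) (π (pb i)) := by
    intro π
    have h1 := match_nonneg h (lev_right n j π⁻¹ f hf)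
    have h2 : ∀ i : Fin (n / 2), ⟪qrho n (pt i) (qrho n π⁻¹ f), qrho n π⁻¹ f⟫_ℝ =
        g (π (pa i)) (π (pb i)) := by
      intro i
      rw [hg, ← qrho_inner π]
      have h3 : qrho n π (qrho n π⁻¹ f) = f := by
        rw [← Module.End.mul_apply, ← map_mul, mul_inv_cancel, map_one, Module.End.one_apply]
      have h4 : qrho n π (qrho n (pt i) (qrho n π⁻¹ f)) =
          qrho n (Equiv.swap (π (pa i)) (π (pb i))) f := by
        rw [← Module.End.mul_apply, ← map_mul, ← Module.End.mul_apply, ← map_mul]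
        unfold pt
        rw [Equiv.mul_swap_eq_swap_mul, mul_assoc, mul_inv_cancel, mul_one]
      rw [h3, h4]
    rw [sum_congr rfl fun i _ => h2 i] at h1
    exact h1
  have hsum : 0 ≤ ∑ i : Fin (n / 2), S (pa i) (pb i) := by
    rw [sum_congr rfl fun i _ => hS (pa i) (pb i), sum_comm]
    exact sum_nonneg fun π _ => hpi π
  -- the sum over all permutations
  have hall : ((Fintype.card (Perm (Fin n)) : ℕ) : ℝ) * (∑ x, ∑ y ∈ univ.erase x, g x y) =
      ∑ x, ∑ y ∈ univ.erase x, S x y := by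
    have h1 : ∀ π : Perm (Fin n), ∑ x, ∑ y ∈ univ.erase x, g (π x) (π y) =
        ∑ x, ∑ y ∈ univ.erase x, g x y := by
      intro π
      rw [← Equiv.sum_comp π fun x => ∑ y ∈ univ.erase x, g x y]
      refine sum_congr rfl fun x _ => ?_
      refine Finset.sum_equiv π ?_ ?_
      · intro y
        simp
      · intro y _
        rfl
    have h2 : ∑ x, ∑ y ∈ univ.erase x, S x y =
        ∑ π : Perm (Fin n), ∑ x, ∑ y ∈ univ.erase x, g (π x) (π y) := by
      rw [sum_comm]
      refine sum_congr rfl fun x _ => ?_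
      rw [sum_comm]
      exact sum_congr rfl fun y _ => hS x y
    rw [h2, sum_congr rfl fun π _ => h1 π, sum_const, card_univ, nsmul_eq_mul]
  have hcard : (0 : ℝ) < ((Fintype.card (Perm (Fin n)) : ℕ) : ℝ) :=
    Nat.cast_pos.2 Fintype.card_pos
  have hkey : 0 ≤ ∑ x, ∑ y ∈ univ.erase x, S x y := by
    refine sum_nonneg fun x _ => sum_nonneg fun y hy => ?_
    have hxy : x ≠ y := (ne_of_mem_erase hy).symm
    have hn : 0 < n / 2 := by
      have h1 : (x : ℕ) ≠ y := fun h => hxy (Fin.ext h)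
      have := x.2
      have := y.2
      omega
    have hne : ∀ i : Fin (n / 2), pa i ≠ pb i := by
      intro i hi
      have h1 : (2 * i.1) = 2 * i.1 + 1 := congrArg Fin.val hi
      omega
    have h3 : ∑ i : Fin (n / 2), S (pa i) (pb i) = ((n / 2 : ℕ) : ℝ) * S x y := by
      rw [sum_congr rfl fun i _ => hSc x y (pa i) (pb i) hxy (hne i), sum_const, card_univ,
        Fintype.card_fin, nsmul_eq_mul]
    rw [h3] at hsum
    exact nonneg_of_mul_nonneg_right hsum (Nat.cast_pos.2 hn)
  rw [hT]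
  rw [← hall] at hkey
  exact nonneg_of_mul_nonneg_right hkey hcard

end Pool.H60.TP
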