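import Pool.Agent.H60.TP.HLev
import Pool.Agent.H60.TP.Pos

set_option autoImplicit false

/-!
# Top scale: the inequality on sign times the functions of few values
-/

open Finset Equiv Pool.H98.BE
open scoped InnerProductSpace

namespace Pool.H60.TP

/-- the value of the sign character -/
private theorem partB_rho {n : ℕ} (σ : Perm (Fin n)) (h : QV n) :
    qrho n σ (sgnm n h) = ((Perm.sign σ : ℤ) : ℝ) • sgnm n (qrho n σ h) := by
  rw [sgnm_qrho, smul_smul, sign_sq, one_smul]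

private theorem partB_T2 {n : ℕ} (h : QV n) :
    T2 (qrho n) (univ : Finset (Fin n)) (sgnm n h) =
      -sgnm n (T2 (qrho n) (univ : Finset (Fin n)) h) := by
  rw [quad_T2_apply, quad_T2_apply, map_sum, ← Finset.sum_neg_distrib]
  refine Finset.sum_congr rfl fun p _ => ?_
  rw [map_sum, ← Finset.sum_neg_distrib]
  refine Finset.sum_congr rfl fun q hq => ?_
  have hpq : p ≠ q := (Finset.ne_of_mem_erase hq).symm
  rw [partB_rho, Perm.sign_swap hpq]
  push_cast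
  rw [neg_smul, one_smul]

private theorem partB_KO {n : ℕ} (q : Perm (Fin n)) (h : QV n) :
    KO q (sgnm n h) = ((Perm.sign q : ℤ) : ℝ) • sgnm n (KO q h) := by
  rw [KO_apply, KO_apply, map_sum, Finset.smul_sum]
  refine Finset.sum_congr rfl fun g _ => ?_
  rw [partB_rho]
  have h1 : Perm.sign (g⁻¹ * q * g) = Perm.sign q := by
    rw [Perm.sign_mul, Perm.sign_mul, Perm.sign_inv, mul_comm (Perm.sign g) (Perm.sign q), mul_assoc,
      Int.units_mul_self, mul_one]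
  rw [h1]

private theorem partB_C {n : ℕ} (hn : 3 ≤ n) (h : QV n) :
    C (qrho n) (univ : Finset (Fin n)) (sgnm n h) =
      ((-1 : ℝ) ^ (n - 1)) • sgnm n (C (qrho n) (univ : Finset (Fin n)) h) := by
  rw [quad_C_apply, quad_C_apply, map_sum, Finset.smul_sum]
  refine Finset.sum_congr rfl fun σ hσ => ?_
  rw [partB_rho]
  obtain ⟨h1, h2⟩ := mem_cyc.1 hσ
  have h3 : Perm.sign σ = -(-1) ^ n := by
    rw [h1.sign, h2, Finset.card_univ, Fintype.card_fin]
  have h4 : ((Perm.sign σ : ℤ) : ℝ) = (-1 : ℝ) ^ (n - 1) := by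
    rw [h3]
    obtain ⟨k, rfl⟩ : ∃ k, n = k + 1 := ⟨n - 1, by omega⟩
    rw [Nat.add_sub_cancel]
    push_cast
    rw [pow_succ]
    ring
  rw [h4]

/-- the constant function -/
private noncomputable def partB_one (n : ℕ) : QV n := WithLp.toLp 2 (fun _ => (1 : ℝ))

private theorem partB_one_apply {n : ℕ} (t : Perm (Fin n)) : partB_one n t = 1 := rfl

private theorem partB_rho_one {n : ℕ} (σ : Perm (Fin n)) :
    qrho n σ (partB_one n) = partB_one n := by
  ext t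
  rw [qrho_apply, partB_one_apply, partB_one_apply]

private theorem partB_inner_one {n : ℕ} (f : QV n) : ⟪f, partB_one n⟫_ℝ = qsum n f := by
  rw [qinner, qsum_apply]
  refine Finset.sum_congr rfl fun t _ => ?_
  rw [partB_one_apply, mul_one]

private theorem partB_T2_one {n : ℕ} (hn : 3 ≤ n) :
    T2 (qrho n) (univ : Finset (Fin n)) (partB_one n) =
      ((n : ℝ) * ((n : ℝ) - 1)) • partB_one n := by
  rw [quad_T2_apply]
  have h1 : ∀ p : Fin n, ∑ q ∈ univ.erase p, qrho n (Equiv.swap p q) (partB_one n) =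
      ((n : ℝ) - 1) • partB_one n := by
    intro p
    simp only [partB_rho_one]
    rw [Finset.sum_const, Finset.card_erase_of_mem (Finset.mem_univ p), Finset.card_univ,
      Fintype.card_fin, ← Nat.cast_smul_eq_nsmul ℝ, Nat.cast_sub (by omega), Nat.cast_one]
  simp only [h1]
  rw [Finset.sum_const, Finset.card_univ, Fintype.card_fin, ← Nat.cast_smul_eq_nsmul ℝ, smul_smul]

private theorem partB_C_one {n : ℕ} (hn : 3 ≤ n) :
    C (qrho n) (univ : Finset (Fin n)) (partB_one n) = ((n - 1).factorial : ℝ) • partB_one n := by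
  rw [quad_C_apply]
  simp only [partB_rho_one]
  rw [Finset.sum_const, card_cyc (by rw [Finset.card_univ, Fintype.card_fin]; omega),
    Finset.card_univ, Fintype.card_fin, ← Nat.cast_smul_eq_nsmul ℝ]

/-- a symmetric operator with the eigenvector `u` -/
private theorem partB_split {n : ℕ} {A : QV n →ₗ[ℝ] QV n} (hA : A.IsSymmetric) {u v : QV n} {a : ℝ}
    (hu : A u = a • u) (huv : ⟪u, v⟫_ℝ = 0) :
    ⟪A (u + v), u + v⟫_ℝ = a * ⟪u, u⟫_ℝ + ⟪A v, v⟫_ℝ := by
  have h1 : ⟪A v, u⟫_ℝ = 0 := by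
    rw [hA v u, hu, inner_smul_right, real_inner_comm, huv, mul_zero]
  have h2 : ⟪A u, v⟫_ℝ = 0 := by
    rw [hu, real_inner_smul_left, huv, mul_zero]
  have h3 : ⟪A u, u⟫_ℝ = a * ⟪u, u⟫_ℝ := by
    rw [hu, real_inner_smul_left]
  rw [map_add, inner_add_left, inner_add_right, inner_add_right, h1, h2, h3]
  ring

private theorem partB_pos {n j : ℕ} (hn : 3 ≤ n) (hj : 2 * j ≤ n / 2) {h : QV n}
    (hh : h ∈ Lev n j) :
    -(n.factorial : ℝ) * ⟪T2 (qrho n) (univ : Finset (Fin n)) h, h⟫_ℝ +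
      2 * ((n : ℝ) - 1) * ((n : ℝ) - 2) * ((n : ℝ) *
        ⟪C (qrho n) (univ : Finset (Fin n)) h, h⟫_ℝ) ≤
      (n.factorial : ℝ) * (((n : ℝ) - 1) * ((n : ℝ) - 4)) * ⟪h, h⟫_ℝ := by
  have hfac : (0 : ℝ) < (Fintype.card (Perm (Fin n)) : ℝ) := by
    exact_mod_cast Fintype.card_pos
  obtain ⟨c, hc⟩ : ∃ c : ℝ, c = qsum n h / (Fintype.card (Perm (Fin n)) : ℝ) := ⟨_, rfl⟩
  obtain ⟨h0, hh0⟩ : ∃ h0 : QV n, h0 = c • partB_one n := ⟨_, rfl⟩
  obtain ⟨h1, hh1⟩ : ∃ h1 : QV n, h1 = h - h0 := ⟨_, rfl⟩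
  have hsum : h = h0 + h1 := by rw [hh1]; abel
  have hone : qsum n (partB_one n) = (Fintype.card (Perm (Fin n)) : ℝ) := by
    rw [qsum_apply]
    simp only [partB_one_apply]
    rw [Finset.sum_const, Finset.card_univ, nsmul_eq_mul, mul_one]
  have hs1 : qsum n h1 = 0 := by
    rw [hh1, map_sub, hh0, map_smul, hone, hc, smul_eq_mul, div_mul_cancel₀ _ hfac.ne', sub_self]
  have hmem0 : h0 ∈ Lev n j := by
    rw [hh0]
    exact (Lev n j).smul_mem _ (const_mem_lev j (by omega) 1)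
  have hmem1 : h1 ∈ Lev n j := by
    rw [hh1]
    exact (Lev n j).sub_mem hh hmem0
  have horth : ⟪h0, h1⟫_ℝ = 0 := by
    rw [hh0, real_inner_smul_left, real_inner_comm, partB_inner_one, hs1, mul_zero]
  have hT0 : T2 (qrho n) (univ : Finset (Fin n)) h0 = ((n : ℝ) * ((n : ℝ) - 1)) • h0 := by
    rw [hh0, map_smul, partB_T2_one hn, smul_comm]
  have hC0 : C (qrho n) (univ : Finset (Fin n)) h0 = ((n - 1).factorial : ℝ) • h0 := by
    rw [hh0, map_smul, partB_C_one hn, smul_comm]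
  have eT := partB_split (T2_symm (ρ := qrho n) qrho_inner (univ : Finset (Fin n))) hT0 horth
  have eC := partB_split (C_symm (ρ := qrho n) qrho_inner (univ : Finset (Fin n))) hC0 horth
  have eI : ⟪h, h⟫_ℝ = ⟪h0, h0⟫_ℝ + ⟪h1, h1⟫_ℝ := by
    rw [hsum, inner_add_left, inner_add_right, inner_add_right, horth, real_inner_comm h0 h1, horth]
    ring
  rw [← hsum] at eT eC
  have hcyc := cyc_form hn h1 hs1
  have hpos := T2_nonneg hj hmem1
  have hf1 : ((n - 1).factorial : ℝ) = ((n : ℝ) - 1) * ((n - 2).factorial : ℝ) := fact_sub_one hn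
  have hf0 : (n.factorial : ℝ) = (n : ℝ) * (((n : ℝ) - 1) * ((n - 2).factorial : ℝ)) := by
    rw [← hf1]
    obtain ⟨k, rfl⟩ : ∃ k, n = k + 1 := ⟨n - 1, by omega⟩
    rw [Nat.factorial_succ, Nat.add_sub_cancel]
    push_cast
    ring
  have hn3 : (3 : ℝ) ≤ n := by exact_mod_cast hn
  have hF : (0 : ℝ) < ((n - 2).factorial : ℝ) := by exact_mod_cast Nat.factorial_pos _
  rw [eT, eC, eI, hf0, hf1]
  obtain ⟨F, hFd⟩ : ∃ F : ℝ, F = ((n - 2).factorial : ℝ) := ⟨_, rfl⟩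
  obtain ⟨N, hNd⟩ : ∃ N : ℝ, N = (n : ℝ) := ⟨_, rfl⟩
  obtain ⟨T, hTd⟩ : ∃ T : ℝ, T = ⟪T2 (qrho n) (univ : Finset (Fin n)) h1, h1⟫_ℝ := ⟨_, rfl⟩
  obtain ⟨K, hKd⟩ : ∃ K : ℝ, K = ⟪C (qrho n) (univ : Finset (Fin n)) h1, h1⟫_ℝ := ⟨_, rfl⟩
  obtain ⟨a, had⟩ : ∃ a : ℝ, a = ⟪h0, h0⟫_ℝ := ⟨_, rfl⟩
  obtain ⟨b, hbd⟩ : ∃ b : ℝ, b = ⟪h1, h1⟫_ℝ := ⟨_, rfl⟩
  rw [← hFd, ← hNd, ← hTd, ← hKd, ← hbd] at hcyc
  rw [← hTd] at hpos
  rw [← hFd] at hF
  rw [← hNd] at hn3
  rw [← hFd, ← hNd, ← hTd, ← hKd, ← had, ← hbd]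
  have h5 : 0 ≤ N * (N - 1) := mul_nonneg (by linarith) (by linarith)
  have h6 := mul_le_mul_of_nonneg_left hcyc h5
  have h7 : 0 ≤ 2 * (N * (N - 1) * F * T) :=
    mul_nonneg (by norm_num) (mul_nonneg (mul_nonneg h5 hF.le) hpos)
  linear_combination h6 + h7

theorem ho_slev {n j : ℕ} (hn : 3 ≤ n) (hj : 2 * j ≤ n / 2) {q : Perm (Fin n)}
    (hq : NoShort q j)
    (hs : Perm.sign q = 1 ∨ Perm.sign q = (-1) ^ (n - 1))
    {f : QV n} (hf : f ∈ SLev n j) :
    ⟪HO q f, f⟫_ℝ ≤ (n.factorial : ℝ) * (((n : ℝ) - 1) * ((n : ℝ) - 4)) * ⟪f, f⟫_ℝ := by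
  obtain ⟨h, hh, rfl⟩ := Submodule.mem_map.1 hf
  have hjn : j < n := by omega
  have hKO := KO_lev hn hjn hq hh
  rcases hs with hs | hs
  · have hT := partB_T2 h
    have hK := partB_KO q h
    rw [hs, hKO] at hK
    have hpos := partB_pos hn hj hh
    rw [HO_apply, hT, hK]
    have e1 : ((n.factorial : ℝ) • -sgnm n (T2 (qrho n) (univ : Finset (Fin n)) h) +
        (2 * ((n : ℝ) - 1) * ((n : ℝ) - 2)) •
          ((((1 : ℤˣ) : ℤ) : ℝ) • sgnm n ((n : ℝ) • C (qrho n) (univ : Finset (Fin n)) h))) =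
        sgnm n ((-(n.factorial : ℝ)) • T2 (qrho n) (univ : Finset (Fin n)) h +
          (2 * ((n : ℝ) - 1) * ((n : ℝ) - 2) * (n : ℝ)) •
            C (qrho n) (univ : Finset (Fin n)) h) := by
      rw [map_add, map_smul, map_smul, map_smul, Units.val_one, Int.cast_one, one_smul, smul_smul,
        smul_neg, neg_smul]
    rw [e1, sgnm_inner, sgnm_inner, inner_add_left, real_inner_smul_left, real_inner_smul_left]
    linarith
  · refine ho_of_eq hn ?_ ?_
    · rw [← partB_inner_one, real_inner_comm]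
      exact lev_orth (by omega) (const_mem_lev j hjn.le 1) hh
    · rw [partB_KO, hs, hKO, partB_C hn, map_smul, smul_comm]
      push_cast
      rw [smul_comm]

end Pool.H60.TP
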