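import Pool.Agent.H60.TP.Defs

set_option autoImplicit false

/-!
# Top scale: the trace bound
-/

open Finset Equiv Pool.H98.BE
open scoped InnerProductSpace

namespace Pool.H60.TP

private theorem trace_qrho_single {n : ℕ} (σ x : Perm (Fin n)) :
    qrho n σ (EuclideanSpace.single x (1 : ℝ)) = EuclideanSpace.single (x * σ⁻¹) (1 : ℝ) := by
  ext t
  rw [qrho_apply, EuclideanSpace.single_apply, EuclideanSpace.single_apply]
  refine if_congr ?_ rfl rfl
  constructor
  · intro h
    rw [← h]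
    group
  · intro h
    rw [h]
    group

private theorem trace_inner_single {n : ℕ} (x y : Perm (Fin n)) :
    ⟪(EuclideanSpace.single x (1 : ℝ) : QV n), EuclideanSpace.single y (1 : ℝ)⟫_ℝ
      = if x = y then 1 else 0 := by
  rw [qinner, Finset.sum_eq_single y]
  · rw [EuclideanSpace.single_apply, EuclideanSpace.single_apply, if_pos rfl, mul_one]
    exact if_congr ⟨fun h => h.symm, fun h => h.symm⟩ rfl rfl
  · intro t _ ht
    rw [EuclideanSpace.single_apply y, if_neg ht, mul_zero]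
  · intro h
    exact absurd (Finset.mem_univ y) h

private theorem trace_norm {n : ℕ} (q x : Perm (Fin n)) :
    ‖KO q (EuclideanSpace.single x (1 : ℝ))‖ ^ 2 = (n.factorial : ℝ) * (cent q : ℝ) := by
  rw [← real_inner_self_eq_norm_sq, KO_apply, sum_inner]
  have h1 : ∀ g : Perm (Fin n),
      ⟪qrho n (g⁻¹ * q * g) (EuclideanSpace.single x (1 : ℝ)),
        ∑ g' : Perm (Fin n), qrho n (g'⁻¹ * q * g') (EuclideanSpace.single x (1 : ℝ))⟫_ℝ
        = (cent q : ℝ) := by
    intro g
    rw [inner_sum, ← Equiv.sum_comp (Equiv.mulRight g)]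
    have h2 : ∀ h : Perm (Fin n),
        ⟪qrho n (g⁻¹ * q * g) (EuclideanSpace.single x (1 : ℝ)),
          qrho n (((Equiv.mulRight g) h)⁻¹ * q * ((Equiv.mulRight g) h))
            (EuclideanSpace.single x (1 : ℝ))⟫_ℝ = if h * q = q * h then 1 else 0 := by
      intro h
      rw [trace_qrho_single, trace_qrho_single, trace_inner_single, Equiv.coe_mulRight]
      refine if_congr ?_ rfl rfl
      rw [mul_right_inj, inv_inj]
      constructor
      · intro e
        have e1 := congrArg (fun z => h * g * z * g⁻¹) e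
        simp only at e1
        have e2 : h * g * (g⁻¹ * q * g) * g⁻¹ = h * q := by group
        have e3 : h * g * ((h * g)⁻¹ * q * (h * g)) * g⁻¹ = q * h := by group
        rw [e2, e3] at e1
        exact e1
      · intro e
        have e2 : (h * g)⁻¹ * q * (h * g) = g⁻¹ * h⁻¹ * (q * h) * g := by group
        rw [e2, ← e]
        group
    rw [Finset.sum_congr rfl fun h _ => h2 h, Finset.sum_ite, Finset.sum_const_zero, add_zero,
      Finset.sum_const, nsmul_eq_mul, mul_one]
    rfl
  rw [Finset.sum_congr rfl fun g _ => h1 g, Finset.sum_const, nsmul_eq_mul, Finset.card_univ,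
    Fintype.card_perm, Fintype.card_fin]

theorem trace_bound {n : ℕ} (q : Perm (Fin n)) {W : Submodule ℝ (QV n)} {κ : ℝ}
    (hW : ∀ w ∈ W, KO q w = κ • w) :
    κ ^ 2 * (Module.finrank ℝ W : ℝ) ≤ (n.factorial : ℝ) ^ 2 * (cent q : ℝ) := by
  set b := stdOrthonormalBasis ℝ W with hb
  have hv : Orthonormal ℝ fun i => (b i : QV n) := b.orthonormal.comp_linearIsometry W.subtypeₗᵢ
  have h1 : ∀ i, ‖KO q (b i : QV n)‖ ^ 2 = κ ^ 2 := by
    intro i
    rw [hW _ (b i).2, norm_smul, mul_pow, hv.1 i, one_pow, mul_one, Real.norm_eq_abs, sq_abs]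
  have h2 : ∀ i, ‖KO q (b i : QV n)‖ ^ 2 =
      ∑ x : Perm (Fin n), ‖⟪(b i : QV n), KO q (EuclideanSpace.single x (1 : ℝ))⟫_ℝ‖ ^ 2 := by
    intro i
    rw [EuclideanSpace.norm_sq_eq]
    refine Finset.sum_congr rfl fun x _ => ?_
    rw [← KO_symm q (b i : QV n) (EuclideanSpace.single x (1 : ℝ)), EuclideanSpace.inner_single_right]
    simp
  have h3 : κ ^ 2 * (Module.finrank ℝ W : ℝ) = ∑ i, ‖KO q (b i : QV n)‖ ^ 2 := by
    rw [Finset.sum_congr rfl fun i _ => h1 i, Finset.sum_const, nsmul_eq_mul, Finset.card_univ,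
      Fintype.card_fin, mul_comm]
  rw [h3, Finset.sum_congr rfl fun i _ => h2 i, Finset.sum_comm]
  calc ∑ x : Perm (Fin n), ∑ i, ‖⟪(b i : QV n), KO q (EuclideanSpace.single x (1 : ℝ))⟫_ℝ‖ ^ 2
      ≤ ∑ x : Perm (Fin n), ‖KO q (EuclideanSpace.single x (1 : ℝ))‖ ^ 2 :=
        Finset.sum_le_sum fun x _ => hv.sum_inner_products_le _
    _ = (n.factorial : ℝ) ^ 2 * (cent q : ℝ) := by
        rw [Finset.sum_congr rfl fun x _ => trace_norm q x, Finset.sum_const, nsmul_eq_mul,
          Finset.card_univ, Fintype.card_perm, Fintype.card_fin]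
        ring

end Pool.H60.TP
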