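import Pool.Agent.H60.TP.Gap
import Pool.Agent.H60.TP.Dim
import Pool.Agent.H60.TP.Trace
import Pool.Agent.H60.TP.LevInv

set_option autoImplicit false

/-!
# Top scale: the inequality on the complement
-/

open Finset Equiv Pool.H98.BE
open scoped InnerProductSpace

namespace Pool.H60.TP

private theorem partC_orth_inv {n : ℕ} {ρ : Perm (Fin n) →* (QV n →ₗ[ℝ] QV n)}
    (hρ : ∀ (σ : Perm (Fin n)) (f g : QV n), ⟪ρ σ f, ρ σ g⟫_ℝ = ⟪f, g⟫_ℝ)
    {F : Submodule ℝ (QV n)} (hF : Invar ρ F) : Invar ρ Fᗮ := by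
  intro σ w hw
  rw [Submodule.mem_orthogonal] at hw ⊢
  intro u hu
  have h1 := hw _ (hF σ⁻¹ u hu)
  rw [← hρ σ] at h1
  have h2 : ρ σ (ρ σ⁻¹ u) = u := by
    have h3 : ρ σ (ρ σ⁻¹ u) = (ρ (σ * σ⁻¹)) u := by
      rw [map_mul]
      rfl
    rw [h3, mul_inv_cancel, map_one]
    rfl
  rwa [h2] at h1

theorem ho_rest {n J : ℕ} (hJ : 2 ≤ J) (hk : 2 * J + 1 ≤ n / 2) {q : Perm (Fin n)}
    (hc : cent q * ((n - 1) ^ 2 * (n - 2) ^ 2) ≤ 4 * ((n / 2).choose J) ^ 2)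
    {f : QV n} (hf : f ∈ (Lev n (2 * J - 2))ᗮ ⊓ (SLev n (2 * J - 2))ᗮ) :
    ⟪HO q f, f⟫_ℝ ≤ (n.factorial : ℝ) * (((n : ℝ) - 1) * ((n : ℝ) - 4)) * ⟪f, f⟫_ℝ := by
  have hn10 : 10 ≤ n := by omega
  set U : Submodule ℝ (QV n) := (Lev n (2 * J - 2))ᗮ ⊓ (SLev n (2 * J - 2))ᗮ with hU
  have hUr : Invar (qrho n) U := fun σ w hw =>
    ⟨partC_orth_inv qrho_inner (lev_right n _) σ w hw.1,
      partC_orth_inv qrho_inner (slev_right n _) σ w hw.2⟩
  have hUl : Invar (qlam n) U := fun σ w hw =>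
    ⟨partC_orth_inv qlam_inner (lev_left n _) σ w hw.1,
      partC_orth_inv qlam_inner (slev_left n _) σ w hw.2⟩
  by_cases hbot : U = ⊥
  · have h0 : f = 0 := by
      rwa [hbot, Submodule.mem_bot] at hf
    rw [h0, inner_zero_right, inner_zero_right, mul_zero]
  have hT : ∀ F : Submodule ℝ (QV n), Invar (qrho n) F → ∀ v ∈ F,
      T2 (qrho n) (univ : Finset (Fin n)) v ∈ F := by
    intro F hF v hv
    rw [quad_T2_apply]
    exact F.sum_mem fun p _ => F.sum_mem fun r _ => hF _ v hv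
  have hK : ∀ F : Submodule ℝ (QV n), Invar (qrho n) F → ∀ v ∈ F, KO q v ∈ F := by
    intro F hF v hv
    rw [KO_apply]
    exact F.sum_mem fun g _ => hF _ v hv
  have hH : ∀ F : Submodule ℝ (QV n), Invar (qrho n) F → ∀ v ∈ F, HO q v ∈ F := by
    intro F hF v hv
    rw [HO_apply]
    exact F.add_mem (F.smul_mem _ (hT F hF v hv)) (F.smul_mem _ (hK F hF v hv))
  obtain ⟨c, w, hwU, hw0, hwc, hmin⟩ := exists_min_eig (-HO q) (by
      intro u v
      rw [LinearMap.neg_apply, LinearMap.neg_apply, inner_neg_left, inner_neg_right,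
        HO_symm q u v])
    U hbot (fun w hw => by
      rw [LinearMap.neg_apply]
      exact U.neg_mem (hH U hUr w hw))
  have hHw : HO q w = (-c) • w := by
    rw [LinearMap.neg_apply] at hwc
    rw [neg_smul, ← hwc, neg_neg]
  set W1 : Submodule ℝ (QV n) := U ⊓ LinearMap.ker (HO q - (-c) • LinearMap.id) with hW1
  have hmem1 : ∀ v, v ∈ W1 ↔ v ∈ U ∧ HO q v = (-c) • v := by
    intro v
    rw [hW1, Submodule.mem_inf, LinearMap.mem_ker, LinearMap.sub_apply,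
      LinearMap.smul_apply, LinearMap.id_apply, sub_eq_zero]
  have hW1ne : W1 ≠ ⊥ := by
    intro h
    apply hw0
    rw [← Submodule.mem_bot ℝ, ← h, hmem1]
    exact ⟨hwU, hHw⟩
  have hW1r : Invar (qrho n) W1 := by
    intro s v hv
    rw [hmem1] at hv ⊢
    exact ⟨hUr s v hv.1, by rw [HO_qrho, hv.2, map_smul]⟩
  have hW1l : Invar (qlam n) W1 := by
    intro s v hv
    rw [hmem1] at hv ⊢
    exact ⟨hUl s v hv.1, by rw [HO_qlam, hv.2, map_smul]⟩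
  obtain ⟨t2, u, huW, hu0, hut, -⟩ := exists_min_eig (T2 (qrho n) (univ : Finset (Fin n)))
    (T2_symm (ρ := qrho n) qrho_inner _) W1 hW1ne (hT W1 hW1r)
  set W : Submodule ℝ (QV n) :=
    W1 ⊓ LinearMap.ker (T2 (qrho n) (univ : Finset (Fin n)) - t2 • LinearMap.id) with hW
  have hmem : ∀ v, v ∈ W ↔ v ∈ W1 ∧ T2 (qrho n) (univ : Finset (Fin n)) v = t2 • v := by
    intro v
    rw [hW, Submodule.mem_inf, LinearMap.mem_ker, LinearMap.sub_apply,
      LinearMap.smul_apply, LinearMap.id_apply, sub_eq_zero]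
  have hWne : W ≠ ⊥ := by
    intro h
    apply hu0
    rw [← Submodule.mem_bot ℝ, ← h, hmem]
    exact ⟨huW, hut⟩
  have hWr : Invar (qrho n) W := by
    intro s v hv
    rw [hmem] at hv ⊢
    exact ⟨hW1r s v hv.1, by rw [quad_T2_comm, hv.2, map_smul]⟩
  have hWl : Invar (qlam n) W := by
    intro s v hv
    rw [hmem] at hv ⊢
    exact ⟨hW1l s v hv.1, by rw [T2_qlam, hv.2, map_smul]⟩
  have hWU : W ≤ U := fun v hv => ((hmem1 v).1 ((hmem v).1 hv).1).1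
  have hn' : (10 : ℝ) ≤ n := by exact_mod_cast hn10
  have hab : 0 < ((n : ℝ) - 1) * ((n : ℝ) - 2) := mul_pos (by linarith) (by linarith)
  have hcoef : 0 < 2 * ((n : ℝ) - 1) * ((n : ℝ) - 2) := by
    rw [mul_assoc]
    linarith
  set κ : ℝ := (-c - (n.factorial : ℝ) * t2) / (2 * ((n : ℝ) - 1) * ((n : ℝ) - 2)) with hκ
  have hKW : ∀ v ∈ W, KO q v = κ • v := by
    intro v hv
    rw [hmem, hmem1] at hv
    obtain ⟨⟨-, h1⟩, h2⟩ := hv
    rw [HO_apply, h2, smul_smul] at h1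
    have h3 : (2 * ((n : ℝ) - 1) * ((n : ℝ) - 2)) • KO q v =
        (-c - (n.factorial : ℝ) * t2) • v := by
      rw [sub_smul, ← h1, add_sub_cancel_left]
    rw [hκ, div_eq_inv_mul, mul_smul, ← h3, smul_smul, inv_mul_cancel₀ hcoef.ne', one_smul]
  -- the gap
  have hgap : t2 ≤ (n : ℝ) * ((n : ℝ) - 5) := by
    have h1 : u ∈ (Lev n 2)ᗮ :=
      Submodule.orthogonal_le (lev_mono (by omega) (by omega)) ((hmem1 u).1 huW).1.1
    have h2 := gap (by omega) h1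
    rw [hut, inner_smul_left] at h2
    simp only [conj_trivial] at h2
    exact le_of_mul_le_mul_right h2 (real_inner_self_pos.2 hu0)
  -- the dimension and the trace
  have hdim := dim_bound (J := J) (by omega) hk hWne hWr hWl (fun v hv => (hWU hv).1)
    (fun v hv => (hWU hv).2)
  have htr := trace_bound q hKW
  have hdim' : (((n / 2).choose J : ℕ) : ℝ) ^ 2 ≤ (Module.finrank ℝ W : ℝ) := by
    exact_mod_cast hdim
  have hC : (0 : ℝ) < (((n / 2).choose J : ℕ) : ℝ) := by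
    exact_mod_cast Nat.choose_pos (by omega)
  have hc' : (cent q : ℝ) * (((n : ℝ) - 1) * ((n : ℝ) - 2)) ^ 2
      ≤ 4 * (((n / 2).choose J : ℕ) : ℝ) ^ 2 := by
    have h1 : ((cent q * ((n - 1) ^ 2 * (n - 2) ^ 2) : ℕ) : ℝ)
        ≤ ((4 * ((n / 2).choose J) ^ 2 : ℕ) : ℝ) := by exact_mod_cast hc
    push_cast [Nat.cast_sub (show 1 ≤ n by omega), Nat.cast_sub (show 2 ≤ n by omega)] at h1
    rw [mul_pow]
    exact h1
  have hκ2 : κ * (((n : ℝ) - 1) * ((n : ℝ) - 2)) ≤ 2 * (n.factorial : ℝ) := by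
    have hF : (0 : ℝ) ≤ 2 * (n.factorial : ℝ) := by positivity
    refine abs_le_of_sq_le_sq' ?_ hF |>.2
    have h1 : κ ^ 2 * (((n / 2).choose J : ℕ) : ℝ) ^ 2
        ≤ (n.factorial : ℝ) ^ 2 * (cent q : ℝ) :=
      (mul_le_mul_of_nonneg_left hdim' (sq_nonneg κ)).trans htr
    have h2 := mul_le_mul_of_nonneg_right h1 (sq_nonneg (((n : ℝ) - 1) * ((n : ℝ) - 2)))
    have h3 := mul_le_mul_of_nonneg_left hc' (sq_nonneg (n.factorial : ℝ))
    have h4 : (κ * (((n : ℝ) - 1) * ((n : ℝ) - 2))) ^ 2 * (((n / 2).choose J : ℕ) : ℝ) ^ 2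
        ≤ (2 * (n.factorial : ℝ)) ^ 2 * (((n / 2).choose J : ℕ) : ℝ) ^ 2 := by
      calc (κ * (((n : ℝ) - 1) * ((n : ℝ) - 2))) ^ 2 * (((n / 2).choose J : ℕ) : ℝ) ^ 2
          = κ ^ 2 * (((n / 2).choose J : ℕ) : ℝ) ^ 2 * (((n : ℝ) - 1) * ((n : ℝ) - 2)) ^ 2 := by
            ring
        _ ≤ (n.factorial : ℝ) ^ 2 * (cent q : ℝ) * (((n : ℝ) - 1) * ((n : ℝ) - 2)) ^ 2 := h2
        _ = (n.factorial : ℝ) ^ 2 * ((cent q : ℝ) * (((n : ℝ) - 1) * ((n : ℝ) - 2)) ^ 2) := by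
            ring
        _ ≤ (n.factorial : ℝ) ^ 2 * (4 * (((n / 2).choose J : ℕ) : ℝ) ^ 2) := h3
        _ = (2 * (n.factorial : ℝ)) ^ 2 * (((n / 2).choose J : ℕ) : ℝ) ^ 2 := by ring
    exact le_of_mul_le_mul_right h4 (pow_pos hC 2)
  have hh : -c = (n.factorial : ℝ) * t2 + 2 * ((n : ℝ) - 1) * ((n : ℝ) - 2) * κ := by
    have h0 : κ * (2 * ((n : ℝ) - 1) * ((n : ℝ) - 2)) = -c - (n.factorial : ℝ) * t2 :=
      div_mul_cancel₀ _ hcoef.ne'
    linarith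
  have hle : -c ≤ (n.factorial : ℝ) * (((n : ℝ) - 1) * ((n : ℝ) - 4)) := by
    have h1 := mul_le_mul_of_nonneg_left hgap (Nat.cast_nonneg (α := ℝ) n.factorial)
    rw [hh]
    nlinarith [h1, hκ2]
  have h1 := hmin f hf
  rw [LinearMap.neg_apply, inner_neg_left] at h1
  have h2 : 0 ≤ ⟪f, f⟫_ℝ := real_inner_self_nonneg
  nlinarith [mul_le_mul_of_nonneg_right hle h2]

end Pool.H60.TP
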