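import Pool.Agent.H60.TP.HLev
import Pool.Agent.H60.TP.PartB
import Pool.Agent.H60.TP.PartC

set_option autoImplicit false

/-!
# Top scale: permutations without short cycles and with few commuting permutations are good
-/

open Finset Equiv Pool.H98.BE
open scoped InnerProductSpace

namespace Pool.H60.TP

private theorem HO_mem {n : ℕ} (q : Perm (Fin n)) {F : Submodule ℝ (QV n)}
    (hF : Invar (qrho n) F) {f : QV n} (hf : f ∈ F) : HO q f ∈ F := by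
  rw [HO_apply, quad_T2_apply, KO_apply]
  exact F.add_mem (F.smul_mem _ (F.sum_mem fun x _ => F.sum_mem fun y _ => hF _ _ hf))
    (F.smul_mem _ (F.sum_mem fun g _ => hF _ _ hf))

theorem good_of {n J : ℕ} (hJ : 2 ≤ J) (hk : 2 * J + 1 ≤ n / 2)
    (hj : 2 * (2 * J - 2) ≤ n / 2) {q : Perm (Fin n)} (hq : NoShort q (2 * J - 2))
    (hs : Perm.sign q = 1 ∨ Perm.sign q = (-1) ^ (n - 1))
    (hc : cent q * ((n - 1) ^ 2 * (n - 2) ^ 2) ≤ 4 * ((n / 2).choose J) ^ 2) :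
    Good q := by
  intro f hf
  obtain ⟨j, hjj⟩ : ∃ j, j = 2 * J - 2 := ⟨_, rfl⟩
  have hLS : ∀ x ∈ Lev n j, ∀ y ∈ SLev n j, ⟪x, y⟫_ℝ = 0 := by
    intro x hx y hy
    obtain ⟨g, hg, rfl⟩ := hy
    exact lev_orth (by omega) hx hg
  obtain ⟨a, ha, r, hr, hfa⟩ := (Lev n j).exists_add_mem_mem_orthogonal f
  obtain ⟨b, hb, c, hcS, hrb⟩ := (SLev n j).exists_add_mem_mem_orthogonal r
  have hcL : c ∈ (Lev n j)ᗮ := by
    rw [Submodule.mem_orthogonal]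
    intro x hx
    have h1 : ⟪x, r⟫_ℝ = 0 := (Submodule.mem_orthogonal _ _).1 hr x hx
    rw [hrb, inner_add_right, hLS x hx b hb, zero_add] at h1
    exact h1
  have hLc : ∀ x ∈ Lev n j, ⟪x, c⟫_ℝ = 0 := (Submodule.mem_orthogonal _ _).1 hcL
  have hSc : ∀ x ∈ SLev n j, ⟪x, c⟫_ℝ = 0 := (Submodule.mem_orthogonal _ _).1 hcS
  have hHa : HO q a ∈ Lev n j := HO_mem q (lev_right n j) ha
  have hHb : HO q b ∈ SLev n j := HO_mem q (slev_right n j) hb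
  have hab : ⟪HO q a, b⟫_ℝ = 0 := hLS _ hHa _ hb
  have hac : ⟪HO q a, c⟫_ℝ = 0 := hLc _ hHa
  have hba : ⟪HO q b, a⟫_ℝ = 0 := by rw [real_inner_comm]; exact hLS _ ha _ hHb
  have hbc : ⟪HO q b, c⟫_ℝ = 0 := hSc _ hHb
  have hca : ⟪HO q c, a⟫_ℝ = 0 := by rw [HO_symm q c a, real_inner_comm]; exact hac
  have hcb : ⟪HO q c, b⟫_ℝ = 0 := by rw [HO_symm q c b, real_inner_comm]; exact hbc
  have hab' : ⟪a, b⟫_ℝ = 0 := hLS a ha b hb
  have hac' : ⟪a, c⟫_ℝ = 0 := hLc a ha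
  have hbc' : ⟪b, c⟫_ℝ = 0 := hSc b hb
  have hba' : ⟪b, a⟫_ℝ = 0 := by rw [real_inner_comm]; exact hab'
  have hca' : ⟪c, a⟫_ℝ = 0 := by rw [real_inner_comm]; exact hac'
  have hcb' : ⟪c, b⟫_ℝ = 0 := by rw [real_inner_comm]; exact hbc'
  have hone : (WithLp.toLp 2 (fun _ => (1 : ℝ)) : QV n) ∈ Lev n j :=
    const_mem_lev j (by omega) 1
  have hsum : ∀ x : QV n, ⟪(WithLp.toLp 2 (fun _ => (1 : ℝ)) : QV n), x⟫_ℝ = qsum n x := by
    intro x
    rw [qinner, qsum_apply]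
    exact Finset.sum_congr rfl fun t _ => one_mul _
  have hsa : qsum n a = 0 := by
    have h1 : qsum n b = 0 := by rw [← hsum]; exact hLS _ hone _ hb
    have h2 : qsum n c = 0 := by rw [← hsum]; exact hLc _ hone
    rw [hfa, hrb, map_add, map_add, h1, h2] at hf
    simpa using hf
  have hA := ho_lev (q := q) (by omega) (by omega) (by rw [hjj]; exact hq) ha hsa
  have hB := ho_slev (q := q) (n := n) (j := j) (by omega) (by omega) (by rw [hjj]; exact hq) hs hb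
  have hC := ho_rest (q := q) hJ hk hc (f := c) (by rw [← hjj]; exact ⟨hcL, hcS⟩)
  have e1 : ⟪HO q f, f⟫_ℝ = ⟪HO q a, a⟫_ℝ + ⟪HO q b, b⟫_ℝ + ⟪HO q c, c⟫_ℝ := by
    rw [hfa, hrb, map_add, map_add]
    simp only [inner_add_left, inner_add_right]
    rw [hab, hac, hba, hbc, hca, hcb]
    ring
  have e2 : ⟪f, f⟫_ℝ = ⟪a, a⟫_ℝ + ⟪b, b⟫_ℝ + ⟪c, c⟫_ℝ := by
    rw [hfa, hrb]
    simp only [inner_add_left, inner_add_right]
    rw [hab', hac', hba', hbc', hca', hcb']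
    ring
  rw [e1, e2]
  linarith

end Pool.H60.TP
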