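import Pool.Agent.H60.TP.CountI

set_option autoImplicit false

/-!
# Top scale: the operator of a conjugacy class on the functions of few values
-/

open Finset Equiv Pool.H98.BE

namespace Pool.H60.TP

private theorem klev_sum_apply {n : ℕ} {ι : Type} (s : Finset ι) (v : ι → QV n) (t : Perm (Fin n)) :
    (∑ i ∈ s, v i) t = ∑ i ∈ s, v i t := by
  classical
  induction s using Finset.induction_on with
  | empty =>
    rw [sum_empty, sum_empty]
    rfl
  | insert a s ha ih =>
    rw [sum_insert ha, sum_insert ha, ← ih]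
    rfl

/-- the sum over the conjugates of a full cycle -/
private theorem klev_conj_cyc {n : ℕ} (hn2 : 2 ≤ n) (F : Perm (Fin n) → ℝ) {q : Perm (Fin n)}
    (hq : q ∈ cyc (univ : Finset (Fin n))) :
    ∑ g : Perm (Fin n), F (g⁻¹ * q * g) = n * ∑ σ ∈ cyc (univ : Finset (Fin n)), F σ := by
  have hcard : (cyc (univ : Finset (Fin n))).card = (n - 1).factorial := by
    rw [card_cyc (by rw [card_univ, Fintype.card_fin]; omega), card_univ, Fintype.card_fin]
  have hconst : ∀ q' ∈ cyc (univ : Finset (Fin n)),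
      ∑ g : Perm (Fin n), F (g⁻¹ * q' * g) = ∑ g : Perm (Fin n), F (g⁻¹ * q * g) := by
    intro q' hq'
    have h1 := mem_cyc.1 hq
    have h2 := mem_cyc.1 hq'
    have hconj : IsConj q q' := Equiv.Perm.IsCycle.isConj h1.1 h2.1 (by rw [h1.2, h2.2])
    obtain ⟨h, hh⟩ := isConj_iff.1 hconj
    rw [← Equiv.sum_comp (Equiv.mulLeft h) (fun g => F (g⁻¹ * q' * g))]
    refine Finset.sum_congr rfl fun g _ => ?_
    congr 1
    rw [Equiv.coe_mulLeft, ← hh]
    group
  have hcyc : ∀ g : Perm (Fin n), ∑ q' ∈ cyc (univ : Finset (Fin n)), F (g⁻¹ * q' * g) =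
      ∑ σ ∈ cyc (univ : Finset (Fin n)), F σ := by
    intro g
    refine Finset.sum_bij' (fun q' _ => g⁻¹ * q' * g) (fun q' _ => g * q' * g⁻¹) ?_ ?_ ?_ ?_ ?_
    · intro q' hq'
      have := conj_mem_cyc (τ := g⁻¹) hq' (fun x => by simp)
      rwa [inv_inv] at this
    · intro q' hq'
      exact conj_mem_cyc (τ := g) hq' (fun x => by simp)
    · intro q' _
      group
    · intro q' _
      group
    · intro q' _
      rfl
  have htot : ∑ q' ∈ cyc (univ : Finset (Fin n)), ∑ g : Perm (Fin n), F (g⁻¹ * q' * g) =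
      ((n - 1).factorial : ℝ) * ∑ g : Perm (Fin n), F (g⁻¹ * q * g) := by
    rw [Finset.sum_congr rfl hconst, sum_const, hcard, nsmul_eq_mul]
  rw [Finset.sum_comm, Finset.sum_congr rfl (fun g _ => hcyc g), sum_const, card_univ,
    Fintype.card_perm, Fintype.card_fin, nsmul_eq_mul] at htot
  have hfac : (n.factorial : ℝ) = (n - 1).factorial * n := by
    rw [mul_comm]
    exact_mod_cast (Nat.mul_factorial_pred (by omega : n ≠ 0)).symm
  rw [hfac, mul_assoc] at htot
  exact (mul_left_cancel₀ (by exact_mod_cast Nat.factorial_ne_zero _) htot).symm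

/-- `f` does not change under the permutations which fix `I` -/
private theorem klev_fix {n : ℕ} {I : Finset (Fin n)} {f : QV n} (hf : Fixes (qrho n) I f)
    {s : Perm (Fin n)} (hs : ∀ i ∈ I, s i = i) (t : Perm (Fin n)) : f (t * s) = f t := by
  have key : ∀ s' : Perm {x : Fin n // x ∉ I}, ∀ t : Perm (Fin n), f (t * Perm.ofSubtype s') = f t := by
    intro s'
    refine Perm.swap_induction_on s' ?_ ?_
    · intro t
      rw [map_one, mul_one]
    · intro s'' x y _ ih t
      rw [map_mul, Perm.ofSubtype_swap_eq, ← mul_assoc, ih]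
      have h1 := hf x.1 y.1 x.2 y.2
      have h2 : qrho n (Equiv.swap x.1 y.1) f t = f t := by rw [h1]
      exact h2
  have h1 : ∀ x, s x ∉ I ↔ x ∉ I := by
    intro x
    rw [not_iff_not]
    constructor
    · intro hx
      have h3 := s.injective (hs _ hx)
      rwa [h3] at hx
    · intro hx
      rw [hs x hx]
      exact hx
  have h2 : ∀ x, s x ≠ x → x ∉ I := fun x hx hxI => hx (hs x hxI)
  have h3 := key (s.subtypePerm h1) t
  rwa [Perm.ofSubtype_subtypePerm h1 h2] at h3

private theorem klev_agree {n : ℕ} {I : Finset (Fin n)} {f : QV n} (hf : Fixes (qrho n) I f)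
    {s s' : Perm (Fin n)} (hs : ∀ i ∈ I, s i = s' i) (t : Perm (Fin n)) : f (t * s') = f (t * s) := by
  have h1 := klev_fix hf (s := s⁻¹ * s') (fun i hi => by
    rw [Perm.mul_apply, ← hs i hi]
    exact s.symm_apply_apply i) (t * s)
  have h2 : t * s * (s⁻¹ * s') = t * s' := by group
  rwa [h2] at h1

/-- the sum over the permutations which agree with `σ` on `I` -/
private theorem klev_mean {n : ℕ} {I : Finset (Fin n)} {a : Perm (Fin n) → ℝ}
    (ha : ∀ s s' : Perm (Fin n), (∀ i ∈ I, s i = s' i) → a s' = a s) (σ : Perm (Fin n)) :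
    ∑ φ : Perm (Fin n), (if ∀ i ∈ I, σ i = φ i then a φ else 0) =
      ((univ.filter (fun ψ : Perm (Fin n) => ∀ i ∈ I, ψ i = i)).card : ℝ) * a σ := by
  rw [← Finset.sum_filter]
  have h1 : ∀ φ ∈ univ.filter (fun φ : Perm (Fin n) => ∀ i ∈ I, σ i = φ i), a φ = a σ := by
    intro φ hφ
    exact ha σ φ (mem_filter.1 hφ).2
  rw [Finset.sum_congr rfl h1, sum_const, nsmul_eq_mul]
  congr 2
  refine Finset.card_bij' (fun φ _ => σ⁻¹ * φ) (fun ψ _ => σ * ψ) ?_ ?_ ?_ ?_
  · intro φ hφ
    rw [mem_filter] at hφ ⊢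
    refine ⟨mem_univ _, fun i hi => ?_⟩
    rw [Perm.mul_apply, ← hφ.2 i hi]
    exact σ.symm_apply_apply i
  · intro ψ hψ
    rw [mem_filter] at hψ ⊢
    refine ⟨mem_univ _, fun i hi => ?_⟩
    rw [Perm.mul_apply, hψ.2 i hi]
  · intro φ _
    group
  · intro ψ _
    group

private theorem klev_sum {n j : ℕ} (hj : j < n) {q q' : Perm (Fin n)} (hq : NoShort q j)
    (hq' : NoShort q' j) {I : Finset (Fin n)} (hI : I.card ≤ j) {a : Perm (Fin n) → ℝ}
    (ha : ∀ s s' : Perm (Fin n), (∀ i ∈ I, s i = s' i) → a s' = a s) :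
    ∑ g : Perm (Fin n), a (g⁻¹ * q * g) = ∑ g : Perm (Fin n), a (g⁻¹ * q' * g) := by
  have key : ∀ p : Perm (Fin n),
      ((univ.filter (fun ψ : Perm (Fin n) => ∀ i ∈ I, ψ i = i)).card : ℝ) *
          ∑ g : Perm (Fin n), a (g⁻¹ * p * g) =
        ∑ φ : Perm (Fin n),
          ((univ.filter (fun g : Perm (Fin n) => ∀ i ∈ I, (g⁻¹ * p * g) i = φ i)).card : ℝ) * a φ := by
    intro p
    rw [mul_sum]
    rw [Finset.sum_congr rfl fun g _ => (klev_mean ha (g⁻¹ * p * g)).symm, Finset.sum_comm]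
    refine Finset.sum_congr rfl fun φ _ => ?_
    rw [← Finset.sum_filter, sum_const, nsmul_eq_mul]
  have h1 : ((univ.filter (fun ψ : Perm (Fin n) => ∀ i ∈ I, ψ i = i)).card : ℝ) ≠ 0 := by
    rw [Nat.cast_ne_zero, Finset.card_ne_zero]
    exact ⟨1, mem_filter.2 ⟨mem_univ _, fun i _ => rfl⟩⟩
  refine mul_left_cancel₀ h1 ?_
  rw [key q, key q']
  refine Finset.sum_congr rfl fun φ _ => ?_
  rw [count_eq hj hq hq' I hI φ]

private theorem klev_noShort {n j : ℕ} (hj : j < n) {q : Perm (Fin n)}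
    (hq : q ∈ cyc (univ : Finset (Fin n))) : NoShort q j := by
  intro i h1 h2 x hx
  obtain ⟨h3, h4⟩ := mem_cyc.1 hq
  have h5 : q x ≠ x := by
    rw [← Perm.mem_support, h4]
    exact mem_univ x
  have h6 : q ^ i = 1 := (h3.pow_eq_one_iff' h5).2 hx
  have h7 := orderOf_dvd_of_pow_eq_one h6
  rw [h3.orderOf, h4, card_univ, Fintype.card_fin] at h7
  have := Nat.le_of_dvd (by omega) h7
  omega

theorem KO_lev {n j : ℕ} (hn : 3 ≤ n) (hj : j < n) {q : Perm (Fin n)} (hq : NoShort q j)
    {f : QV n} (hf : f ∈ Lev n j) :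
    KO q f = (n : ℝ) • C (qrho n) (univ : Finset (Fin n)) f := by
  obtain ⟨q', hq'⟩ : (cyc (univ : Finset (Fin n))).Nonempty := by
    rw [← Finset.card_pos, card_cyc (by rw [card_univ, Fintype.card_fin]; omega)]
    exact Nat.factorial_pos _
  have key : ∀ (I : Finset (Fin n)) (f : QV n), I.card = j → Fixes (qrho n) I f →
      KO q f = (n : ℝ) • C (qrho n) (univ : Finset (Fin n)) f := by
    intro I f hI hfI
    ext t
    have h1 : KO q f t = ∑ g : Perm (Fin n), f (t * (g⁻¹ * q * g)) := by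
      rw [KO_apply, klev_sum_apply]
      rfl
    have h2 : ((n : ℝ) • C (qrho n) (univ : Finset (Fin n)) f) t =
        (n : ℝ) * ∑ σ ∈ cyc (univ : Finset (Fin n)), f (t * σ) := by
      rw [quad_C_apply]
      change (n : ℝ) * (∑ σ ∈ cyc (univ : Finset (Fin n)), qrho n σ f) t = _
      rw [klev_sum_apply]
      rfl
    rw [h1, h2, klev_sum hj hq (klev_noShort hj hq') hI.le (a := fun s => f (t * s))
      (fun s s' hs => klev_agree hfI hs t)]
    exact klev_conj_cyc (by omega) (fun s => f (t * s)) hq'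
  unfold Lev at hf
  induction hf using Submodule.span_induction with
  | mem f hf =>
    obtain ⟨I, hI, hfI⟩ := hf
    exact key I f hI hfI
  | zero => rw [map_zero, map_zero, smul_zero]
  | add f g _ _ h1 h2 => rw [map_add, map_add, h1, h2, smul_add]
  | smul c f _ h1 => rw [map_smul, map_smul, h1, smul_comm]

end Pool.H60.TP
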