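import Pool.Agent.H60.TP.PatDec

set_option autoImplicit false

/-!
# Top scale: without middle patterns the part with small patterns is invariant
-/

open Finset Equiv Pool.H98.BE
open scoped InnerProductSpace

namespace Pool.H60.TP

variable {n : ℕ} {V : Type*} [NormedAddCommGroup V] [InnerProductSpace ℝ V]
variable {ρ : Perm (Fin n) →* (V →ₗ[ℝ] V)}

private theorem li_mul (σ τ : Perm (Fin n)) (v : V) : ρ (σ * τ) v = ρ σ (ρ τ v) := by
  rw [map_mul]
  rfl

private theorem li_one (v : V) : ρ 1 v = v := by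
  rw [map_one]
  rfl

private theorem li_swap (x y : Fin n) (v : V) : ρ (Equiv.swap x y) (ρ (Equiv.swap x y) v) = v := by
  rw [← li_mul, Equiv.swap_mul_self, li_one]

private theorem li_comm {x y : Fin n} {i : Fin (n / 2)} (hx : i.1 ≠ x.1 / 2) (hy : i.1 ≠ y.1 / 2) :
    pt i * Equiv.swap x y = Equiv.swap x y * pt i := by
  have h : ∀ z : Fin n, i.1 ≠ z.1 / 2 → pt i z = z := by
    intro z hz
    refine Equiv.swap_apply_of_ne_of_ne ?_ ?_
    · intro h
      apply hz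
      rw [h]
      change i.1 = 2 * i.1 / 2
      omega
    · intro h
      apply hz
      rw [h]
      change i.1 = (2 * i.1 + 1) / 2
      omega
  rw [Equiv.mul_swap_eq_swap_mul, h x hx, h y hy]

private theorem li_exists {J : ℕ} {B C : Finset (Fin (n / 2))} (hB : B.card < J) (hC : J + 2 ≤ C.card) (x y : Fin n) :
    ∃ i ∈ C, i ∉ B ∧ i.1 ≠ x.1 / 2 ∧ i.1 ≠ y.1 / 2 := by
  classical
  by_contra hcon
  push Not at hcon
  have h1 : C ⊆ B ∪ (univ.filter fun i : Fin (n / 2) => i.1 = x.1 / 2 ∨ i.1 = y.1 / 2) := by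
    intro i hi
    rw [mem_union, mem_filter]
    by_cases h : i ∈ B
    · exact Or.inl h
    · right
      refine ⟨mem_univ _, ?_⟩
      by_cases h2 : i.1 = x.1 / 2
      · exact Or.inl h2
      · exact Or.inr (hcon i hi h h2)
  have h2 : (univ.filter fun i : Fin (n / 2) => i.1 = x.1 / 2 ∨ i.1 = y.1 / 2).card ≤ 2 := by
    refine le_trans (Finset.card_le_card_of_injOn (t := ({x.1 / 2, y.1 / 2} : Finset ℕ)) (fun i => i.1) ?_
      Fin.val_injective.injOn) Finset.card_le_two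
    intro i hi
    have hi' := (mem_filter.1 hi).2
    simpa using hi'
  have h3 := (card_le_card h1).trans (card_union_le _ _)
  omega

theorem low_part (hρ : ∀ (σ : Perm (Fin n)) (u v : V), ⟪ρ σ u, ρ σ v⟫_ℝ = ⟪u, v⟫_ℝ)
    {F : Submodule ℝ V} (hF : Invar ρ F) {J : ℕ} (hk : 2 * J + 1 ≤ n / 2)
    (hmid : ∀ B v, v ∈ F → Pat ρ B v → J ≤ B.card → B.card + J ≤ n / 2 → v = 0)
    {v : V} (hv : v ∈ F) {B : Finset (Fin (n / 2))} (hB : B.card < J) (hp : Pat ρ B v) :
    ∃ L : Submodule ℝ V, L ≤ F ∧ Invar ρ L ∧ v ∈ L ∧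
      ∀ B' u, u ∈ L → Pat ρ B' u → u ≠ 0 → B'.card < J := by
  classical
  let L : Submodule ℝ V :=
    { carrier := {w | w ∈ F ∧ ∀ C : Finset (Fin (n / 2)), J ≤ C.card → ∀ u, Pat ρ C u → ⟪u, w⟫_ℝ = 0}
      add_mem' := by
        rintro a b ⟨ha, ha'⟩ ⟨hb, hb'⟩
        refine ⟨F.add_mem ha hb, fun C hC u hu => ?_⟩
        rw [inner_add_right, ha' C hC u hu, hb' C hC u hu, add_zero]
      zero_mem' := ⟨F.zero_mem, fun C _ u _ => inner_zero_right u⟩
      smul_mem' := by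
        rintro c a ⟨ha, ha'⟩
        refine ⟨F.smul_mem c ha, fun C hC u hu => ?_⟩
        rw [inner_smul_right, ha' C hC u hu, mul_zero] }
  have hL : ∀ w, w ∈ L ↔ w ∈ F ∧ ∀ C : Finset (Fin (n / 2)), J ≤ C.card → ∀ u, Pat ρ C u → ⟪u, w⟫_ℝ = 0 :=
    fun w => Iff.rfl
  have hcomp : ∀ (C : Finset (Fin (n / 2))) (u : V), Pat ρ C u → ∀ x : Finset (Fin (n / 2)) → V,
      (∀ B, Pat ρ B (x B)) → ⟪u, ∑ B, x B⟫_ℝ = ⟪u, x C⟫_ℝ := by
    intro C u hu x hx
    rw [inner_sum]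
    refine Finset.sum_eq_single C (fun B _ hne => ?_) (fun h => absurd (Finset.mem_univ _) h)
    exact pat_orth hρ (Ne.symm hne) hu (hx B)
  have hswap : ∀ x y : Fin n, ∀ w ∈ L, ρ (Equiv.swap x y) w ∈ L := by
    intro x y w hw
    obtain ⟨hwF, hw'⟩ := (hL w).1 hw
    refine (hL _).2 ⟨hF _ w hwF, fun C hC u hu => ?_⟩
    by_cases hcase : C.card + J ≤ n / 2
    · obtain ⟨z, hz, hz'⟩ := pat_dec hF (hF (Equiv.swap x y) w hwF)
      rw [hz', hcomp C u hu z fun B => (hz B).2, hmid C (z C) (hz C).1 (hz C).2 hC hcase, inner_zero_right]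
    · have hC2 : J + 2 ≤ C.card := by omega
      have e1 : ⟪u, ρ (Equiv.swap x y) w⟫_ℝ = ⟪ρ (Equiv.swap x y) u, w⟫_ℝ := by
        rw [← hρ (Equiv.swap x y) (ρ (Equiv.swap x y) u) w, li_swap]
      obtain ⟨z, hz, hz'⟩ := pat_dec hF hwF
      rw [e1, hz', inner_sum]
      refine Finset.sum_eq_zero fun B _ => ?_
      by_cases hBJ : J ≤ B.card
      · have h1 := hw' B hBJ (z B) (hz B).2
        rw [hz', hcomp B (z B) (hz B).2 z fun B => (hz B).2] at h1
        rw [inner_self_eq_zero.1 h1, inner_zero_right]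
      · obtain ⟨i, hiC, hiB, hix, hiy⟩ := li_exists (not_le.1 hBJ) hC2 x y
        refine pat_orth' hρ (σ := pt i) ?_ ?_
        · rw [← li_mul, li_comm hix hiy, li_mul, hu i, if_pos hiC, map_neg]
        · rw [(hz B).2 i, if_neg hiB]
  refine ⟨L, fun w hw => ((hL w).1 hw).1, ?_, ?_, ?_⟩
  · intro σ
    refine Equiv.Perm.swap_induction_on σ ?_ ?_
    · intro w hw
      rw [li_one]
      exact hw
    · intro f x y _ ih w hw
      rw [li_mul]
      exact hswap x y _ (ih w hw)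
  · refine (hL v).2 ⟨hv, fun C hC u hu => pat_orth hρ ?_ hu hp⟩
    intro h
    rw [h] at hC
    omega
  · intro B' u hu hp' hne
    by_contra hcon
    have h1 := ((hL u).1 hu).2 B' (not_lt.1 hcon) u hp'
    exact hne (inner_self_eq_zero.1 h1)

end Pool.H60.TP
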