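import Pool.Agent.H60.TP.LowFix
import Pool.Agent.H60.TP.LowInv

set_option autoImplicit false

/-!
# Top scale: a middle pattern
-/

open Finset Equiv Pool.H98.BE
open scoped InnerProductSpace

namespace Pool.H60.TP

variable {n : ℕ} {V : Type*} [NormedAddCommGroup V] [InnerProductSpace ℝ V]
variable {ρ : Perm (Fin n) →* (V →ₗ[ℝ] V)}

/-- the representation twisted by the sign -/
private noncomputable def LemDtw (ρ : Perm (Fin n) →* (V →ₗ[ℝ] V)) : Perm (Fin n) →* (V →ₗ[ℝ] V) where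
  toFun σ := ((Perm.sign σ : ℤ) : ℝ) • ρ σ
  map_one' := by
    rw [Perm.sign_one, map_one]
    simp
  map_mul' σ τ := by
    rw [Perm.sign_mul, map_mul]
    push_cast
    rw [smul_mul_smul_comm]

private theorem LemDtw_apply (ρ : Perm (Fin n) →* (V →ₗ[ℝ] V)) (σ : Perm (Fin n)) (v : V) :
    LemDtw ρ σ v = ((Perm.sign σ : ℤ) : ℝ) • ρ σ v := rfl

private theorem LemDtw_swap (ρ : Perm (Fin n) →* (V →ₗ[ℝ] V)) {x y : Fin n} (h : x ≠ y) (v : V) :
    LemDtw ρ (Equiv.swap x y) v = -(ρ (Equiv.swap x y) v) := by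
  rw [LemDtw_apply, Perm.sign_swap h]
  simp

private theorem LemDtw_orth (hρ : ∀ (σ : Perm (Fin n)) (u v : V), ⟪ρ σ u, ρ σ v⟫_ℝ = ⟪u, v⟫_ℝ)
    (σ : Perm (Fin n)) (u v : V) : ⟪LemDtw ρ σ u, LemDtw ρ σ v⟫_ℝ = ⟪u, v⟫_ℝ := by
  rw [LemDtw_apply, LemDtw_apply, inner_smul_left, inner_smul_right, hρ, ← mul_assoc]
  simp only [conj_trivial]
  rw [sign_sq, one_mul]

private theorem LemDpa_ne (i : Fin (n / 2)) : (pa i : Fin n) ≠ pb i := by
  intro h
  have := congrArg Fin.val h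
  simp only [pa, pb] at this
  omega

private theorem LemD_pat {B : Finset (Fin (n / 2))} {v : V} :
    Pat (LemDtw ρ) B v ↔ Pat ρ Bᶜ v := by
  classical
  unfold Pat
  refine forall_congr' fun i => ?_
  rw [pt, LemDtw_swap ρ (LemDpa_ne i)]
  by_cases h : i ∈ B
  · rw [if_pos h, if_neg (fun h' => (Finset.mem_compl.1 h') h), neg_inj]
  · rw [if_neg h, if_pos (Finset.mem_compl.2 h), neg_eq_iff_eq_neg]

theorem lemD (hρ : ∀ (σ : Perm (Fin n)) (u v : V), ⟪ρ σ u, ρ σ v⟫_ℝ = ⟪u, v⟫_ℝ)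
    {F : Submodule ℝ V} (hF : Invar ρ F) (hne : F ≠ ⊥) {J : ℕ} (hJ : 1 ≤ J)
    (hk : 2 * J + 1 ≤ n / 2)
    (h1 : ∀ I : Finset (Fin n), I.card = 2 * J - 2 → ∀ v ∈ F, Fixes ρ I v → v = 0)
    (h2 : ∀ I : Finset (Fin n), I.card = 2 * J - 2 → ∀ v ∈ F, SFixes ρ I v → v = 0) :
    ∃ B : Finset (Fin (n / 2)), J ≤ B.card ∧ B.card + J ≤ n / 2 ∧
      ∃ v ∈ F, v ≠ 0 ∧ Pat ρ B v := by
  classical
  by_contra hcon
  have hmid : ∀ B v, v ∈ F → Pat ρ B v → J ≤ B.card → B.card + J ≤ n / 2 → v = 0 := by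
    intro B v hv hp hB1 hB2
    by_contra hv0
    exact hcon ⟨B, hB1, hB2, v, hv, hv0, hp⟩
  obtain ⟨v, hv, hv0⟩ := Submodule.exists_mem_ne_zero_of_ne_bot hne
  obtain ⟨w, hw, hvw⟩ := pat_dec hF hv
  obtain ⟨B, hB⟩ : ∃ B, w B ≠ 0 := by
    by_contra h
    push Not at h
    apply hv0
    rw [hvw]
    exact Finset.sum_eq_zero fun B _ => h B
  have hcard : Bᶜ.card = n / 2 - B.card := by rw [Finset.card_compl, Fintype.card_fin]
  have hle : B.card ≤ n / 2 := by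
    have := Finset.card_le_univ B
    rwa [Fintype.card_fin] at this
  rcases Nat.lt_or_ge B.card J with hlt | hge
  · obtain ⟨L, hLF, hL, hvL, hlow⟩ := low_part hρ hF hk hmid (hw B).1 hlt (hw B).2
    have hLne : L ≠ ⊥ := fun h => hB (by rw [h] at hvL; exact (Submodule.mem_bot ℝ).1 hvL)
    obtain ⟨I, hI, u, hu, hu0, hfix⟩ := low_fixed hL hLne hJ (by omega) hlow
    exact hu0 (h1 I hI u (hLF hu) hfix)
  · rcases Nat.lt_or_ge (n / 2) (B.card + J) with hlt | hle2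
    · have hF' : Invar (LemDtw ρ) F := by
        intro σ u hu
        rw [LemDtw_apply]
        exact F.smul_mem _ (hF σ u hu)
      have hmid' : ∀ B₁ u, u ∈ F → Pat (LemDtw ρ) B₁ u → J ≤ B₁.card → B₁.card + J ≤ n / 2 → u = 0 := by
        intro B₁ u hu hp hc1 hc2
        have hc : B₁ᶜ.card = n / 2 - B₁.card := by rw [Finset.card_compl, Fintype.card_fin]
        exact hmid B₁ᶜ u hu (LemD_pat.1 hp) (by omega) (by omega)
      have hpB : Pat (LemDtw ρ) Bᶜ (w B) := by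
        rw [LemD_pat, compl_compl]
        exact (hw B).2
      obtain ⟨L, hLF, hL, hvL, hlow⟩ := low_part (LemDtw_orth hρ) hF' hk hmid' (hw B).1 (by omega) hpB
      have hLne : L ≠ ⊥ := fun h => hB (by rw [h] at hvL; exact (Submodule.mem_bot ℝ).1 hvL)
      obtain ⟨I, hI, u, hu, hu0, hfix⟩ := low_fixed hL hLne hJ (by omega) hlow
      refine hu0 (h2 I hI u (hLF hu) ?_)
      intro x y hx hy hxy
      have h3 := hfix x y hx hy
      rw [LemDtw_swap ρ hxy] at h3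
      exact neg_eq_iff_eq_neg.1 h3
    · exact hB (hmid B _ (hw B).1 (hw B).2 hge hle2)

end Pool.H60.TP
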