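import Pool.Agent.H60.TP.PatDec

set_option autoImplicit false

/-!
# Top scale: an invariant subspace with small patterns only contains fixed vectors
-/

open Finset Equiv Pool.H98.BE
open scoped InnerProductSpace

namespace Pool.H60.TP

variable {n : ℕ} {V : Type*} [NormedAddCommGroup V] [InnerProductSpace ℝ V]
variable {ρ : Perm (Fin n) →* (V →ₗ[ℝ] V)}

theorem lowFix_mul (ρ : Perm (Fin n) →* (V →ₗ[ℝ] V)) (σ τ : Perm (Fin n)) (v : V) :
    ρ σ (ρ τ v) = ρ (σ * τ) v := by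
  rw [map_mul]
  rfl

theorem lowFix_comm (ρ : Perm (Fin n) →* (V →ₗ[ℝ] V)) {σ τ : Perm (Fin n)}
    (h : σ * τ = τ * σ) (v : V) : ρ σ (ρ τ v) = ρ τ (ρ σ v) := by
  rw [lowFix_mul, lowFix_mul, h]

theorem lowFix_inv (ρ : Perm (Fin n) →* (V →ₗ[ℝ] V)) {σ τ : Perm (Fin n)}
    (h : σ * τ = 1) (v : V) : ρ σ (ρ τ v) = v := by
  rw [lowFix_mul, h, map_one]
  rfl

theorem lowFix_pa_ne {i j : Fin (n / 2)} (h : i ≠ j) : (pa i : Fin n) ≠ pa j := by
  intro h1
  have h2 : 2 * i.1 = 2 * j.1 := congrArg Fin.val h1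
  exact h (Fin.ext (by omega))

theorem lowFix_pb_ne {i j : Fin (n / 2)} (h : i ≠ j) : (pb i : Fin n) ≠ pb j := by
  intro h1
  have h2 : 2 * i.1 + 1 = 2 * j.1 + 1 := congrArg Fin.val h1
  exact h (Fin.ext (by omega))

theorem lowFix_pa_pb (i j : Fin (n / 2)) : (pa i : Fin n) ≠ pb j := by
  intro h1
  have h2 : 2 * i.1 = 2 * j.1 + 1 := congrArg Fin.val h1
  omega

theorem lowFix_pt_comm {f : Perm (Fin n)} {i : Fin (n / 2)} (h1 : f (pa i) = pa i)
    (h2 : f (pb i) = pb i) : f * pt i = pt i * f := by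
  unfold pt
  rw [Equiv.mul_swap_eq_swap_mul, h1, h2]

theorem lowFix_pt_pt (i j : Fin (n / 2)) : (pt j : Perm (Fin n)) * pt i = pt i * pt j := by
  by_cases h : i = j
  · rw [h]
  · refine lowFix_pt_comm ?_ ?_
    · exact Equiv.swap_apply_of_ne_of_ne (lowFix_pa_ne h) (lowFix_pa_pb i j)
    · exact Equiv.swap_apply_of_ne_of_ne (lowFix_pa_pb j i).symm (lowFix_pb_ne h)

theorem lowFix_ext {L : Submodule ℝ V} (hL : Invar ρ L) (A T : Finset (Fin (n / 2))) :
    ∀ w ∈ L, w ≠ 0 → (∀ i ∈ A, ρ (pt i) w = -w) →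
      ∃ w' ∈ L, w' ≠ 0 ∧ (∀ i ∈ A, ρ (pt i) w' = -w') ∧
        ∀ i ∈ T, ρ (pt i) w' = w' ∨ ρ (pt i) w' = -w' := by
  classical
  induction T using Finset.induction_on with
  | empty =>
    intro w hw h0 hA
    exact ⟨w, hw, h0, hA, fun i hi => absurd hi (Finset.notMem_empty i)⟩
  | insert j T hj ih =>
    intro w hw h0 hA
    obtain ⟨w', h1, h2, h3, h4⟩ := ih w hw h0 hA
    by_cases h5 : w' - ρ (pt j) w' = 0
    · refine ⟨w', h1, h2, h3, fun i hi => ?_⟩
      rcases Finset.mem_insert.1 hi with hi | hi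
      · left
        rw [hi]
        exact (sub_eq_zero.1 h5).symm
      · exact h4 i hi
    · refine ⟨w' - ρ (pt j) w', L.sub_mem h1 (hL _ _ h1), h5, fun i hi => ?_, fun i hi => ?_⟩
      · rw [map_sub, lowFix_comm ρ (lowFix_pt_pt j i), h3 i hi, map_neg]
        abel
      · rcases Finset.mem_insert.1 hi with hi | hi
        · right
          rw [hi, map_sub, lowFix_inv ρ (show pt j * pt j = 1 from Equiv.swap_mul_self _ _)]
          abel
        · rcases h4 i hi with h6 | h6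
          · left
            rw [map_sub, lowFix_comm ρ (lowFix_pt_pt j i), h6]
          · right
            rw [map_sub, lowFix_comm ρ (lowFix_pt_pt j i), h6, map_neg]
            abel

theorem lowFix_card {L : Submodule ℝ V} (hL : Invar ρ L) {J : ℕ}
    (hlow : ∀ B v, v ∈ L → Pat ρ B v → v ≠ 0 → B.card < J) {A : Finset (Fin (n / 2))} {w : V}
    (hw : w ∈ L) (h0 : w ≠ 0) (hA : ∀ i ∈ A, ρ (pt i) w = -w) : A.card < J := by
  classical
  obtain ⟨w', h1, h2, h3, h4⟩ := lowFix_ext hL A Finset.univ w hw h0 hA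
  have h5 : Pat ρ (Finset.univ.filter fun i => ρ (pt i) w' = -w') w' := by
    intro i
    by_cases h6 : ρ (pt i) w' = -w'
    · have h7 : i ∈ (Finset.univ.filter fun i => ρ (pt i) w' = -w') :=
        Finset.mem_filter.2 ⟨Finset.mem_univ i, h6⟩
      rw [if_pos h7]
      exact h6
    · have h7 : i ∉ (Finset.univ.filter fun i => ρ (pt i) w' = -w') :=
        fun h8 => h6 (Finset.mem_filter.1 h8).2
      rw [if_neg h7]
      exact (h4 i (Finset.mem_univ i)).resolve_right h6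
  refine lt_of_le_of_lt (Finset.card_le_card ?_) (hlow _ w' h1 h5 h2)
  intro i hi
  exact Finset.mem_filter.2 ⟨Finset.mem_univ i, h3 i hi⟩

/-- a permutation which moves two points and fixes a set -/
theorem lowFix_move (I : Finset (Fin n)) {x y a b : Fin n} (hxy : x ≠ y) (hab : a ≠ b)
    (hx : x ∉ I) (hy : y ∉ I) (ha : a ∉ I) (hb : b ∉ I) :
    ∃ π : Perm (Fin n), π x = a ∧ π y = b ∧ ∀ z ∈ I, π z = z := by
  have h1 : Equiv.swap x a y ≠ a := by
    intro h
    have h2 : Equiv.swap x a y = Equiv.swap x a x := by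
      rw [h, Equiv.swap_apply_left]
    exact hxy ((Equiv.injective _ h2).symm)
  have h3 : Equiv.swap x a y ∉ I := by
    by_cases h4 : y = a
    · rw [h4, Equiv.swap_apply_right]
      exact hx
    · rw [Equiv.swap_apply_of_ne_of_ne hxy.symm h4]
      exact hy
  refine ⟨Equiv.swap (Equiv.swap x a y) b * Equiv.swap x a, ?_, ?_, fun z hz => ?_⟩
  · rw [Equiv.Perm.mul_apply, Equiv.swap_apply_left, Equiv.swap_apply_of_ne_of_ne h1.symm hab]
  · rw [Equiv.Perm.mul_apply, Equiv.swap_apply_left]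
  · have e1 : z ≠ x := fun h => hx (h ▸ hz)
    have e2 : z ≠ a := fun h => ha (h ▸ hz)
    have e3 : z ≠ b := fun h => hb (h ▸ hz)
    have e4 : z ≠ Equiv.swap x a y := fun h => h3 (h ▸ hz)
    rw [Equiv.Perm.mul_apply, Equiv.swap_apply_of_ne_of_ne e1 e2,
      Equiv.swap_apply_of_ne_of_ne e4 e3]

theorem low_fixed {L : Submodule ℝ V} (hL : Invar ρ L) (hne : L ≠ ⊥) {J : ℕ} (hJ : 1 ≤ J)
    (hJn : J ≤ n / 2)
    (hlow : ∀ B v, v ∈ L → Pat ρ B v → v ≠ 0 → B.card < J) :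
    ∃ I : Finset (Fin n), I.card = 2 * J - 2 ∧ ∃ v ∈ L, v ≠ 0 ∧ Fixes ρ I v := by
  classical
  obtain ⟨w0, hw0, hw00⟩ := (Submodule.ne_bot_iff L).1 hne
  have hne' : ((Finset.univ : Finset (Finset (Fin (n / 2)))).filter fun A =>
      ∃ w ∈ L, w ≠ 0 ∧ ∀ i ∈ A, ρ (pt i) w = -w).Nonempty :=
    ⟨∅, Finset.mem_filter.2 ⟨Finset.mem_univ _, w0, hw0, hw00,
      fun i hi => absurd hi (Finset.notMem_empty i)⟩⟩
  obtain ⟨A, hA, hmax⟩ := Finset.exists_max_image _ Finset.card hne'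
  obtain ⟨w, hw, h0, hA'⟩ := (Finset.mem_filter.1 hA).2
  have hcard : A.card < J := lowFix_card hL hlow hw h0 hA'
  obtain ⟨i', hi'⟩ : ∃ i' : Fin (n / 2), i' ∉ A := by
    by_contra hcon
    push_neg at hcon
    have h1 : A = Finset.univ := Finset.eq_univ_iff_forall.2 hcon
    rw [h1, Finset.card_univ, Fintype.card_fin] at hcard
    omega
  have hI0 : (A.image pa ∪ A.image pb : Finset (Fin n)).card ≤ 2 * J - 2 := by
    have h1 := Finset.card_union_le (A.image (pa : Fin (n / 2) → Fin n)) (A.image pb)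
    have h2 := Finset.card_image_le (s := A) (f := (pa : Fin (n / 2) → Fin n))
    have h3 := Finset.card_image_le (s := A) (f := (pb : Fin (n / 2) → Fin n))
    omega
  obtain ⟨I, hI, hIc⟩ := Finset.exists_superset_card_eq hI0
    (by rw [Fintype.card_fin]; omega)
  refine ⟨I, hIc, w, hw, h0, fun x y hx hy => ?_⟩
  have hpa : ∀ i ∈ A, (pa i : Fin n) ∈ (A.image pa ∪ A.image pb : Finset (Fin n)) := fun i hi =>
    Finset.mem_union_left _ (Finset.mem_image_of_mem _ hi)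
  have hpb : ∀ i ∈ A, (pb i : Fin n) ∈ (A.image pa ∪ A.image pb : Finset (Fin n)) := fun i hi =>
    Finset.mem_union_right _ (Finset.mem_image_of_mem _ hi)
  have hx' : x ∉ (A.image pa ∪ A.image pb : Finset (Fin n)) := fun h => hx (hI h)
  have hy' : y ∉ (A.image pa ∪ A.image pb : Finset (Fin n)) := fun h => hy (hI h)
  have ha' : (pa i' : Fin n) ∉ (A.image pa ∪ A.image pb : Finset (Fin n)) := by
    intro h
    rcases Finset.mem_union.1 h with h | h
    · obtain ⟨i, hi, h1⟩ := Finset.mem_image.1 h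
      exact lowFix_pa_ne (fun h2 : i = i' => hi' (h2 ▸ hi)) h1
    · obtain ⟨i, hi, h1⟩ := Finset.mem_image.1 h
      exact lowFix_pa_pb i' i h1.symm
  have hb' : (pb i' : Fin n) ∉ (A.image pa ∪ A.image pb : Finset (Fin n)) := by
    intro h
    rcases Finset.mem_union.1 h with h | h
    · obtain ⟨i, hi, h1⟩ := Finset.mem_image.1 h
      exact lowFix_pa_pb i i' h1
    · obtain ⟨i, hi, h1⟩ := Finset.mem_image.1 h
      exact lowFix_pb_ne (fun h2 : i = i' => hi' (h2 ▸ hi)) h1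
  by_contra hcon
  have hxy : x ≠ y := by
    intro h
    apply hcon
    rw [h, Equiv.swap_self]
    have h1 : (Equiv.refl (Fin n) : Perm (Fin n)) = 1 := rfl
    rw [h1, map_one]
    rfl
  obtain ⟨π, hπx, hπy, hπ⟩ := lowFix_move (A.image pa ∪ A.image pb : Finset (Fin n)) hxy
    (lowFix_pa_pb i' i') hx' hy' ha' hb'
  have hu0 : w - ρ (Equiv.swap x y) w ≠ 0 := fun h => hcon (sub_eq_zero.1 h).symm
  have huL : w - ρ (Equiv.swap x y) w ∈ L := L.sub_mem hw (hL _ _ hw)
  have hu1 : ∀ i ∈ A, ρ (pt i) (w - ρ (Equiv.swap x y) w) = -(w - ρ (Equiv.swap x y) w) := by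
    intro i hi
    have hc : Equiv.swap x y * pt i = pt i * Equiv.swap x y := by
      refine lowFix_pt_comm ?_ ?_
      · exact Equiv.swap_apply_of_ne_of_ne (fun h => hx' (h ▸ hpa i hi))
          (fun h => hy' (h ▸ hpa i hi))
      · exact Equiv.swap_apply_of_ne_of_ne (fun h => hx' (h ▸ hpb i hi))
          (fun h => hy' (h ▸ hpb i hi))
    rw [map_sub, lowFix_comm ρ hc.symm, hA' i hi, map_neg]
    abel
  have hu2 : ρ (Equiv.swap x y) (w - ρ (Equiv.swap x y) w) = -(w - ρ (Equiv.swap x y) w) := by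
    rw [map_sub, lowFix_inv ρ (Equiv.swap_mul_self _ _)]
    abel
  have hv0 : ρ π (w - ρ (Equiv.swap x y) w) ≠ 0 := by
    intro h
    apply hu0
    have h1 := lowFix_inv ρ (inv_mul_cancel π) (w - ρ (Equiv.swap x y) w)
    rw [h, map_zero] at h1
    exact h1.symm
  have hmem : insert i' A ∈ (Finset.univ : Finset (Finset (Fin (n / 2)))).filter fun A =>
      ∃ w ∈ L, w ≠ 0 ∧ ∀ i ∈ A, ρ (pt i) w = -w := by
    refine Finset.mem_filter.2 ⟨Finset.mem_univ _, ρ π (w - ρ (Equiv.swap x y) w),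
      hL _ _ huL, hv0, fun i hi => ?_⟩
    rcases Finset.mem_insert.1 hi with hi | hi
    · have hc : pt i * π = π * Equiv.swap x y := by
        rw [Equiv.mul_swap_eq_swap_mul, hπx, hπy, hi]
        rfl
      rw [lowFix_mul, hc, ← lowFix_mul, hu2, map_neg]
    · have hc : π * pt i = pt i * π := lowFix_pt_comm (hπ _ (hpa i hi)) (hπ _ (hpb i hi))
      rw [lowFix_comm ρ hc.symm, hu1 i hi, map_neg]
  have h9 := hmax _ hmem
  rw [Finset.card_insert_of_notMem hi'] at h9
  omega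

end Pool.H60.TP
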