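import Pool.Agent.H60.TP.Defs

set_option autoImplicit false

/-!
# Top scale: patterns
-/

open Finset Equiv Pool.H98.BE
open scoped InnerProductSpace

namespace Pool.H60.TP

variable {n : ℕ} {V : Type*} [NormedAddCommGroup V] [InnerProductSpace ℝ V]
variable {ρ : Perm (Fin n) →* (V →ₗ[ℝ] V)}

private theorem pd_mul_self (i : Fin (n / 2)) : pt i * pt i = (1 : Perm (Fin n)) :=
  Equiv.swap_mul_self _ _

private theorem pd_ne_aa {i j : Fin (n / 2)} (h : i ≠ j) : (pa i : Fin n) ≠ pa j := by
  intro h1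
  apply h
  have h2 := congrArg Fin.val h1
  change 2 * i.1 = 2 * j.1 at h2
  exact Fin.ext (by omega)

private theorem pd_ne_bb {i j : Fin (n / 2)} (h : i ≠ j) : (pb i : Fin n) ≠ pb j := by
  intro h1
  apply h
  have h2 := congrArg Fin.val h1
  change 2 * i.1 + 1 = 2 * j.1 + 1 at h2
  exact Fin.ext (by omega)

private theorem pd_ne_ab (i j : Fin (n / 2)) : (pa i : Fin n) ≠ pb j := by
  intro h1
  have h2 := congrArg Fin.val h1
  change 2 * i.1 = 2 * j.1 + 1 at h2
  omega

private theorem pd_comm (i j : Fin (n / 2)) : (pt i * pt j : Perm (Fin n)) = pt j * pt i := by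
  by_cases h : i = j
  · rw [h]
  · unfold pt
    rw [Equiv.mul_swap_eq_swap_mul, Equiv.swap_apply_of_ne_of_ne (pd_ne_aa (Ne.symm h))
      (pd_ne_ab j i), Equiv.swap_apply_of_ne_of_ne (pd_ne_ab i j).symm (pd_ne_bb (Ne.symm h))]

private theorem pd_rho_mul (σ τ : Perm (Fin n)) (v : V) : ρ (σ * τ) v = ρ σ (ρ τ v) := by
  rw [map_mul]
  rfl

private theorem pd_sq (i : Fin (n / 2)) (v : V) : ρ (pt i) (ρ (pt i) v) = v := by
  rw [← pd_rho_mul, pd_mul_self, map_one]
  rfl

private theorem pd_swap (i j : Fin (n / 2)) (v : V) :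
    ρ (pt i) (ρ (pt j) v) = ρ (pt j) (ρ (pt i) v) := by
  rw [← pd_rho_mul, pd_comm, pd_rho_mul]

private theorem pd_step {F : Submodule ℝ V} (hF : Invar ρ F) {v : V} (hv : v ∈ F)
    (S : Finset (Fin (n / 2))) :
    ∃ w : Finset (Fin (n / 2)) → V, (∀ B, w B ∈ F ∧
      ∀ i ∈ S, ρ (pt i) (w B) = if i ∈ B then -w B else w B) ∧ v = ∑ B ∈ S.powerset, w B := by
  classical
  induction S using Finset.induction_on with
  | empty =>
    refine ⟨fun _ => v, fun B => ⟨hv, fun i hi => absurd hi (Finset.notMem_empty i)⟩, ?_⟩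
    simp
  | insert a S ha ih =>
    obtain ⟨w, hw, hs⟩ := ih
    refine ⟨fun B => if a ∈ B then (1 / 2 : ℝ) • (w (B.erase a) - ρ (pt a) (w (B.erase a)))
      else (1 / 2 : ℝ) • (w B + ρ (pt a) (w B)), ?_, ?_⟩
    · intro B
      by_cases haB : a ∈ B
      · simp only [haB, if_true]
        obtain ⟨h1, h2⟩ := hw (B.erase a)
        refine ⟨F.smul_mem _ (F.sub_mem h1 (hF _ _ h1)), ?_⟩
        intro i hi
        by_cases hia : i = a
        · subst hia
          rw [if_pos haB, map_smul, map_sub, pd_sq, ← smul_neg, neg_sub]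
        · have hiS : i ∈ S := (Finset.mem_insert.1 hi).resolve_left hia
          have h3 := h2 i hiS
          rw [map_smul, map_sub, pd_swap, h3]
          by_cases hiB : i ∈ B
          · have h4 : i ∈ B.erase a := Finset.mem_erase.2 ⟨hia, hiB⟩
            rw [if_pos h4, if_pos hiB, map_neg, ← smul_neg]
            congr 1
            abel
          · have h4 : i ∉ B.erase a := fun h => hiB (Finset.mem_erase.1 h).2
            rw [if_neg h4, if_neg hiB]
      · simp only [haB, if_false]
        obtain ⟨h1, h2⟩ := hw B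
        refine ⟨F.smul_mem _ (F.add_mem h1 (hF _ _ h1)), ?_⟩
        intro i hi
        by_cases hia : i = a
        · subst hia
          rw [if_neg haB, map_smul, map_add, pd_sq, add_comm]
        · have hiS : i ∈ S := (Finset.mem_insert.1 hi).resolve_left hia
          have h3 := h2 i hiS
          rw [map_smul, map_add, pd_swap, h3]
          by_cases hiB : i ∈ B
          · rw [if_pos hiB, if_pos hiB, map_neg, ← smul_neg]
            congr 1
            abel
          · rw [if_neg hiB, if_neg hiB]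
    · rw [Finset.sum_powerset_insert ha, ← Finset.sum_add_distrib, hs]
      refine Finset.sum_congr rfl fun B hB => ?_
      have haB : a ∉ B := fun h => ha (Finset.mem_powerset.1 hB h)
      simp only [haB, if_false, Finset.mem_insert_self, if_true, Finset.erase_insert haB]
      rw [← smul_add]
      have h5 : w B + ρ (pt a) (w B) + (w B - ρ (pt a) (w B)) = (2 : ℝ) • w B := by
        rw [two_smul]
        abel
      rw [h5, smul_smul]
      norm_num

/-- every vector of an invariant subspace is the sum of its components in the patterns -/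
theorem pat_dec {F : Submodule ℝ V} (hF : Invar ρ F) {v : V} (hv : v ∈ F) :
    ∃ w : Finset (Fin (n / 2)) → V, (∀ B, w B ∈ F ∧ Pat ρ B (w B)) ∧ v = ∑ B, w B := by
  obtain ⟨w, h1, h2⟩ := pd_step hF hv univ
  refine ⟨w, fun B => ⟨(h1 B).1, fun i => (h1 B).2 i (Finset.mem_univ i)⟩, ?_⟩
  rwa [Finset.powerset_univ] at h2

/-- vectors with different eigenvalues at one transposition are orthogonal -/
theorem pat_orth' (hρ : ∀ (σ : Perm (Fin n)) (u v : V), ⟪ρ σ u, ρ σ v⟫_ℝ = ⟪u, v⟫_ℝ)
    {σ : Perm (Fin n)} {u v : V} (hu : ρ σ u = -u) (hv : ρ σ v = v) : ⟪u, v⟫_ℝ = 0 := by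
  have h := hρ σ u v
  rw [hu, hv, inner_neg_left] at h
  linarith

theorem pat_orth (hρ : ∀ (σ : Perm (Fin n)) (u v : V), ⟪ρ σ u, ρ σ v⟫_ℝ = ⟪u, v⟫_ℝ)
    {B B' : Finset (Fin (n / 2))} (h : B ≠ B') {u v : V} (hu : Pat ρ B u) (hv : Pat ρ B' v) :
    ⟪u, v⟫_ℝ = 0 := by
  by_contra hne
  apply h
  ext i
  have h1 := hu i
  have h2 := hv i
  by_cases hi : i ∈ B <;> by_cases hi' : i ∈ B'
  · exact ⟨fun _ => hi', fun _ => hi⟩
  · rw [if_pos hi] at h1
    rw [if_neg hi'] at h2
    exact absurd (pat_orth' hρ h1 h2) hne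
  · rw [if_neg hi] at h1
    rw [if_pos hi'] at h2
    have h3 := pat_orth' hρ h2 h1
    rw [real_inner_comm] at h3
    exact absurd h3 hne
  · exact ⟨fun h => absurd h hi, fun h => absurd h hi'⟩

private def pd_f (x : Fin (n / 2) × Bool) : Fin n := if x.2 then pb x.1 else pa x.1

private theorem pd_f_inj : Function.Injective (pd_f : Fin (n / 2) × Bool → Fin n) := by
  rintro ⟨i, b⟩ ⟨j, c⟩ h
  unfold pd_f at h
  cases b <;> cases c
  · simp only [Bool.false_eq_true, if_false] at h
    by_contra hne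
    have : i ≠ j := fun h' => hne (by rw [h'])
    exact pd_ne_aa this h
  · simp only [Bool.false_eq_true, if_false, if_true] at h
    exact absurd h (pd_ne_ab i j)
  · simp only [Bool.false_eq_true, if_false, if_true] at h
    exact absurd h.symm (pd_ne_ab j i)
  · simp only [if_true] at h
    by_contra hne
    have : i ≠ j := fun h' => hne (by rw [h'])
    exact pd_ne_bb this h

private theorem pd_lift (e : Perm (Fin (n / 2))) :
    ∃ π : Perm (Fin n), ∀ i, π (pa i) = pa (e i) ∧ π (pb i) = pb (e i) := by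
  classical
  have hg : Function.Injective (fun x : Fin (n / 2) × Bool => (pd_f (e x.1, x.2) : Fin n)) := by
    intro x y h
    have h1 := pd_f_inj h
    rw [Prod.mk.injEq] at h1
    exact Prod.ext (e.injective h1.1) h1.2
  let E := (Equiv.ofInjective _ (pd_f_inj (n := n))).symm.trans (Equiv.ofInjective _ hg)
  have key : ∀ x : Fin (n / 2) × Bool,
      (Equiv.extendSubtype E) (pd_f x) = pd_f (e x.1, x.2) := by
    intro x
    have hx : (pd_f x : Fin n) ∈ Set.range (pd_f : Fin (n / 2) × Bool → Fin n) := ⟨x, rfl⟩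
    rw [Equiv.extendSubtype_apply_of_mem E _ hx]
    change ((Equiv.ofInjective _ hg) ((Equiv.ofInjective _ (pd_f_inj (n := n))).symm
      ⟨pd_f x, hx⟩)).1 = _
    rw [Equiv.ofInjective_symm_apply (pd_f_inj (n := n)) x]
    rfl
  refine ⟨Equiv.extendSubtype E, fun i => ⟨?_, ?_⟩⟩
  · have := key (i, false)
    simpa [pd_f] using this
  · have := key (i, true)
    simpa [pd_f] using this

/-- patterns of the same size are exchanged by permutations -/
theorem pat_move (ρ : Perm (Fin n) →* (V →ₗ[ℝ] V)) {B B' : Finset (Fin (n / 2))}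
    (h : B.card = B'.card) : ∃ π : Perm (Fin n), ∀ v, Pat ρ B v → Pat ρ B' (ρ π v) := by
  classical
  let e0 : {x // x ∈ B} ≃ {x // x ∈ B'} := Finset.equivOfCardEq h
  let e : Perm (Fin (n / 2)) := Equiv.extendSubtype e0
  have he : ∀ i, i ∈ B ↔ e i ∈ B' := by
    intro i
    constructor
    · exact fun hi => Equiv.extendSubtype_mem e0 i hi
    · intro hi
      by_contra hn
      exact Equiv.extendSubtype_not_mem e0 i hn hi
  obtain ⟨π, hπ⟩ := pd_lift e
  refine ⟨π, fun v hv j => ?_⟩
  have h1 : pt j * π = π * pt (e.symm j) := by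
    unfold pt
    rw [Equiv.mul_swap_eq_swap_mul, (hπ _).1, (hπ _).2, Equiv.apply_symm_apply]
  rw [← pd_rho_mul, h1, pd_rho_mul, hv (e.symm j)]
  have h2 := he (e.symm j)
  rw [Equiv.apply_symm_apply] at h2
  by_cases hj : j ∈ B'
  · rw [if_pos hj, if_pos (h2.2 hj), map_neg]
  · rw [if_neg hj, if_neg (fun h => hj (h2.1 h))]

end Pool.H60.TP
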